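import Mathlib
import Pool.Agent.Q58.ChowDefs
import Pool.Agent.Q58.Product

/-!
# Products of curves, scalar morphisms and the filtration of the Chow group of zero-cycles

Products `∏_t C_t^{ι_t}` of powers of given curves `C_t` over a field `k`, the morphisms between
them that act on zero-cycles through matrices of rational numbers, the action of linear
combinations of such morphisms on Chow groups of zero-cycles and on holomorphic forms, and the
filtration of the Chow group of zero-cycles.
-/

namespace Q58.Chow

open AlgebraicGeometry CategoryTheory Limits Finset Equiv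

universe u

variable {k : Type u} [Field k] {T : Type} [Fintype T] [DecidableEq T]

/-- The product `∏_t C_t^{ι_t}` over `k`, with `ι t` copies of the curve `C t` for each `t`. -/
noncomputable def prodX (C : T → Sch k) (ι : T → Type) [∀ t, Finite (ι t)] : Sch k :=
  ∏ᶜ fun p : Σ t, ι t => C p.1

/-- The morphism to a product given by its coordinates. -/
noncomputable def liftX {Z : Sch k} {C : T → Sch k} {ι : T → Type} [∀ t, Finite (ι t)]
    (f : ∀ t, ι t → (Z ⟶ C t)) : Z ⟶ prodX C ι :=
  Pi.lift fun p : Σ t, ι t => f p.1 p.2

/-- The projections of a product. -/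
noncomputable def projX (C : T → Sch k) (ι : T → Type) [∀ t, Finite (ι t)] (t : T) (j : ι t) :
    prodX C ι ⟶ C t :=
  Pi.π (fun p : Σ t, ι t => C p.1) ⟨t, j⟩

/-- A scalar morphism `f : ∏_t C_t^{ι_t} → ∏_t C_t^{κ_t}`: on differences of points, modulo
rational equivalence on the curves, the coordinate `f_{t,j}` is the linear combination
`∑_l mat t j l • pr_{t,l}` of the coordinates with the same curve, with rational coefficients; and
if `C_t` has genus at least two then at most one of these coefficients is nonzero.  In other words
the homomorphism `∏_t J(C_t)^{ι_t} → ∏_t J(C_t)^{κ_t}` of Albanese varieties defined by `f` is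
given by rational matrices.  (A morphism from a product of curves to a curve of genus at least two
depends on one coordinate only.)  Examples: projections, diagonals, permutations of the
coordinates, constants, hyperelliptic involutions, translations, multiplication by integers and
the group law of elliptic curves.  If the only endomorphisms of the Jacobian varieties of the
curves `C_t` are the multiplications by integers, and there are no nonzero homomorphisms between
different ones, then all morphisms are scalar. -/
structure ScalarMor (C : T → Sch k) (ι κ : T → Type) [∀ t, Fintype (ι t)]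
    [∀ t, Fintype (κ t)] where
  /-- the morphism -/
  hom : prodX C ι ⟶ prodX C κ
  /-- the matrices -/
  mat : ∀ t, κ t → ι t → ℚ
  /-- the action on differences of points -/
  spec : ∀ (v v' : Pt (prodX C ι)) (t : T) (j : κ t),
    Finsupp.single (v ≫ hom ≫ projX C κ t j) 1 - Finsupp.single (v' ≫ hom ≫ projX C κ t j) 1 -
      ∑ l, mat t j l •
        (Finsupp.single (v ≫ projX C ι t l) 1 - Finsupp.single (v' ≫ projX C ι t l) 1) ∈
      ratTrivial (C t)
  /-- for curves of genus at least two there is only one coefficient -/
  one : ∀ t [IsCurve (C t)], 2 ≤ genus (C t) → ∀ (j : κ t) (l l' : ι t),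
    mat t j l ≠ 0 → mat t j l' ≠ 0 → l = l'

/-- The push-forward on Chow groups of zero-cycles. -/
noncomputable def pushCH {X Y : Sch k} (f : X ⟶ Y) : CH0 X →ₗ[ℚ] CH0 Y :=
  (ratTrivial X).mapQ (ratTrivial Y) (pushL f) fun _ hz => push_mem f hz

section

variable {C : T → Sch k} {ι κ : T → Type} [∀ t, Fintype (ι t)] [∀ t, Fintype (κ t)]

/-- The action `CH_0(∏ C_t^{ι_t}) → CH_0(∏ C_t^{κ_t})` of the correspondence `∑_f c_f Γ_f`, where
`Γ_f` is the graph of the scalar morphism `f`. -/
noncomputable def corr (c : ScalarMor C ι κ →₀ ℚ) : CH0 (prodX C ι) →ₗ[ℚ] CH0 (prodX C κ) :=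
  c.sum fun f a => a • pushCH f.hom

/-- The class `z` is killed by all scalar morphisms to products of less than `i` of the curves. -/
def KilledBelow (i : ℕ) (z : CH0 (prodX C ι)) : Prop :=
  ∀ m : T → ℕ, ∑ t, m t < i → ∀ f : ScalarMor C ι (fun t => Fin (m t)), pushCH f.hom z = 0

/-- The subspace `F^i` of the Chow group of zero-cycles of a product of curves: the classes killed
by all scalar morphisms to products of less than `i` of the curves. -/
noncomputable def filCH (C : T → Sch k) (ι : T → Type) [∀ t, Fintype (ι t)] (i : ℕ) :
    Submodule ℚ (CH0 (prodX C ι)) where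
  carrier := {z | KilledBelow i z}
  add_mem' := by
    intro a b ha hb m hm f
    rw [map_add, ha m hm f, hb m hm f, add_zero]
  zero_mem' := fun m _ f => map_zero _
  smul_mem' := by
    intro c a ha m hm f
    rw [map_smul, ha m hm f, smul_zero]

open Classical in
/-- For a coordinate `(t, j)` of the target and a basis form `b` of `H^0(C_t, Ω¹)` (of dimension
`g t`) let `ω_{t,j,b}` be the pull-back of `b` under this coordinate.  Its pull-back under `f` is
`∑_l mat t j l • ω_{t,l,b}`, and `f.entry u s` is the coefficient of `ω_s` in `f^* ω_u`. -/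
noncomputable def ScalarMor.entry (f : ScalarMor C ι κ) {g : T → ℕ}
    (u : Σ t, κ t × Fin (g t)) (s : Σ t, ι t × Fin (g t)) : ℚ :=
  ∑ l, if s = ⟨u.1, (l, u.2.2)⟩ then f.mat u.1 u.2.1 l else 0

/-- The correspondence `∑_f c_f Γ_f` acts as zero on holomorphic `i`-forms,
`H^{i,0}(∏ C_t^{κ_t}) → H^{i,0}(∏ C_t^{ι_t})`.  By the Kunneth formula `H^{i,0}` has the basis
`ω_{s_1} ∧ ⋯ ∧ ω_{s_i}` for sets of `i` different coordinates with a basis form of the curve for
each of them; the coefficient of `ω_{s_1} ∧ ⋯ ∧ ω_{s_i}` in `f^*(ω_{u_1} ∧ ⋯ ∧ ω_{u_i})` is the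
determinant of the matrix `f.entry (u_a) (s_b)`. -/
def ZeroOnForms (c : ScalarMor C ι κ →₀ ℚ) (g : T → ℕ) (i : ℕ) : Prop :=
  ∀ (u : Fin i → Σ t, κ t × Fin (g t)) (s : Fin i → Σ t, ι t × Fin (g t)),
    Function.Injective (fun a => (⟨(u a).1, (u a).2.1⟩ : Σ t, κ t)) →
    Function.Injective (fun a => (⟨(s a).1, (s a).2.1⟩ : Σ t, ι t)) →
    (c.sum fun f x => x * Matrix.det (Matrix.of fun a b => f.entry (u a) (s b))) = 0

end

end Q58.Chow
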