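import Mathlib
import Pool.Agent.Q58.Scal.Defs

/-!
# Bloch-Beilinson filtrations on zero-cycles of products of curves
-/

namespace Q58.Chow

open AlgebraicGeometry CategoryTheory Limits Finset Equiv

universe u

variable {k : Type u} [Field k] {T : Type} [Fintype T] [DecidableEq T]

/-- The product `C^n = ∏_t C_t^{n_t}`, of dimension `∑_t n_t`. -/
noncomputable abbrev powX (C : T → Sch k) (n : T → ℕ) : Sch k := prodX C fun t => Fin (n t)

/-- The scalar morphisms `∏_t C_t^{n_t} → ∏_t C_t^{m_t}`. -/
abbrev PowMor (C : T → Sch k) (n m : T → ℕ) := ScalarMor C (fun t => Fin (n t)) fun t => Fin (m t)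

/-- Systems of filtrations of the Chow groups `CH_0(C^n)_ℚ` of all products `C^n = ∏_t C_t^{n_t}`
of the given curves. -/
abbrev Filtrations (C : T → Sch k) := ∀ n : T → ℕ, ℕ → Submodule ℚ (CH0 (powX C n))

/-- The correspondence `c` maps the subspace `A` into the subspace `B`. -/
def CorrMaps {C : T → Sch k} {n m : T → ℕ} (c : PowMor C n m →₀ ℚ)
    (A : Submodule ℚ (CH0 (powX C n))) (B : Submodule ℚ (CH0 (powX C m))) : Prop :=
  ∀ z ∈ A, corr c z ∈ B

/-- A system of filtrations of the Chow groups `CH_0(C^n)_ℚ` of zero-cycles of all products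
`C^n = ∏_t C_t^{n_t}` of the given curves `C_t` of genus `g t`, with the properties of a
Bloch-Beilinson filtration with respect to all correspondences that are linear combinations of
graphs of scalar morphisms, in the strong form of the generalized Bloch conjecture: a
correspondence that acts as zero on holomorphic `i`-forms acts as zero on `gr^i`. -/
structure IsBlochBeilinson (C : T → Sch k) (g : T → ℕ) (G : Filtrations C) : Prop where
  /-- the filtrations start with the whole Chow group -/
  zero : ∀ n, G n 0 = ⊤
  /-- the filtrations are decreasing -/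
  anti : ∀ n, Antitone (G n)
  /-- `G^{d+1} = 0` on a product of `d` curves -/
  last : ∀ n, G n (∑ t, n t + 1) = ⊥
  /-- correspondences respect the filtrations -/
  map : ∀ (n m : T → ℕ) (c : PowMor C n m →₀ ℚ) (i : ℕ), CorrMaps c (G n i) (G m i)
  /-- correspondences acting as zero on holomorphic `i`-forms act as zero on `gr^i` -/
  forms : ∀ (n m : T → ℕ) (c : PowMor C n m →₀ ℚ) (i : ℕ), ZeroOnForms c g i →
    CorrMaps c (G n i) (G m (i + 1))

end Q58.Chow
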