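import Mathlib
import Pool.Agent.Q58.Scal.BBDefs

/-!
# Bloch-Beilinson filtrations on zero-cycles: the properties which are used
-/

namespace Q58.Chow

open AlgebraicGeometry CategoryTheory Limits Finset Equiv

universe u

variable {k : Type u} [Field k] {T : Type} [Fintype T] [DecidableEq T]

/-- Subspaces `F^i` of the Chow groups of zero-cycles with rational coefficients. -/
abbrev FilAll (k : Type u) [Field k] := ∀ X : Sch k, ℕ → Submodule ℚ (CH0 X)

/-- The morphism `f` maps the subspace `A` into the subspace `B`. -/
def PushMaps {X Y : Sch k} (f : X ⟶ Y) (A : Submodule ℚ (CH0 X)) (B : Submodule ℚ (CH0 Y)) :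
    Prop :=
  ∀ z ∈ A, pushCH f z ∈ B

/-- All elements of the subspace `B` are images under `f` of elements of the subspace `A`. -/
def PushOnto {X Y : Sch k} (f : X ⟶ Y) (A : Submodule ℚ (CH0 X)) (B : Submodule ℚ (CH0 Y)) :
    Prop :=
  ∀ w ∈ B, ∃ z ∈ A, pushCH f z = w

/-- The difference of the graphs of `f` and `f'` maps the subspace `A` into the subspace `B`. -/
def DiffMaps {X Y : Sch k} (f f' : X ⟶ Y) (A : Submodule ℚ (CH0 X)) (B : Submodule ℚ (CH0 Y)) :
    Prop :=
  ∀ z ∈ A, pushCH f z - pushCH f' z ∈ B

/-- The morphism of schemes is surjective. -/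
def IsOnto {X Y : Sch k} (f : X ⟶ Y) : Prop := Function.Surjective f.left

/-- The morphism is constant. -/
def IsConst {X Y : Sch k} (f : X ⟶ Y) : Prop := ∃ p : Pt Y, f = toBase X ≫ p

/-- The coordinates of a morphism to a product of curves. -/
noncomputable def coordX {C : T → Sch k} {X : Sch k} {m : T → ℕ} (f : X ⟶ powX C m) (t : T)
    (j : Fin (m t)) : X ⟶ C t :=
  f ≫ projX C (fun t => Fin (m t)) t j

/-- Two morphisms between products of curves which differ by constants only: each coordinate of `f`
is the same coordinate of `f'`, or both are constant.  Such morphisms are algebraically equivalent,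
so their graphs have the same class in cohomology. -/
def DifferByConstants {C : T → Sch k} {n m : T → ℕ} (f f' : powX C n ⟶ powX C m) : Prop :=
  ∀ (t : T) (j : Fin (m t)), coordX f t j = coordX f' t j ∨
    (IsConst (coordX f t j) ∧ IsConst (coordX f' t j))

/-- Filtrations `F^i CH_0(X)_ℚ` for the varieties `X` of a class `P` (for instance the smooth
projective varieties) which contains all products of the given curves `C_t`, with some of the
properties of a Bloch-Beilinson filtration. -/
structure IsBBOnZeroCycles (C : T → Sch k) (P : Sch k → Prop) (F : FilAll k) : Prop where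
  /-- the products of the given curves belong to the class -/
  mem : ∀ n : T → ℕ, P (powX C n)
  /-- (i) the filtration starts with the whole Chow group -/
  zero : ∀ X, P X → F X 0 = ⊤
  /-- the filtration is decreasing -/
  anti : ∀ X, P X → Antitone (F X)
  /-- (ii) for the graphs of morphisms -/
  map : ∀ X Y, P X → P Y → ∀ (f : X ⟶ Y) (i : ℕ), PushMaps f (F X i) (F Y i)
  /-- (ii) for the surjective morphisms: by (ii), applied to the graph and to a correspondence
  backwards, the step `F^i` of the target is the image of the step `F^i` of the source -/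
  lift : ∀ X Y, P X → P Y → ∀ f : X ⟶ Y, IsOnto f → ∀ i : ℕ, PushOnto f (F X i) (F Y i)
  /-- (iii) for the difference of the graphs of two morphisms between products of the curves
  which differ by constants only -/
  const : ∀ (n m : T → ℕ) (f f' : powX C n ⟶ powX C m), DifferByConstants f f' →
    ∀ i : ℕ, DiffMaps f f' (F (powX C n) i) (F (powX C m) (i + 1))
  /-- (iv) for zero-cycles on the products of the curves -/
  last : ∀ n : T → ℕ, F (powX C n) (∑ t, n t + 1) = ⊥

end Q58.Chow
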