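import Mathlib
import Pool.Agent.Q58.ChowDefs
import Pool.Agent.Q58.Slots
import Pool.Agent.Q58.Product
import Pool.Agent.Q58.Taut.Comb
import Pool.Agent.Q58.Scal.Defs

/-!
# Exterior products of zero-cycles on different sets
-/

namespace Q58

open Finset

/-- A multilinear map that vanishes on generators vanishes on the spans. -/
lemma multilinear_eq_zero_of_span' {ι : Type*} [Finite ι] {M : ι → Type*} {W : Type*}
    [∀ i, AddCommGroup (M i)] [∀ i, Module ℚ (M i)] [AddCommGroup W] [Module ℚ W]
    (F : MultilinearMap ℚ M W) (G : ∀ i, Set (M i))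
    (h : ∀ v : ∀ i, M i, (∀ i, v i ∈ G i) → F v = 0) :
    ∀ v : ∀ i, M i, (∀ i, v i ∈ Submodule.span ℚ (G i)) → F v = 0 := by
  classical
  cases nonempty_fintype ι
  have key : ∀ (T : Finset ι) (v : ∀ i, M i), (∀ i, i ∉ T → v i ∈ G i) →
      (∀ i ∈ T, v i ∈ Submodule.span ℚ (G i)) → F v = 0 := by
    intro T
    induction T using Finset.induction_on with
    | empty => intro v hv _; exact h v fun i => hv i (by simp)
    | insert j T hj ih =>
      intro v hv hvT
      have hvj := hvT j (Finset.mem_insert_self _ _)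
      have hupd : v = Function.update v j (v j) := by simp
      rw [hupd]
      generalize v j = w at hvj
      induction hvj using Submodule.span_induction with
      | mem x hx =>
        apply ih
        · intro i hi
          by_cases hij : i = j
          · subst hij; simpa using hx
          · rw [Function.update_of_ne hij]
            exact hv i (by simp [hij, hi])
        · intro i hi
          have hij : i ≠ j := fun h' => hj (h' ▸ hi)
          rw [Function.update_of_ne hij]
          exact hvT i (Finset.mem_insert_of_mem hi)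
      | zero => exact F.map_update_zero v j
      | add x y _ _ hx hy => rw [F.map_update_add, hx, hy, add_zero]
      | smul a x _ hx => rw [F.map_update_smul, hx, smul_zero]
  intro v hv
  exact key Finset.univ v (fun i hi => absurd (Finset.mem_univ i) hi) fun i _ => hv i

variable {T : Type*} [Fintype T] [DecidableEq T] {P : T → Type*}

/-- The exterior product of finitely supported functions on different sets. -/
noncomputable def extD (a : ∀ t, P t →₀ ℚ) : (∀ t, P t) →₀ ℚ :=
  Finsupp.onFinset (Fintype.piFinset fun t => (a t).support) (fun x => ∏ t, a t (x t)) (by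
    intro x hx
    rw [Fintype.mem_piFinset]
    intro i
    rw [Finsupp.mem_support_iff]
    intro h
    exact hx (Finset.prod_eq_zero (Finset.mem_univ i) h))

lemma extD_apply (a : ∀ t, P t →₀ ℚ) (x : ∀ t, P t) : extD a x = ∏ t, a t (x t) := rfl

/-- `extD` as a multilinear map. -/
noncomputable def extDM (P : T → Type*) : MultilinearMap ℚ (fun t => P t →₀ ℚ) ((∀ t, P t) →₀ ℚ) :=
  MultilinearMap.mk' extD
    (by
      intro m i x y
      ext z
      simp only [extD_apply, Finsupp.add_apply]
      rw [← Finset.mul_prod_erase _ _ (mem_univ i), ← Finset.mul_prod_erase _ _ (mem_univ i),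
        ← Finset.mul_prod_erase _ _ (mem_univ i)]
      simp only [Function.update_self, Finsupp.add_apply]
      have : ∀ w : P i →₀ ℚ, ∏ j ∈ univ.erase i, (Function.update m i w j) (z j) =
          ∏ j ∈ univ.erase i, (m j) (z j) := by
        intro w
        apply Finset.prod_congr rfl
        intro j hj
        rw [Function.update_of_ne (ne_of_mem_erase hj)]
      rw [this, this, this, add_mul])
    (by
      intro m i c x
      ext z
      simp only [extD_apply, Finsupp.smul_apply, smul_eq_mul]
      rw [← Finset.mul_prod_erase _ _ (mem_univ i), ← Finset.mul_prod_erase _ _ (mem_univ i)]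
      simp only [Function.update_self, Finsupp.smul_apply, smul_eq_mul]
      have : ∀ w : P i →₀ ℚ, ∏ j ∈ univ.erase i, (Function.update m i w j) (z j) =
          ∏ j ∈ univ.erase i, (m j) (z j) := by
        intro w
        apply Finset.prod_congr rfl
        intro j hj
        rw [Function.update_of_ne (ne_of_mem_erase hj)]
      rw [this, this, mul_assoc])

lemma extDM_apply (a : ∀ t, P t →₀ ℚ) : extDM P a = extD a := rfl

lemma extD_single (x : ∀ t, P t) :
    extD (fun t => Finsupp.single (x t) (1 : ℚ)) = Finsupp.single x 1 := by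
  classical
  ext z
  rw [extD_apply]
  by_cases h : x = z
  · subst h; simp
  · rw [Finsupp.single_eq_of_ne (fun h' => h h'.symm)]
    obtain ⟨i, hi⟩ := Function.ne_iff.1 h
    apply Finset.prod_eq_zero (mem_univ i)
    rw [Finsupp.single_eq_of_ne (fun h' => hi h'.symm)]

end Q58

namespace Q58.Chow

open AlgebraicGeometry CategoryTheory Limits Finset Equiv

universe u

variable {k : Type u} [Field k] {T : Type} [Fintype T] [DecidableEq T]

variable {C : T → Sch k} {ι : T → Type} [∀ t, Fintype (ι t)] [∀ t, DecidableEq (ι t)]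

omit [DecidableEq T] [∀ t, DecidableEq (ι t)] in
@[reassoc] lemma liftX_proj {Z : Sch k} (f : ∀ t, ι t → (Z ⟶ C t)) (t : T) (j : ι t) :
    liftX f ≫ projX C ι t j = f t j := by
  have h : (Pi.lift (fun p : Σ t, ι t => f p.1 p.2) : Z ⟶ ∏ᶜ fun p : Σ t, ι t => C p.1) ≫
      Pi.π (fun p : Σ t, ι t => C p.1) ⟨t, j⟩ = f t j := by
    simp only [limit.lift_π, Fan.mk_π_app]
  exact h

omit [DecidableEq T] [∀ t, DecidableEq (ι t)] in
lemma hom_extX {Z : Sch k} {f g : Z ⟶ prodX C ι}
    (h : ∀ t j, f ≫ projX C ι t j = g ≫ projX C ι t j) : f = g :=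
  Pi.hom_ext _ _ fun p => h p.1 p.2

/-- The class of the exterior product of formal sums of arrays. -/
noncomputable def Theta (C : T → Sch k) (ι : T → Type) [∀ t, Fintype (ι t)]
    [∀ t, DecidableEq (ι t)] :
    MultilinearMap ℚ (fun t => (ι t → Pt (C t)) →₀ ℚ) (CH0 (prodX C ι)) :=
  ((cl (prodX C ι)).comp
    (Finsupp.lmapDomain ℚ ℚ fun x : ∀ t, ι t → Pt (C t) => liftX x)).compMultilinearMap
    (extDM fun t => ι t → Pt (C t))

lemma Theta_single (x : ∀ t, ι t → Pt (C t)) :
    Theta C ι (fun t => Finsupp.single (x t) 1) = cl _ (Finsupp.single (liftX x) 1) := by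
  change cl _ (Finsupp.mapDomain _ (extD _)) = _
  rw [extD_single, Finsupp.mapDomain_single]

/-- Rational equivalences in the coordinates of one type. -/
lemma Theta_kill (t₀ : T) (B : Sch k) [IsCurve B] (ψ : ι t₀ → (B ⟶ C t₀))
    (h : B.left.functionField) (E : Pt B →₀ ℚ) (hE : IsDivisorOf B h E)
    (D : ∀ t, (ι t → Pt (C t)) →₀ ℚ) :
    Theta C ι (Function.update D t₀ (E.mapDomain fun P j => P ≫ ψ j)) = 0 := by
  classical
  refine multilinear_eq_zero_of_span' (Theta C ι)
    (fun t => if t = t₀ then {f | ∃ h' : t = t₀, f = h' ▸ (E.mapDomain fun P j => P ≫ ψ j)}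
      else Set.range fun x => Finsupp.single x (1 : ℚ)) ?_ _ ?_
  · intro v hv
    have hv0 := hv t₀
    rw [if_pos rfl] at hv0
    obtain ⟨h', hv0⟩ := hv0
    change v t₀ = E.mapDomain (fun P j => P ≫ ψ j) at hv0
    by_cases hne : ∀ t, Nonempty (ι t → Pt (C t))
    swap
    · push Not at hne
      obtain ⟨t, ht⟩ := hne
      have h0 : v t = 0 := by ext x; exact (ht.false x).elim
      exact MultilinearMap.map_coord_zero _ t h0
    have hx : ∀ t, ∃ x : ι t → Pt (C t), t ≠ t₀ → v t = Finsupp.single x 1 := by
      intro t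
      by_cases htt : t = t₀
      · exact ⟨(hne t).some, fun h => absurd htt h⟩
      · have := hv t
        rw [if_neg htt] at this
        obtain ⟨x, hx⟩ := this
        exact ⟨x, fun _ => hx.symm⟩
    choose x hx using hx
    have hv' : v = Function.update (fun t => Finsupp.single (x t) (1 : ℚ)) t₀
        (E.mapDomain fun P j => P ≫ ψ j) := by
      funext t
      by_cases htt : t = t₀
      · subst htt; rw [Function.update_self, hv0]
      · rw [Function.update_of_ne htt, hx t htt]
    let χ : ∀ t, ι t → (B ⟶ C t) :=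
      Function.update (fun t (j : ι t) => toBase B ≫ x t j) t₀ ψ
    have hχ : ∀ P : Pt B, P ≫ liftX χ = liftX (Function.update x t₀ fun j => P ≫ ψ j) := by
      intro P
      apply hom_extX
      intro t j
      rw [Category.assoc, liftX_proj, liftX_proj]
      by_cases htt : t = t₀
      · subst htt
        simp only [χ, Function.update_self]
      · simp only [χ, Function.update_of_ne htt, pt_comp_const]
    have h1 : Theta C ι v = cl _ (push (liftX χ) E) := by
      rw [hv', push, Finsupp.mapDomain, Finsupp.sum, MultilinearMap.map_update_sum,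
        Finsupp.mapDomain, Finsupp.sum, map_sum]
      apply Finset.sum_congr rfl
      intro P _
      have h2 : (Finsupp.single (fun j => P ≫ ψ j) (E P) : (ι t₀ → Pt (C t₀)) →₀ ℚ) =
          E P • Finsupp.single (fun j => P ≫ ψ j) 1 := by simp
      have h3 : (Finsupp.single (P ≫ liftX χ) (E P) : Pt (prodX C ι) →₀ ℚ) =
          E P • Finsupp.single (P ≫ liftX χ) 1 := by simp
      rw [h2, h3, MultilinearMap.map_update_smul, map_smul, hχ, ← Theta_single]
      congr 2
      funext t
      by_cases htt : t = t₀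
      · subst htt; rw [Function.update_self, Function.update_self]
      · rw [Function.update_of_ne htt, Function.update_of_ne htt]
    rw [h1, cl_eq_zero]
    exact Submodule.subset_span ⟨B, inferInstance, liftX χ, h, E, hE, rfl⟩
  · intro t
    by_cases htt : t = t₀
    · subst htt
      rw [if_pos rfl, Function.update_self]
      exact Submodule.subset_span ⟨rfl, rfl⟩
    · rw [if_neg htt]
      have : Submodule.span ℚ (Set.range fun x : ι t → Pt (C t) => Finsupp.single x (1 : ℚ)) =
          ⊤ := (Finsupp.basisSingleOne (R := ℚ) (ι := ι t → Pt (C t))).span_eq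
      rw [this]
      exact Submodule.mem_top

/-- The linear map in the coordinates of one type, modulo diagonal relations. -/
lemma Theta_diagRel (t₀ : T) [IsCurve (C t₀)] (D : ∀ t, (ι t → Pt (C t)) →₀ ℚ)
    (f : (ι t₀ → Pt (C t₀)) →₀ ℚ) (hf : f ∈ diagRel (ι t₀) (Prin (C t₀))) :
    Theta C ι (Function.update D t₀ f) = 0 := by
  unfold diagRel at hf
  induction hf using Submodule.span_induction with
  | mem x hx =>
    obtain ⟨z, A, E, ⟨h, hh⟩, rfl⟩ := hx
    have h1 := Theta_kill (C := C) (ι := ι) t₀ (C t₀)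
      (fun j => if j ∈ A then 𝟙 (C t₀) else toBase (C t₀) ≫ z j) h (-E) hh D
    have h2 : (-E).mapDomain (fun (P : Pt (C t₀)) j =>
        P ≫ (if j ∈ A then 𝟙 (C t₀) else toBase (C t₀) ≫ z j)) =
        - E.mapDomain (diagArr z A) := by
      have h3 : (fun (P : Pt (C t₀)) j =>
          P ≫ (if j ∈ A then 𝟙 (C t₀) else toBase (C t₀) ≫ z j)) = diagArr z A := by
        funext P j
        by_cases hj : j ∈ A
        · simp only [diagArr, if_pos hj, Category.comp_id]
        · simp only [diagArr, if_neg hj, pt_comp_const]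
      rw [h3]
      exact map_neg (Finsupp.lmapDomain ℚ ℚ (diagArr z A)) E
    rw [h2, MultilinearMap.map_update_neg, neg_eq_zero] at h1
    exact h1
  | zero => exact (Theta C ι).map_update_zero D t₀
  | add x y _ _ hx hy => rw [(Theta C ι).map_update_add, hx, hy, add_zero]
  | smul a x _ hx => rw [(Theta C ι).map_update_smul, hx, smul_zero]

lemma AltFun_map {ι : Type*} [Fintype ι] [DecidableEq ι] {M N : Type*} [AddCommGroup M]
    [AddCommGroup N] (L : M →+ N) {g : ℕ} {f : Perm ι → M} (hf : AltFun g f) :
    AltFun g fun σ => L (f σ) := by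
  intro S hS τ
  have h1 := hf S hS τ
  have h2 := congrArg L h1
  rw [map_zero, map_sum] at h2
  rw [← h2]
  apply Finset.sum_congr rfl
  intro π _
  rw [map_zsmul]

/-- Alternation of the class of a product of differences, in the coordinates of one type. -/
theorem altFun_Theta (t₀ : T) [IsCurve (C t₀)] {g : ℕ} (hg : genus (C t₀) = g)
    (x : ι t₀ → Pt (C t₀)) (o : Pt (C t₀)) (D : ∀ t, (ι t → Pt (C t)) →₀ ℚ) :
    AltFun g (fun σ : Perm (ι t₀) => ((Perm.sign σ : ℤˣ) : ℤ) •
      Theta C ι (Function.update D t₀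
        (extProd fun i => (Finsupp.single (x (σ i)) (1 : ℚ) - Finsupp.single o 1)))) := by
  have h1 := altFun_extProd (ι := ι t₀) (Prin (C t₀)) g
    (fun s o hs => exists_effective (C t₀) hg s o hs) x o
  let L : SlotQuot (ι t₀) (Prin (C t₀)) →ₗ[ℚ] CH0 (prodX C ι) :=
    (diagRel (ι t₀) (Prin (C t₀))).liftQ ((Theta C ι).toLinearMap D t₀) (fun f hf => by
      rw [LinearMap.mem_ker]
      exact Theta_diagRel t₀ D f hf)
  have h2 := AltFun_map L.toAddMonoidHom h1
  intro S hS τ
  rw [← h2 S hS τ]
  apply Finset.sum_congr rfl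
  intro π _
  congr 1
  beta_reduce
  rw [LinearMap.toAddMonoidHom_coe, map_zsmul]
  rfl

/-- **The class of a product of differences of points**, as a function of the permutation of the
coordinates. -/
noncomputable def diffCl (v : ∀ t, ι t → Pt (C t)) (o : ∀ t, ι t → Pt (C t)) :
    CH0 (prodX C ι) :=
  Theta C ι fun t => extProd fun j => Finsupp.single (v t j) (1 : ℚ) - Finsupp.single (o t j) 1

/-- **Core vanishing.** -/
theorem core_vanishing [∀ t, IsCurve (C t)] {g : T → ℕ} (hg : ∀ t, genus (C t) = g t)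
    (v o : ∀ t, ι t → Pt (C t)) (ho : ∀ t j j', o t j = o t j')
    (d : (∀ t, Perm (ι t)) → ℚ)
    (hd : ∀ w w' : ∀ t, ι t → Fin (g t), ∑ σ : ∀ t, Perm (ι t),
      (if ∀ t, w' t ∘ σ t = w t then (∏ t, (((Perm.sign (σ t) : ℤˣ) : ℤ) : ℚ)) * d σ else 0) = 0) :
    ∑ σ : ∀ t, Perm (ι t), d σ • diffCl (C := C) (fun t j => v t (σ t j)) o = 0 := by
  have hsq : ∀ σ : ∀ t, Perm (ι t), (∏ t, (((Perm.sign (σ t) : ℤˣ) : ℤ) : ℚ)) *
      (∏ t, (((Perm.sign (σ t) : ℤˣ) : ℤ) : ℚ)) = 1 := by
    intro σ
    rw [← Finset.prod_mul_distrib]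
    apply Finset.prod_eq_one
    intro t _
    have h5 : ((Perm.sign (σ t) : ℤˣ) : ℤ) * ((Perm.sign (σ t) : ℤˣ) : ℤ) = 1 := by
      rw [← Units.val_mul, Int.units_mul_self]; rfl
    exact_mod_cast h5
  have key := multi_alt_eq_zero (M := CH0 (prodX C ι))
    (fun σ => (∏ t, (((Perm.sign (σ t) : ℤˣ) : ℤ) : ℚ)) * d σ) hd
    (fun σ => (∏ t, (((Perm.sign (σ t) : ℤˣ) : ℤ) : ℚ)) •
      diffCl (C := C) (fun t j => v t (σ t j)) o) ?_
  · rw [← key]
    apply Finset.sum_congr rfl
    intro σ _
    rw [smul_smul]
    congr 1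
    have := hsq σ
    calc d σ = ((∏ t, (((Perm.sign (σ t) : ℤˣ) : ℤ) : ℚ)) *
      (∏ t, (((Perm.sign (σ t) : ℤˣ) : ℤ) : ℚ))) * d σ := by rw [this, one_mul]
      _ = _ := by ring
  · intro t₀ σ
    by_cases hne : Nonempty (ι t₀)
    swap
    · intro S hS τ
      exfalso
      have : S = ∅ := by
        ext i
        exact (hne ⟨i⟩).elim
      rw [this] at hS
      simp at hS
    obtain ⟨j₀⟩ := hne
    have h1 := altFun_Theta (C := C) (ι := ι) t₀ (hg t₀) (v t₀) (o t₀ j₀)
      (fun t => extProd fun j => Finsupp.single (v t (σ t j)) (1 : ℚ) - Finsupp.single (o t j) 1)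
    have h2 := AltFun_map ((LinearMap.lsmul ℚ (CH0 (prodX C ι))
      (∏ t ∈ univ.erase t₀, (((Perm.sign (σ t) : ℤˣ) : ℤ) : ℚ))).toAddMonoidHom) h1
    intro S hS τ
    rw [← h2 S hS τ]
    apply Finset.sum_congr rfl
    intro π _
    congr 1
    beta_reduce
    rw [LinearMap.toAddMonoidHom_coe, LinearMap.lsmul_apply]
    rw [← Finset.mul_prod_erase _ _ (mem_univ t₀), Function.update_self]
    have h3 : ∏ t ∈ univ.erase t₀,
        (((Perm.sign (Function.update σ t₀ (τ * π) t) : ℤˣ) : ℤ) : ℚ) =
        ∏ t ∈ univ.erase t₀, (((Perm.sign (σ t) : ℤˣ) : ℤ) : ℚ) := by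
      apply Finset.prod_congr rfl
      intro t ht
      rw [Function.update_of_ne (ne_of_mem_erase ht)]
    rw [h3, mul_comm, mul_smul, ← Int.cast_smul_eq_zsmul ℚ]
    congr 2
    unfold diffCl
    congr 1
    funext t
    by_cases htt : t = t₀
    · subst htt
      rw [Function.update_self]
      congr 1
      funext j
      beta_reduce
      rw [Function.update_self, ho t j j₀]
    · rw [Function.update_of_ne htt]
      congr 1
      funext j
      beta_reduce
      rw [Function.update_of_ne htt]

end Q58.Chow
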