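import Mathlib
import Pool.Agent.Q58.Scal.Ext

/-!
# Exterior products in single coordinates, and classes of deep cycles
-/

namespace Q58.Chow

open AlgebraicGeometry CategoryTheory Limits Finset Equiv

universe u

variable {k : Type u} [Field k] {T : Type} [Fintype T] [DecidableEq T]
  {C : T → Sch k} {ι κ : T → Type} [∀ t, Fintype (ι t)] [∀ t, DecidableEq (ι t)]
  [∀ t, Fintype (κ t)] [∀ t, DecidableEq (κ t)]

/-- The formal sums of arrays in the coordinates of one type that are killed. -/
noncomputable def KT (C : T → Sch k) (ι : T → Type) [∀ t, Fintype (ι t)]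
    [∀ t, DecidableEq (ι t)] (t₀ : T) : Submodule ℚ ((ι t₀ → Pt (C t₀)) →₀ ℚ) where
  carrier := {f | ∀ D, Theta C ι (Function.update D t₀ f) = 0}
  add_mem' := by
    intro a b ha hb D
    rw [MultilinearMap.map_update_add, ha, hb, add_zero]
  zero_mem' := fun D => MultilinearMap.map_update_zero _ _ _
  smul_mem' := by
    intro c a ha D
    rw [MultilinearMap.map_update_smul, ha, smul_zero]

lemma mem_KT {t₀ : T} {f : (ι t₀ → Pt (C t₀)) →₀ ℚ} :
    f ∈ KT C ι t₀ ↔ ∀ D, Theta C ι (Function.update D t₀ f) = 0 := Iff.rfl

lemma extProd_mem_KT (t₀ : T) (a : ι t₀ → (Pt (C t₀) →₀ ℚ)) (j₀ : ι t₀)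
    (hj : a j₀ ∈ ratTrivial (C t₀)) : extProd a ∈ KT C ι t₀ := by
  classical
  rw [← Submodule.Quotient.mk_eq_zero, ← Submodule.mkQ_apply]
  change (KT C ι t₀).mkQ.compMultilinearMap (extProdM (Pt (C t₀)) (ι t₀)) a = 0
  by_cases hne : Nonempty (Pt (C t₀))
  swap
  · have h0 : a j₀ = 0 := by ext x; exact (hne ⟨x⟩).elim
    exact MultilinearMap.map_coord_zero _ j₀ h0
  obtain ⟨p0⟩ := hne
  refine multilinear_eq_zero_of_span _
    (fun i => if i = j₀ then {z | ∃ (B : Sch k) (_ : IsCurve B) (f : B ⟶ C t₀)
      (h : B.left.functionField) (D : Pt B →₀ ℚ), IsDivisorOf B h D ∧ z = push f D}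
      else Set.range fun P : Pt (C t₀) => Finsupp.single P (1 : ℚ)) ?_ a ?_
  · intro v hv
    have hvj := hv j₀
    simp only [if_true] at hvj
    obtain ⟨B, hB, f, h, E, hE, hvj⟩ := hvj
    have hx : ∀ i, ∃ x : Pt (C t₀), i ≠ j₀ → v i = Finsupp.single x 1 := by
      intro i
      by_cases hij : i = j₀
      · exact ⟨p0, fun h => absurd hij h⟩
      · have := hv i
        rw [if_neg hij] at this
        obtain ⟨P, hP⟩ := this
        exact ⟨P, fun _ => hP.symm⟩
    choose x hx using hx
    have hv' : v = Function.update (fun i => Finsupp.single (x i) (1 : ℚ)) j₀ (push f E) := by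
      funext i
      by_cases hij : i = j₀
      · subst hij; rw [Function.update_self, hvj]
      · rw [Function.update_of_ne hij, hx i hij]
    rw [LinearMap.compMultilinearMap_apply, Submodule.mkQ_apply, Submodule.Quotient.mk_eq_zero,
      mem_KT]
    intro D
    let ψ : ι t₀ → (B ⟶ C t₀) := fun i => if i = j₀ then f else toBase B ≫ x i
    have hψ : ∀ P : Pt B, (fun j => P ≫ ψ j) = Function.update x j₀ (P ≫ f) := by
      intro P
      funext i
      by_cases hij : i = j₀
      · subst hij; rw [Function.update_self]; simp only [ψ, if_pos rfl]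
      · rw [Function.update_of_ne hij]; simp only [ψ, if_neg hij, pt_comp_const]
    have h1 : extProdM (Pt (C t₀)) (ι t₀) v = E.mapDomain fun P j => P ≫ ψ j := by
      rw [hv', push, Finsupp.mapDomain, Finsupp.sum, MultilinearMap.map_update_sum,
        Finsupp.mapDomain, Finsupp.sum]
      apply Finset.sum_congr rfl
      intro P _
      have h2 : (Finsupp.single (P ≫ f) (E P) : Pt (C t₀) →₀ ℚ) =
          E P • Finsupp.single (P ≫ f) 1 := by simp
      have h3 : (Finsupp.single (fun j => P ≫ ψ j) (E P) : (ι t₀ → Pt (C t₀)) →₀ ℚ) =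
          E P • Finsupp.single (fun j => P ≫ ψ j) 1 := by simp
      rw [h2, h3, MultilinearMap.map_update_smul, hψ, extProdM_apply, ← extProd_single]
      congr 2
      funext i
      by_cases hij : i = j₀
      · subst hij; rw [Function.update_self, Function.update_self]
      · rw [Function.update_of_ne hij, Function.update_of_ne hij]
    rw [h1]
    exact Theta_kill t₀ B ψ h E hE D
  · intro i
    by_cases hij : i = j₀
    · subst hij
      rw [if_pos rfl]
      exact hj
    · rw [if_neg hij]
      have : Submodule.span ℚ (Set.range fun P : Pt (C t₀) => Finsupp.single P (1 : ℚ)) = ⊤ :=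
        (Finsupp.basisSingleOne (R := ℚ) (ι := Pt (C t₀))).span_eq
      rw [this]
      exact Submodule.mem_top

lemma extProd_sub_mem_KT (t₀ : T) (a b : ι t₀ → (Pt (C t₀) →₀ ℚ))
    (h : ∀ j, a j - b j ∈ ratTrivial (C t₀)) : extProd a - extProd b ∈ KT C ι t₀ := by
  classical
  have key : ∀ S : Finset (ι t₀), extProd (S.piecewise a b) - extProd b ∈ KT C ι t₀ := by
    intro S
    induction S using Finset.induction_on with
    | empty => rw [Finset.piecewise_empty, sub_self]; exact Submodule.zero_mem _
    | insert j S hj ih =>
      rw [Finset.piecewise_insert]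
      have h1 : extProd (Function.update (S.piecewise a b) j (a j)) =
          extProd (Function.update (S.piecewise a b) j (a j - b j)) + extProd (S.piecewise a b) := by
        have h2 : a j = (a j - b j) + b j := by abel
        have h3 : Function.update (S.piecewise a b) j (b j) = S.piecewise a b := by
          conv_rhs => rw [← Function.update_eq_self j (S.piecewise a b)]
          rw [Finset.piecewise_eq_of_notMem _ _ _ hj]
        change extProdM _ _ (Function.update (S.piecewise a b) j (a j)) = _
        conv_lhs => rw [h2]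
        rw [MultilinearMap.map_update_add, h3]
        rfl
      rw [h1, add_sub_assoc]
      refine Submodule.add_mem _ (extProd_mem_KT t₀ _ j ?_) ih
      rw [Function.update_self]
      exact h j
  have := key univ
  rwa [Finset.piecewise_univ] at this

/-- The class of an exterior product of cycles on the curves. -/
noncomputable def Psi (a : ∀ t, ι t → (Pt (C t) →₀ ℚ)) : CH0 (prodX C ι) :=
  Theta C ι fun t => extProd (a t)

lemma Psi_congr (a b : ∀ t, ι t → (Pt (C t) →₀ ℚ))
    (h : ∀ t j, a t j - b t j ∈ ratTrivial (C t)) : Psi a = Psi b := by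
  classical
  have key : ∀ S : Finset T, Theta C ι (S.piecewise (fun t => extProd (a t))
      (fun t => extProd (b t))) = Theta C ι (fun t => extProd (b t)) := by
    intro S
    induction S using Finset.induction_on with
    | empty => rw [Finset.piecewise_empty]
    | insert t S ht ih =>
      rw [Finset.piecewise_insert]
      have h2 : extProd (a t) = (extProd (a t) - extProd (b t)) + extProd (b t) := by abel
      have h3 : Function.update (S.piecewise (fun t => extProd (a t)) (fun t => extProd (b t))) t
          (extProd (b t)) = S.piecewise (fun t => extProd (a t)) (fun t => extProd (b t)) := by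
        conv_rhs => rw [← Function.update_eq_self t (S.piecewise (fun t => extProd (a t))
          (fun t => extProd (b t)))]
        rw [Finset.piecewise_eq_of_notMem _ _ _ ht]
      rw [h2, MultilinearMap.map_update_add, h3, ih,
        mem_KT.1 (extProd_sub_mem_KT t (a t) (b t) (h t)), zero_add]
  have := key univ
  rwa [Finset.piecewise_univ] at this

lemma Psi_smul (l : ∀ t, ι t → ℚ) (b : ∀ t, ι t → (Pt (C t) →₀ ℚ)) :
    Psi (fun t j => l t j • b t j) = (∏ t, ∏ j, l t j) • Psi b := by
  unfold Psi
  have h1 : ∀ t, extProd (fun j => l t j • b t j) = (∏ j, l t j) • extProd (b t) := by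
    intro t
    have := (extProdM (Pt (C t)) (ι t)).map_smul_univ (l t) (b t)
    exact this
  simp only [h1]
  exact (Theta C ι).map_smul_univ (fun t => ∏ j, l t j) fun t => extProd (b t)

lemma Psi_update_sub (a : ∀ t, ι t → (Pt (C t) →₀ ℚ)) (t₀ : T) (j₀ : ι t₀)
    (u v : Pt (C t₀) →₀ ℚ) :
    Psi (Function.update a t₀ (Function.update (a t₀) j₀ (u - v))) =
      Psi (Function.update a t₀ (Function.update (a t₀) j₀ u)) -
      Psi (Function.update a t₀ (Function.update (a t₀) j₀ v)) := by
  classical
  have h1 : ∀ w : Pt (C t₀) →₀ ℚ,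
      Psi (Function.update a t₀ (Function.update (a t₀) j₀ w)) =
      Theta C ι (Function.update (fun t => extProd (a t)) t₀
        (extProdM _ _ (Function.update (a t₀) j₀ w))) := by
    intro w
    unfold Psi
    congr 1
    funext t
    by_cases ht : t = t₀
    · subst ht; rw [Function.update_self, Function.update_self]; rfl
    · rw [Function.update_of_ne ht, Function.update_of_ne ht]
  rw [h1, h1, h1, MultilinearMap.map_update_sub, MultilinearMap.map_update_sub]

/-- The class of a product of differences of points as a signed sum of points. -/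
lemma Psi_diff_eq (x y : ∀ t, ι t → Pt (C t)) :
    Psi (fun t j => Finsupp.single (x t j) (1 : ℚ) - Finsupp.single (y t j) 1) =
      ∑ A : Finset (Σ t, ι t), (-1 : ℚ) ^ A.card •
        cl _ (Finsupp.single (liftX (C := C) fun t j => if (⟨t, j⟩ : Σ t, ι t) ∈ A then y t j
          else x t j) 1) := by
  classical
  have key : ∀ (S : Finset (Σ t, ι t)) (x : ∀ t, ι t → Pt (C t)),
      Psi (fun t j => if (⟨t, j⟩ : Σ t, ι t) ∈ S then
        Finsupp.single (x t j) (1 : ℚ) - Finsupp.single (y t j) 1 else
        Finsupp.single (x t j) (1 : ℚ)) =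
      ∑ A ∈ S.powerset, (-1 : ℚ) ^ A.card •
        cl _ (Finsupp.single (liftX (C := C) fun t j => if (⟨t, j⟩ : Σ t, ι t) ∈ A then y t j
          else x t j) 1) := by
    intro S
    induction S using Finset.induction_on with
    | empty =>
      intro x
      simp only [notMem_empty, if_false, powerset_empty, sum_singleton, card_empty, pow_zero,
        one_smul]
      unfold Psi
      have h1 : (fun t => extProd fun j : ι t => Finsupp.single (x t j) (1 : ℚ)) =
          fun t => Finsupp.single (x t) 1 := by
        funext t; exact extProd_single (x t)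
      rw [h1, Theta_single]
    | insert p S hp ih =>
      intro x
      obtain ⟨t₀, j₀⟩ := p
      let x' : ∀ t, ι t → Pt (C t) :=
        Function.update x t₀ (Function.update (x t₀) j₀ (y t₀ j₀))
      have hx' : ∀ t j, (⟨t, j⟩ : Σ t, ι t) ≠ ⟨t₀, j₀⟩ → x' t j = x t j := by
        intro t j h
        by_cases ht : t = t₀
        · subst ht
          have hj : j ≠ j₀ := fun h' => h (by rw [h'])
          simp only [x', Function.update_self, Function.update_of_ne hj]
        · simp only [x', Function.update_of_ne ht]
      have hx'0 : x' t₀ j₀ = y t₀ j₀ := by simp only [x', Function.update_self]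
      let a : ∀ t, ι t → (Pt (C t) →₀ ℚ) := fun t j => if (⟨t, j⟩ : Σ t, ι t) ∈ S then
        Finsupp.single (x t j) (1 : ℚ) - Finsupp.single (y t j) 1 else
        Finsupp.single (x t j) (1 : ℚ)
      have e : ∀ (b : ∀ t, ι t → (Pt (C t) →₀ ℚ)) (w : Pt (C t₀) →₀ ℚ),
          (∀ t j, (⟨t, j⟩ : Σ t, ι t) ≠ ⟨t₀, j₀⟩ → b t j = a t j) → b t₀ j₀ = w →
          b = Function.update a t₀ (Function.update (a t₀) j₀ w) := by
        intro b w h1 h2
        funext t j
        by_cases ht : t = t₀
        · subst ht
          rw [Function.update_self]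
          by_cases hj : j = j₀
          · subst hj; rw [Function.update_self, h2]
          · rw [Function.update_of_ne hj]
            exact h1 t j fun h => hj (by simpa using h)
        · rw [Function.update_of_ne ht]
          exact h1 t j fun h => ht (by
            have := congrArg Sigma.fst h
            exact this)
      have hL := e (fun t j => if (⟨t, j⟩ : Σ t, ι t) ∈ insert (⟨t₀, j₀⟩ : Σ t, ι t) S then
        Finsupp.single (x t j) (1 : ℚ) - Finsupp.single (y t j) 1 else
        Finsupp.single (x t j) (1 : ℚ)) (Finsupp.single (x t₀ j₀) (1 : ℚ) -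
          Finsupp.single (y t₀ j₀) 1) (by
          intro t j h
          simp only [a, mem_insert, h, false_or]) (by simp)
      have hA := e a (Finsupp.single (x t₀ j₀) (1 : ℚ)) (fun _ _ _ => rfl) (by
        simp only [a, if_neg hp])
      have hB := e (fun t j => if (⟨t, j⟩ : Σ t, ι t) ∈ S then
        Finsupp.single (x' t j) (1 : ℚ) - Finsupp.single (y t j) 1 else
        Finsupp.single (x' t j) (1 : ℚ)) (Finsupp.single (y t₀ j₀) (1 : ℚ)) (by
          intro t j h
          simp only [a, hx' t j h]) (by
          rw [if_neg hp, hx'0])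
      rw [hL, Psi_update_sub, ← hA, ← hB, ih x', Finset.sum_powerset_insert hp]
      have h3 : Psi a = _ := ih x
      rw [h3, sub_eq_add_neg, ← Finset.sum_neg_distrib]
      congr 1
      apply Finset.sum_congr rfl
      intro A hA'
      rw [mem_powerset] at hA'
      have hpA : (⟨t₀, j₀⟩ : Σ t, ι t) ∉ A := fun h => hp (hA' h)
      rw [card_insert_of_notMem hpA, pow_succ, mul_neg_one, neg_smul]
      congr 3
      congr 1
      congr 1
      funext t j
      by_cases h : (⟨t, j⟩ : Σ t, ι t) = ⟨t₀, j₀⟩
      · have h' : (⟨t, j⟩ : Σ t, ι t) ∉ A := by rw [h]; exact hpA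
        have h'' : (⟨t, j⟩ : Σ t, ι t) ∈ insert (⟨t₀, j₀⟩ : Σ t, ι t) A := by
          rw [h]; exact mem_insert_self _ _
        rw [if_neg h', if_pos h'']
        cases h
        exact hx'0
      · rw [hx' t j h]
        simp only [mem_insert, h, false_or]
  have h1 := key univ x
  simp only [mem_univ, if_true, powerset_univ] at h1
  exact h1

end Q58.Chow
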