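import Mathlib
import Pool.Agent.Q58.Scal.Slots
import Pool.Agent.Q58.Taut.Det

/-!
# Scalar morphisms and deep zero-cycles
-/

set_option linter.unusedSectionVars false

namespace Q58.Chow

open AlgebraicGeometry CategoryTheory Limits Finset Equiv

universe u

variable {k : Type u} [Field k] {T : Type} [Fintype T] [DecidableEq T]
  {C : T → Sch k} {ι κ μ : T → Type} [∀ t, Fintype (ι t)] [∀ t, DecidableEq (ι t)]
  [∀ t, Fintype (κ t)] [∀ t, DecidableEq (κ t)] [∀ t, Fintype (μ t)] [∀ t, DecidableEq (μ t)]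

lemma push_sub_single {X Y : Sch k} (f : X ⟶ Y) (x y : Pt X) :
    push f (Finsupp.single x (1 : ℚ) - Finsupp.single y 1) =
      Finsupp.single (x ≫ f) 1 - Finsupp.single (y ≫ f) 1 := by
  rw [← pushL_apply, map_sub, pushL_apply, pushL_apply, push_single, push_single]

lemma toBase_comp {X Y : Sch k} (f : X ⟶ Y) : f ≫ toBase Y = toBase X := by
  apply Over.OverMorphism.ext
  simp [toBase]

/-- The morphism whose coordinates are coordinates of the source or constants. -/
noncomputable def coordMor (p : ∀ t, κ t → ι t ⊕ Pt (C t)) : ScalarMor C ι κ where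
  hom := liftX fun t j => Sum.elim (projX C ι t) (fun P => toBase (prodX C ι) ≫ P) (p t j)
  mat t j l := Sum.elim (fun l' => if l' = l then 1 else 0) (fun _ => 0) (p t j)
  spec v v' t j := by
    rw [liftX_proj]
    rcases hp : p t j with l | P
    · simp only [Sum.elim_inl, ite_smul, one_smul, zero_smul, Finset.sum_ite_eq, mem_univ,
        if_true, sub_self]
      exact Submodule.zero_mem _
    · simp only [Sum.elim_inr, zero_smul, Finset.sum_const_zero, pt_comp_const, sub_self]
      exact Submodule.zero_mem _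
  one t _ _ j l l' h h' := by
    rcases hp : p t j with a | P
    · rw [hp] at h h'
      simp only [Sum.elim_inl, ne_eq, ite_eq_right_iff, one_ne_zero, imp_false,
        Decidable.not_not] at h h'
      rw [← h, ← h']
    · rw [hp] at h
      simp at h

lemma coordMor_proj (p : ∀ t, κ t → ι t ⊕ Pt (C t)) (t : T) (j : κ t) :
    (coordMor p).hom ≫ projX C κ t j =
      Sum.elim (projX C ι t) (fun P => toBase (prodX C ι) ≫ P) (p t j) := liftX_proj _ _ _

/-- Composition of scalar morphisms. -/
noncomputable def ScalarMor.comp (f : ScalarMor C ι κ) (h : ScalarMor C κ μ) :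
    ScalarMor C ι μ where
  hom := f.hom ≫ h.hom
  mat t j l := ∑ l', h.mat t j l' * f.mat t l' l
  spec v v' t j := by
    have h1 := h.spec (v ≫ f.hom) (v' ≫ f.hom) t j
    have h2 := Submodule.sum_mem (ratTrivial (C t)) (t := univ) (fun (l' : κ t) _ =>
      Submodule.smul_mem (ratTrivial (C t)) (h.mat t j l') (f.spec v v' t l'))
    have h3 := Submodule.add_mem _ h1 h2
    have h4 : ∀ (A : Pt (C t) →₀ ℚ) (B : κ t → (Pt (C t) →₀ ℚ)) (D : ι t → (Pt (C t) →₀ ℚ)),
        A - ∑ l', h.mat t j l' • B l' + ∑ l', h.mat t j l' • (B l' - ∑ l, f.mat t l' l • D l) =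
        A - ∑ l, (∑ l', h.mat t j l' * f.mat t l' l) • D l := by
      intro A B D
      simp only [smul_sub, Finset.sum_sub_distrib, Finset.smul_sum, smul_smul, Finset.sum_smul]
      rw [Finset.sum_comm (s := (univ : Finset (κ t)))]
      abel
    have h5 := h4 (Finsupp.single ((v ≫ f.hom) ≫ h.hom ≫ projX C μ t j) 1 -
      Finsupp.single ((v' ≫ f.hom) ≫ h.hom ≫ projX C μ t j) 1)
      (fun l' => Finsupp.single ((v ≫ f.hom) ≫ projX C κ t l') 1 -
        Finsupp.single ((v' ≫ f.hom) ≫ projX C κ t l') 1)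
      (fun l => Finsupp.single (v ≫ projX C ι t l) 1 - Finsupp.single (v' ≫ projX C ι t l) 1)
    simp only [Category.assoc] at h3 h5 ⊢
    rw [h5] at h3
    exact h3
  one t _ hg j l l' hl hl' := by
    obtain ⟨a, _, ha⟩ := Finset.exists_ne_zero_of_sum_ne_zero hl
    obtain ⟨b, _, hb⟩ := Finset.exists_ne_zero_of_sum_ne_zero hl'
    have h1 := h.one t hg j a b (left_ne_zero_of_mul ha) (left_ne_zero_of_mul hb)
    subst h1
    exact f.one t hg a l l' (right_ne_zero_of_mul ha) (right_ne_zero_of_mul hb)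

lemma ScalarMor.comp_hom (f : ScalarMor C ι κ) (h : ScalarMor C κ μ) :
    (f.comp h).hom = f.hom ≫ h.hom := rfl

/-- The filtration on the level of cycles. -/
def InFil (C : T → Sch k) (ι : T → Type) [∀ t, Fintype (ι t)] (i : ℕ)
    (z : Pt (prodX C ι) →₀ ℚ) : Prop :=
  ∀ m : T → ℕ, ∑ t, m t < i → ∀ f : ScalarMor C ι (fun t => Fin (m t)),
    push f.hom z ∈ ratTrivial (prodX C fun t => Fin (m t))

lemma InFil.push {i : ℕ} {z : Pt (prodX C ι) →₀ ℚ} (hz : InFil C ι i z)
    (f : ScalarMor C ι κ) : InFil C κ i (Q58.Chow.push f.hom z) := by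
  intro m hm h
  rw [push_push]
  exact hz m hm (f.comp h)

/-- Deep cycles are killed by the coordinate morphisms with few coordinates. -/
lemma push_mem_of_few {i : ℕ} {z : Pt (prodX C ι) →₀ ℚ} (hz : InFil C ι i z)
    (p : ∀ t, κ t → ι t ⊕ Pt (C t))
    (U : ∀ t, Finset (ι t)) (hU : ∀ t j a, p t j = Sum.inl a → a ∈ U t)
    (hcard : ∑ t, (U t).card < i) : push (coordMor p).hom z ∈ ratTrivial (prodX C κ) := by
  classical
  have hp' : ∀ t (j : κ t), ∃ p' : {l // l ∈ U t} ⊕ Pt (C t),
      p t j = Sum.map Subtype.val id p' := by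
    intro t j
    rcases hp : p t j with a | P
    · exact ⟨Sum.inl ⟨a, hU t j a hp⟩, rfl⟩
    · exact ⟨Sum.inr P, rfl⟩
  choose p' hp' using hp'
  let f : ScalarMor C ι (fun t => Fin (U t).card) := coordMor fun t j =>
    Sum.inl ((U t).equivFin.symm j).1
  let h : ScalarMor C (fun t => Fin (U t).card) κ := coordMor fun t j =>
    Sum.map (U t).equivFin id (p' t j)
  have hFh : (coordMor p).hom = f.hom ≫ h.hom := by
    apply hom_extX
    intro t j
    rw [Category.assoc, coordMor_proj, coordMor_proj, hp']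
    rcases p' t j with a | P
    · simp only [Sum.map_inl, Sum.elim_inl]
      rw [coordMor_proj]
      simp only [Equiv.symm_apply_apply, Sum.elim_inl]
    · simp only [Sum.map_inr, Sum.elim_inr, id]
      rw [← Category.assoc, toBase_comp]
  rw [hFh, ← push_push]
  exact push_mem _ (hz _ hcard f)

/-- The class of a deep cycle on a product with few coordinates. -/
lemma cl_eq_sum_Psi {i : ℕ} {z : Pt (prodX C κ) →₀ ℚ} (hz : InFil C κ i z)
    (hcard : ∑ t, Fintype.card (κ t) = i) (o : ∀ t, κ t → Pt (C t)) :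
    cl _ z = z.sum fun v a => a • Psi (C := C) (ι := κ) (fun t j =>
      Finsupp.single (v ≫ projX C κ t j) (1 : ℚ) - Finsupp.single (o t j) 1) := by
  classical
  let p : Finset (Σ t, κ t) → ∀ t, κ t → κ t ⊕ Pt (C t) := fun A t j =>
    if (⟨t, j⟩ : Σ t, κ t) ∈ A then Sum.inr (o t j) else Sum.inl j
  have hFA : ∀ A : Finset (Σ t, κ t), A ≠ ∅ → cl _ (push (coordMor (p A)).hom z) = 0 := by
    intro A hA
    rw [cl_eq_zero]
    refine push_mem_of_few hz (p A)
      (fun t => univ.filter fun j : κ t => (⟨t, j⟩ : Σ t, κ t) ∉ A) ?_ ?_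
    · intro t j a ha
      simp only [p] at ha
      by_cases hj : (⟨t, j⟩ : Σ t, κ t) ∈ A
      · rw [if_pos hj] at ha
        exact absurd ha (by simp)
      · rw [if_neg hj] at ha
        have ha' := Sum.inl_injective ha
        rw [← ha']
        simpa using hj
    · rw [← hcard]
      obtain ⟨⟨t₀, j₀⟩, hp⟩ := Finset.nonempty_iff_ne_empty.2 hA
      refine Finset.sum_lt_sum (fun t _ => ?_) ⟨t₀, mem_univ _, ?_⟩
      · exact Finset.card_le_univ _
      · rw [← Finset.card_univ]
        apply Finset.card_lt_card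
        rw [Finset.ssubset_iff_of_subset (Finset.subset_univ _)]
        exact ⟨j₀, mem_univ _, by simpa using hp⟩
  have hpt : ∀ (A : Finset (Σ t, κ t)) (v : Pt (prodX C κ)), v ≫ (coordMor (p A)).hom =
      liftX (C := C) fun t j => if (⟨t, j⟩ : Σ t, κ t) ∈ A then o t j
        else v ≫ projX C κ t j := by
    intro A v
    apply hom_extX
    intro t j
    rw [Category.assoc, coordMor_proj, liftX_proj]
    by_cases hj : (⟨t, j⟩ : Σ t, κ t) ∈ A
    · simp only [p, if_pos hj, Sum.elim_inr, pt_comp_const]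
    · simp only [p, if_neg hj, Sum.elim_inl]
  have h1 : (z.sum fun v a => a • Psi (C := C) (ι := κ) (fun t j =>
      Finsupp.single (v ≫ projX C κ t j) (1 : ℚ) - Finsupp.single (o t j) 1)) =
      ∑ A : Finset (Σ t, κ t), (-1 : ℚ) ^ A.card • cl _ (push (coordMor (p A)).hom z) := by
    simp only [Psi_diff_eq, ← hpt]
    simp only [Finsupp.sum, Finset.smul_sum]
    rw [Finset.sum_comm]
    apply Finset.sum_congr rfl
    intro A _
    rw [push, Finsupp.mapDomain, Finsupp.sum, map_sum, Finset.smul_sum]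
    apply Finset.sum_congr rfl
    intro v _
    have h3 : (Finsupp.single (v ≫ (coordMor (p A)).hom) (z v) : Pt (prodX C κ) →₀ ℚ) =
        z v • Finsupp.single (v ≫ (coordMor (p A)).hom) 1 := by simp
    rw [h3, map_smul, smul_comm]
  rw [h1, Finset.sum_eq_single ∅]
  · have : push (coordMor (p ∅)).hom z = z := by
      have h2 : (coordMor (p ∅)).hom = 𝟙 (prodX C κ) := by
        apply hom_extX
        intro t j
        rw [coordMor_proj, Category.id_comp]
        simp [p]
      rw [h2]
      unfold Q58.Chow.push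
      simp only [Category.comp_id]
      exact Finsupp.mapDomain_id
    rw [this, card_empty, pow_zero, one_smul]
  · intro A _ hA
    rw [hFA A hA, smul_zero]
  · intro h; exact absurd (mem_univ _) h

/-- The class of a deep cycle on the coordinates `K`. -/
noncomputable def dcl (z : Pt (prodX C ι) →₀ ℚ) (o : ∀ t, ι t → Pt (C t))
    (K : ∀ t, κ t → ι t) : CH0 (prodX C κ) :=
  z.sum fun v a => a •
    diffCl (C := C) (ι := κ) (fun t j => v ≫ projX C ι t (K t j)) (fun t j => o t (K t j))

/-- Multilinear expansion. -/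
lemma Psi_sum (a : ∀ t, κ t → ι t → ℚ) (D : ∀ t, ι t → (Pt (C t) →₀ ℚ)) :
    Psi (C := C) (ι := κ) (fun t j => ∑ l, a t j l • D t l) =
      ∑ K : ∀ t, κ t → ι t, (∏ t, ∏ j, a t j (K t j)) • Psi (C := C) (ι := κ)
        (fun t j => D t (K t j)) := by
  classical
  have h1 : ∀ t, extProd (fun j : κ t => ∑ l, a t j l • D t l) =
      ∑ r : κ t → ι t, (∏ j, a t j (r j)) • extProd fun j => D t (r j) := by
    intro t
    have h2 := (extProdM (Pt (C t)) (κ t)).map_sum (fun j l => a t j l • D t l)
    rw [extProdM_apply] at h2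
    rw [h2]
    apply Finset.sum_congr rfl
    intro r _
    exact (extProdM (Pt (C t)) (κ t)).map_smul_univ (fun j => a t j (r j)) fun j => D t (r j)
  unfold Psi
  simp only [h1]
  have h3 := (Theta C κ).map_sum (fun t (r : κ t → ι t) =>
    (∏ j, a t j (r j)) • extProd fun j => D t (r j))
  rw [h3]
  apply Finset.sum_congr rfl
  intro K _
  exact (Theta C κ).map_smul_univ (fun t => ∏ j, a t j (K t j)) fun t =>
    extProd fun j => D t (K t j)

lemma push_sum_smul {X Y : Sch k} {W : Type*} [AddCommGroup W] [Module ℚ W] (f : X ⟶ Y)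
    (z : Pt X →₀ ℚ) (G : Pt Y → W) :
    ((push f z).sum fun y a => a • G y) = z.sum fun v a => a • G (v ≫ f) := by
  unfold push
  rw [Finsupp.sum_mapDomain_index]
  · intro b; exact zero_smul ℚ (G b)
  · intro b m n; exact add_smul m n (G b)

/-- **The image of a deep cycle under a scalar morphism.** -/
lemma cl_push_scal {i : ℕ} {z : Pt (prodX C ι) →₀ ℚ} (hz : InFil C ι i z)
    (f : ScalarMor C ι κ) (hcard : ∑ t, Fintype.card (κ t) = i) (o : ∀ t, ι t → Pt (C t)) :
    cl _ (push f.hom z) = ∑ K : ∀ t, κ t → ι t, (∏ t, ∏ j, f.mat t j (K t j)) • dcl z o K := by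
  classical
  have h1 := cl_eq_sum_Psi (hz.push f) hcard
    (fun t j => liftX (C := C) o ≫ f.hom ≫ projX C κ t j)
  rw [h1]
  rw [push_sum_smul f.hom z (fun y => Psi (C := C) (ι := κ) (fun t j =>
      Finsupp.single (y ≫ projX C κ t j) (1 : ℚ) -
      Finsupp.single (liftX (C := C) o ≫ f.hom ≫ projX C κ t j) 1))]
  have h2 : ∀ v : Pt (prodX C ι), Psi (C := C) (ι := κ) (fun t j =>
      Finsupp.single ((v ≫ f.hom) ≫ projX C κ t j) (1 : ℚ) -
        Finsupp.single (liftX (C := C) o ≫ f.hom ≫ projX C κ t j) 1) =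
      ∑ K : ∀ t, κ t → ι t, (∏ t, ∏ j, f.mat t j (K t j)) •
        diffCl (C := C) (ι := κ) (fun t j => v ≫ projX C ι t (K t j)) (fun t j => o t (K t j)) := by
    intro v
    have h3 := Psi_sum (C := C) (κ := κ) f.mat (fun t l =>
      Finsupp.single (v ≫ projX C ι t l) (1 : ℚ) - Finsupp.single (o t l) 1)
    refine Eq.trans (Psi_congr _ _ ?_) h3
    intro t j
    have h4 := f.spec v (liftX (C := C) o) t j
    simp only [liftX_proj] at h4
    simpa only [Category.assoc] using h4
  simp only [h2]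
  unfold dcl
  simp only [Finsupp.sum, Finset.smul_sum]
  rw [Finset.sum_comm]
  apply Finset.sum_congr rfl
  intro K _
  apply Finset.sum_congr rfl
  intro v _
  rw [smul_comm]

/-- The class of a deep cycle on coordinates with a repetition. -/
lemma dcl_eq_zero {i : ℕ} {z : Pt (prodX C ι) →₀ ℚ} (hz : InFil C ι i z)
    (hcard : ∑ t, Fintype.card (κ t) = i) (o : ∀ t, ι t → Pt (C t)) (K : ∀ t, κ t → ι t)
    (hK : ¬ ∀ t, Function.Injective (K t)) : dcl z o K = 0 := by
  classical
  have h1 := cl_push_scal hz (coordMor (C := C) fun t j => Sum.inl (K t j)) hcard o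
  have h2 : ∀ K' : ∀ t, κ t → ι t, (∏ t, ∏ j,
      (coordMor (C := C) fun t j => (Sum.inl (K t j) : ι t ⊕ Pt (C t))).mat t j (K' t j)) =
      if K' = K then 1 else 0 := by
    intro K'
    by_cases h : K' = K
    · subst h
      rw [if_pos rfl]
      apply Finset.prod_eq_one
      intro t _
      apply Finset.prod_eq_one
      intro j _
      simp [coordMor]
    · rw [if_neg h]
      obtain ⟨t, ht⟩ := Function.ne_iff.1 h
      obtain ⟨j, hj⟩ := Function.ne_iff.1 ht
      apply Finset.prod_eq_zero (mem_univ t)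
      apply Finset.prod_eq_zero (mem_univ j)
      simp only [coordMor, Sum.elim_inl]
      rw [if_neg (Ne.symm hj)]
  simp only [h2, ite_smul, one_smul, zero_smul, Finset.sum_ite_eq', mem_univ, if_true] at h1
  rw [← h1, cl_eq_zero]
  refine push_mem_of_few hz _ (fun t => univ.image (K t)) (fun t j a ha => ?_) ?_
  · rw [← Sum.inl_injective ha]
    exact Finset.mem_image_of_mem _ (mem_univ _)
  · rw [← hcard]
    push Not at hK
    obtain ⟨t₀, ht₀⟩ := hK
    refine Finset.sum_lt_sum (fun t _ => ?_) ⟨t₀, mem_univ _, ?_⟩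
    · exact Finset.card_image_le
    · refine lt_of_le_of_ne Finset.card_image_le ?_
      intro heq
      apply ht₀
      have := Finset.card_image_iff.1 heq
      simpa using this

end Q58.Chow
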