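import Mathlib
import Pool.Agent.Q58.Scal.Main

/-!
# The generalized Bloch conjecture for scalar morphisms between products of curves
-/

set_option linter.unusedSectionVars false

namespace Q58.Chow

open AlgebraicGeometry CategoryTheory Limits Finset Equiv

universe u

variable {k : Type u} [Field k] {T : Type} [Fintype T] [DecidableEq T]
  {C : T → Sch k} {ι κ μ : T → Type} [∀ t, Fintype (ι t)] [∀ t, DecidableEq (ι t)]
  [∀ t, Fintype (κ t)] [∀ t, DecidableEq (κ t)] [∀ t, Fintype (μ t)] [∀ t, DecidableEq (μ t)]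

lemma entry_same (f : ScalarMor C ι κ) {g : T → ℕ} (t : T) (j : κ t) (b b' : Fin (g t))
    (l : ι t) :
    f.entry (⟨t, (j, b)⟩ : Σ t, κ t × Fin (g t)) (⟨t, (l, b')⟩ : Σ t, ι t × Fin (g t)) =
      if b' = b then f.mat t j l else 0 := by
  classical
  unfold ScalarMor.entry
  have h1 : ∀ l' : ι t, ((⟨t, (l, b')⟩ : Σ t, ι t × Fin (g t)) = ⟨t, (l', b)⟩) ↔
      (l = l' ∧ b' = b) := by
    intro l'
    constructor
    · intro h
      have h2 : (l, b') = (l', b) := by simpa using h
      exact Prod.ext_iff.1 h2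
    · rintro ⟨h2, h3⟩
      rw [h2, h3]
  simp only [h1]
  by_cases hb : b' = b
  · simp [hb]
  · simp [hb]

lemma entry_ne (f : ScalarMor C ι κ) {g : T → ℕ} (u : Σ t, κ t × Fin (g t))
    (s : Σ t, ι t × Fin (g t)) (h : u.1 ≠ s.1) : f.entry u s = 0 := by
  classical
  unfold ScalarMor.entry
  apply Finset.sum_eq_zero
  intro l _
  rw [if_neg]
  intro h'
  exact h (by rw [h'])

/-- The matrix of `f` between coordinates of the target and of the source with letters. -/
noncomputable def fmat (f : ScalarMor C ι κ) {g : T → ℕ} (H : ∀ t, μ t → κ t)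
    (w : ∀ t, μ t → Fin (g t)) (K : ∀ t, μ t → ι t) (w' : ∀ t, μ t → Fin (g t)) :
    Matrix (Σ t, μ t) (Σ t, μ t) ℚ :=
  Matrix.of fun p q => f.entry (⟨p.1, (H p.1 p.2, w p.1 p.2)⟩ : Σ t, κ t × Fin (g t))
    (⟨q.1, (K q.1 q.2, w' q.1 q.2)⟩ : Σ t, ι t × Fin (g t))

/-- The determinant of this matrix. -/
lemma det_fmat (f : ScalarMor C ι κ) {g : T → ℕ} (H : ∀ t, μ t → κ t)
    (w : ∀ t, μ t → Fin (g t)) (K : ∀ t, μ t → ι t) (w' : ∀ t, μ t → Fin (g t)) :
    (fmat f H w K w').det = ∑ σ : ∀ t, Perm (μ t), if ∀ t, w' t ∘ σ t = w t then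
      (∏ t, (((Perm.sign (σ t) : ℤˣ) : ℤ) : ℚ)) * ∏ t, ∏ j, f.mat t (H t j) (K t (σ t j))
      else 0 := by
  classical
  rw [det_block (fmat f H w K w')]
  · apply Finset.sum_congr rfl
    intro σ _
    have h1 : ∀ t j, fmat f H w K w' ⟨t, j⟩ ⟨t, σ t j⟩ =
        if w' t (σ t j) = w t j then f.mat t (H t j) (K t (σ t j)) else 0 := fun t j =>
      entry_same f t (H t j) (w t j) (w' t (σ t j)) (K t (σ t j))
    by_cases h : ∀ t, w' t ∘ σ t = w t
    · rw [if_pos h]
      congr 1
      apply Finset.prod_congr rfl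
      intro t _
      apply Finset.prod_congr rfl
      intro j _
      rw [h1]
      exact if_pos (congrFun (h t) j)
    · rw [if_neg h]
      push Not at h
      obtain ⟨t, ht⟩ := h
      obtain ⟨j, hj⟩ := Function.ne_iff.1 ht
      have h2 : ∏ t, ∏ j, fmat f H w K w' ⟨t, j⟩ ⟨t, σ t j⟩ = 0 := by
        apply Finset.prod_eq_zero (mem_univ t)
        apply Finset.prod_eq_zero (mem_univ j)
        rw [h1]
        exact if_neg hj
      rw [h2, mul_zero]
  · intro p q hpq
    exact entry_ne f _ _ hpq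

/-- The determinant vanishes when a coordinate is repeated. -/
lemma det_fmat_eq_zero [∀ t, IsCurve (C t)] (f : ScalarMor C ι κ) {g : T → ℕ}
    (hg : ∀ t, genus (C t) = g t) (H : ∀ t, μ t → κ t)
    (hH : ¬ ∀ t, Function.Injective (H t))
    (w : ∀ t, μ t → Fin (g t)) (K : ∀ t, μ t → ι t) (hK : ∀ t, Function.Injective (K t))
    (w' : ∀ t, μ t → Fin (g t)) : (fmat f H w K w').det = 0 := by
  classical
  push Not at hH
  obtain ⟨t, ht⟩ := hH
  unfold Function.Injective at ht
  push Not at ht
  obtain ⟨j₁, j₂, hj, hne⟩ := ht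
  by_cases hw : w t j₁ = w t j₂
  · apply Matrix.det_zero_of_row_eq (i := (⟨t, j₁⟩ : Σ t, μ t)) (j := ⟨t, j₂⟩)
    · intro h
      exact hne (by simpa using h)
    · funext q
      simp only [fmat, Matrix.of_apply]
      rw [hj, hw]
  · have h2 : 2 ≤ genus (C t) := by
      rw [hg t]
      have h1 := (w t j₁).isLt
      have h3 := (w t j₂).isLt
      have h4 : (w t j₁ : ℕ) ≠ (w t j₂ : ℕ) := fun h => hw (Fin.ext h)
      have h5 : 2 ≤ g t := by omega
      exact_mod_cast h5
    rw [det_fmat]
    apply Finset.sum_eq_zero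
    intro σ _
    by_cases hσ : ∀ t, w' t ∘ σ t = w t
    · rw [if_pos hσ]
      have h3 : f.mat t (H t j₁) (K t (σ t j₁)) = 0 ∨ f.mat t (H t j₂) (K t (σ t j₂)) = 0 := by
        by_contra h
        push Not at h
        rw [← hj] at h
        have h4 := f.one t h2 _ _ _ h.1 h.2
        exact hne ((σ t).injective (hK t h4))
      have h5 : ∏ t, ∏ j, f.mat t (H t j) (K t (σ t j)) = 0 := by
        apply Finset.prod_eq_zero (mem_univ t)
        rcases h3 with h3 | h3
        · exact Finset.prod_eq_zero (mem_univ j₁) h3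
        · exact Finset.prod_eq_zero (mem_univ j₂) h3
      rw [h5, mul_zero]
    · rw [if_neg hσ]

/-- The hypothesis on forms gives the vanishing for injective coordinates. -/
lemma sum_det_fmat {c : ScalarMor C ι κ →₀ ℚ} {g : T → ℕ} {i : ℕ}
    (hc : ZeroOnForms c g i) (hcard : ∑ t, Fintype.card (μ t) = i)
    (H : ∀ t, μ t → κ t) (hH : ∀ t, Function.Injective (H t))
    (w : ∀ t, μ t → Fin (g t)) (K : ∀ t, μ t → ι t) (hK : ∀ t, Function.Injective (K t))
    (w' : ∀ t, μ t → Fin (g t)) : (c.sum fun f a => a * (fmat f H w K w').det) = 0 := by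
  classical
  have hcardS : Fintype.card (Fin i) = Fintype.card (Σ t, μ t) := by
    rw [Fintype.card_fin, Fintype.card_sigma, hcard]
  let e : Fin i ≃ Σ t, μ t := Fintype.equivOfCardEq hcardS
  have h1 := hc (fun a => ⟨(e a).1, (H (e a).1 (e a).2, w (e a).1 (e a).2)⟩)
    (fun a => ⟨(e a).1, (K (e a).1 (e a).2, w' (e a).1 (e a).2)⟩) ?_ ?_
  rotate_left
  · have hinj : Function.Injective (fun p : Σ t, μ t => (⟨p.1, H p.1 p.2⟩ : Σ t, κ t)) := by
      rintro ⟨t, j⟩ ⟨t', j'⟩ hp
      have ht : t = t' := congrArg Sigma.fst hp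
      subst ht
      have : H t j = H t j' := by simpa using hp
      rw [hH t this]
    exact hinj.comp e.injective
  · have hinj : Function.Injective (fun p : Σ t, μ t => (⟨p.1, K p.1 p.2⟩ : Σ t, ι t)) := by
      rintro ⟨t, j⟩ ⟨t', j'⟩ hp
      have ht : t = t' := congrArg Sigma.fst hp
      subst ht
      have : K t j = K t j' := by simpa using hp
      rw [hK t this]
    exact hinj.comp e.injective
  rw [← h1]
  apply Finset.sum_congr rfl
  intro f _
  have h2 : (Matrix.of fun a b => f.entry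
      (⟨(e a).1, (H (e a).1 (e a).2, w (e a).1 (e a).2)⟩ : Σ t, κ t × Fin (g t))
      (⟨(e b).1, (K (e b).1 (e b).2, w' (e b).1 (e b).2)⟩ : Σ t, ι t × Fin (g t))) =
      (fmat f H w K w').submatrix e e := rfl
  beta_reduce
  rw [h2, Matrix.det_submatrix_equiv_self]

/-- The coefficient of a deep class in the image under a combination of scalar morphisms. -/
noncomputable def coefK (c : ScalarMor C ι κ →₀ ℚ) (h : ScalarMor C κ μ) (K : ∀ t, μ t → ι t) :
    ℚ :=
  c.sum fun f a => a * ∏ t, ∏ j, (f.comp h).mat t j (K t j)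

/-- The combinatorial form of the hypothesis on forms. -/
lemma forms_hyp [∀ t, IsCurve (C t)] {c : ScalarMor C ι κ →₀ ℚ} {g : T → ℕ}
    (hg : ∀ t, genus (C t) = g t) {i : ℕ} (hc : ZeroOnForms c g i)
    (h : ScalarMor C κ μ) (hcard : ∑ t, Fintype.card (μ t) = i)
    (K : ∀ t, μ t → ι t) (hK : ∀ t, Function.Injective (K t)) (w w' : ∀ t, μ t → Fin (g t)) :
    ∑ σ : ∀ t, Perm (μ t), (if ∀ t, w' t ∘ σ t = w t then
      (∏ t, (((Perm.sign (σ t) : ℤˣ) : ℤ) : ℚ)) * coefK c h (fun t j => K t (σ t j))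
        else 0) = 0 := by
  classical
  -- expand the products of the matrix of the composition
  have hexp : ∀ (f : ScalarMor C ι κ) (K' : ∀ t, μ t → ι t),
      ∏ t, ∏ j, (f.comp h).mat t j (K' t j) = ∑ H : ∀ t, μ t → κ t,
        (∏ t, ∏ j, h.mat t j (H t j)) * ∏ t, ∏ j, f.mat t (H t j) (K' t j) := by
    intro f K'
    have h1 : ∀ t, ∏ j, (f.comp h).mat t j (K' t j) = ∑ r : μ t → κ t,
        ∏ j, (h.mat t j (r j) * f.mat t (r j) (K' t j)) := by
      intro t
      change ∏ j, ∑ l', h.mat t j l' * f.mat t l' (K' t j) = _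
      rw [Finset.prod_univ_sum, Fintype.piFinset_univ]
    rw [Finset.prod_congr rfl fun t _ => h1 t, Finset.prod_univ_sum, Fintype.piFinset_univ]
    apply Finset.sum_congr rfl
    intro H _
    rw [← Finset.prod_mul_distrib]
    apply Finset.prod_congr rfl
    intro t _
    rw [← Finset.prod_mul_distrib]
  have htotal : ∑ σ : ∀ t, Perm (μ t), (if ∀ t, w' t ∘ σ t = w t then
      (∏ t, (((Perm.sign (σ t) : ℤˣ) : ℤ) : ℚ)) * coefK c h (fun t j => K t (σ t j))
        else 0) = ∑ H : ∀ t, μ t → κ t, (∏ t, ∏ j, h.mat t j (H t j)) *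
          (c.sum fun f a => a * (fmat f H w K w').det) := by
    unfold coefK Finsupp.sum
    simp only [hexp, det_fmat, Finset.mul_sum]
    rw [Finset.sum_comm' (s := univ) (t := fun _ => c.support) (t' := c.support)
      (s' := fun _ => univ) (by simp)]
    have h2 : ∀ f ∈ c.support, ∑ H : ∀ t, μ t → κ t, ∑ σ : ∀ t, Perm (μ t),
        (∏ t, ∏ j, h.mat t j (H t j)) * (c f * if ∀ t, w' t ∘ σ t = w t then
          (∏ t, (((Perm.sign (σ t) : ℤˣ) : ℤ) : ℚ)) *
            ∏ t, ∏ j, f.mat t (H t j) (K t (σ t j)) else 0) =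
        ∑ σ : ∀ t, Perm (μ t), if ∀ t, w' t ∘ σ t = w t then
          ∑ H : ∀ t, μ t → κ t, (∏ t, (((Perm.sign (σ t) : ℤˣ) : ℤ) : ℚ)) * (c f *
            ((∏ t, ∏ j, h.mat t j (H t j)) * ∏ t, ∏ j, f.mat t (H t j) (K t (σ t j)))) else 0 := by
      intro f _
      rw [Finset.sum_comm]
      apply Finset.sum_congr rfl
      intro σ _
      by_cases hσ : ∀ t, w' t ∘ σ t = w t
      · simp only [if_pos hσ]
        apply Finset.sum_congr rfl
        intro H _
        ring
      · simp only [if_neg hσ, mul_zero, Finset.sum_const_zero]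
    rw [Finset.sum_congr rfl h2, Finset.sum_comm]
    apply Finset.sum_congr rfl
    intro σ _
    by_cases hσ : ∀ t, w' t ∘ σ t = w t
    · simp only [if_pos hσ]
    · simp only [if_neg hσ, Finset.sum_const_zero]
  rw [htotal]
  apply Finset.sum_eq_zero
  intro H _
  by_cases hH : ∀ t, Function.Injective (H t)
  · rw [sum_det_fmat hc hcard H hH w K hK w', mul_zero]
  · have h1 : (c.sum fun f a => a * (fmat f H w K w').det) = 0 := by
      apply Finset.sum_eq_zero
      intro f _
      beta_reduce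
      rw [det_fmat_eq_zero f hg H hH w K hK w', mul_zero]
    rw [h1, mul_zero]

/-- The main claim: compositions with a scalar morphism to a product of `i` curves. -/
theorem main_claim [∀ t, IsCurve (C t)] {g : T → ℕ} (hg : ∀ t, genus (C t) = g t) {i : ℕ}
    {c : ScalarMor C ι κ →₀ ℚ} (hc : ZeroOnForms c g i) {z : Pt (prodX C ι) →₀ ℚ}
    (hz : InFil C ι i z) (h : ScalarMor C κ μ) (hcard : ∑ t, Fintype.card (μ t) = i) :
    (c.sum fun f a => a • cl _ (push (f.comp h).hom z)) = 0 := by
  classical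
  by_cases hne : Nonempty (Pt (prodX C ι))
  swap
  · have hz0 : z = 0 := by ext x; exact (hne ⟨x⟩).elim
    apply Finset.sum_eq_zero
    intro f _
    rw [hz0]
    simp [push]
  obtain ⟨x₀⟩ := hne
  let o : ∀ t, ι t → Pt (C t) := fun t j => x₀ ≫ projX C ι t (Classical.choice ⟨j⟩)
  have ho : ∀ t j j', o t j = o t j' := fun t j j' => rfl
  have hcardG : (Fintype.card (∀ t, Perm (μ t)) : ℚ) ≠ 0 := by
    exact_mod_cast Fintype.card_ne_zero
  -- the sum as a sum over injective `K`
  have hsum : (c.sum fun f a => a • cl _ (push (f.comp h).hom z)) =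
      ∑ K : {K : ∀ t, μ t → ι t // ∀ t, Function.Injective (K t)},
        coefK c h K.1 • dcl z o K.1 := by
    have h1 : (c.sum fun f a => a • cl _ (push (f.comp h).hom z)) =
        ∑ K : ∀ t, μ t → ι t, coefK c h K • dcl z o K := by
      unfold coefK Finsupp.sum
      simp only [Finset.sum_smul]
      rw [Finset.sum_comm]
      apply Finset.sum_congr rfl
      intro f _
      rw [cl_push_scal hz (f.comp h) hcard o, Finset.smul_sum]
      apply Finset.sum_congr rfl
      intro K _
      rw [smul_smul]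
    rw [h1]
    symm
    refine Fintype.sum_of_injective (fun K : {K : ∀ t, μ t → ι t //
      ∀ t, Function.Injective (K t)} => K.1) Subtype.val_injective _ _ ?_ ?_
    · intro K hK
      rw [dcl_eq_zero hz hcard o K, smul_zero]
      intro h'
      exact hK ⟨⟨K, h'⟩, rfl⟩
    · intro K; rfl
  have key : (Fintype.card (∀ t, Perm (μ t)) : ℚ) •
      (c.sum fun f a => a • cl _ (push (f.comp h).hom z)) = 0 := by
    have h1 : (Fintype.card (∀ t, Perm (μ t)) : ℚ) •
        (c.sum fun f a => a • cl _ (push (f.comp h).hom z)) =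
        ∑ σ : ∀ t, Perm (μ t),
        ∑ K : {K : ∀ t, μ t → ι t // ∀ t, Function.Injective (K t)},
          coefK c h (fun t j => K.1 t (σ t j)) • dcl z o (fun t j => K.1 t (σ t j)) := by
      have h2 : ∀ σ : ∀ t, Perm (μ t),
          ∑ K : {K : ∀ t, μ t → ι t // ∀ t, Function.Injective (K t)},
          coefK c h (fun t j => K.1 t (σ t j)) • dcl z o (fun t j => K.1 t (σ t j)) =
          (c.sum fun f a => a • cl _ (push (f.comp h).hom z)) := by
        intro σ
        rw [hsum]
        let E : {K : ∀ t, μ t → ι t // ∀ t, Function.Injective (K t)} ≃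
            {K : ∀ t, μ t → ι t // ∀ t, Function.Injective (K t)} :=
          { toFun := fun K => ⟨fun t j => K.1 t (σ t j), fun t => (K.2 t).comp (σ t).injective⟩
            invFun := fun K => ⟨fun t j => K.1 t ((σ t)⁻¹ j),
              fun t => (K.2 t).comp (σ t)⁻¹.injective⟩
            left_inv := fun K => by
              apply Subtype.ext
              funext t j
              simp
            right_inv := fun K => by
              apply Subtype.ext
              funext t j
              simp }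
        exact Equiv.sum_comp E (fun K => coefK c h K.1 • dcl z o K.1)
      rw [Finset.sum_congr rfl fun σ _ => h2 σ, Finset.sum_const, Finset.card_univ,
        ← Nat.cast_smul_eq_nsmul ℚ]
    rw [h1, Finset.sum_comm]
    apply Finset.sum_eq_zero
    intro K _
    have hcore : ∀ v : Pt (prodX C ι), ∑ σ : ∀ t, Perm (μ t),
        coefK c h (fun t j => K.1 t (σ t j)) • diffCl (C := C) (ι := μ)
          (fun t j => v ≫ projX C ι t (K.1 t (σ t j))) (fun t j => o t (K.1 t (σ t j))) = 0 := by
      intro v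
      exact core_vanishing (ι := μ) hg (fun t j => v ≫ projX C ι t (K.1 t j))
        (fun t j => o t (K.1 t j)) (fun t j j' => ho t (K.1 t j) (K.1 t j'))
        (fun σ => coefK c h (fun t j => K.1 t (σ t j)))
        (fun w w' => forms_hyp hg hc h hcard K.1 K.2 w w')
    have h2 : ∑ σ : ∀ t, Perm (μ t),
          coefK c h (fun t j => K.1 t (σ t j)) • dcl z o (fun t j => K.1 t (σ t j)) =
        z.sum fun v a => a • ∑ σ : ∀ t, Perm (μ t),
        coefK c h (fun t j => K.1 t (σ t j)) • diffCl (C := C) (ι := μ)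
          (fun t j => v ≫ projX C ι t (K.1 t (σ t j))) (fun t j => o t (K.1 t (σ t j))) := by
      unfold dcl
      simp only [Finsupp.sum, Finset.smul_sum]
      rw [Finset.sum_comm]
      apply Finset.sum_congr rfl
      intro v _
      apply Finset.sum_congr rfl
      intro σ _
      rw [smul_comm]
    rw [h2]
    apply Finset.sum_eq_zero
    intro v _
    beta_reduce
    rw [hcore v, smul_zero]
  have := smul_eq_zero.1 key
  rcases this with h1 | h1
  · exact absurd h1 hcardG
  · exact h1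

lemma pushCH_cl {X Y : Sch k} (f : X ⟶ Y) (z : Pt X →₀ ℚ) :
    pushCH f (cl X z) = cl Y (push f z) := rfl

lemma mem_filCH_cl {i : ℕ} {z : Pt (prodX C ι) →₀ ℚ} :
    cl _ z ∈ filCH C ι i ↔ InFil C ι i z := by
  constructor
  · intro h m hm f
    have := h m hm f
    rw [pushCH_cl, cl_eq_zero] at this
    exact this
  · intro h m hm f
    rw [pushCH_cl, cl_eq_zero]
    exact h m hm f

lemma corr_cl (c : ScalarMor C ι κ →₀ ℚ) (z : Pt (prodX C ι) →₀ ℚ) :
    corr c (cl _ z) = c.sum fun f a => a • cl _ (push f.hom z) := by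
  unfold corr
  rw [Finsupp.sum, LinearMap.sum_apply]
  rfl

lemma pushCH_comp {X Y Z : Sch k} (f : X ⟶ Y) (g : Y ⟶ Z) (z : CH0 X) :
    pushCH g (pushCH f z) = pushCH (f ≫ g) z := by
  obtain ⟨z, rfl⟩ := Submodule.Quotient.mk_surjective _ z
  change pushCH g (pushCH f (cl X z)) = pushCH (f ≫ g) (cl X z)
  rw [pushCH_cl, pushCH_cl, pushCH_cl, push_push]

/-- Functoriality of the filtration. -/
theorem corr_mem_filCH (c : ScalarMor C ι κ →₀ ℚ) (i : ℕ) (z : CH0 (prodX C ι))
    (hz : z ∈ filCH C ι i) : corr c z ∈ filCH C κ i := by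
  intro m hm h
  unfold corr
  rw [Finsupp.sum, LinearMap.sum_apply, map_sum]
  apply Finset.sum_eq_zero
  intro f _
  rw [LinearMap.smul_apply, map_smul, pushCH_comp, ← ScalarMor.comp_hom, hz m hm (f.comp h),
    smul_zero]

/-- The filtration is decreasing. -/
theorem filCH_anti {i j : ℕ} (hij : i ≤ j) : filCH C ι j ≤ filCH C ι i :=
  fun _ hz m hm f => hz m (lt_of_lt_of_le hm hij) f

/-- The first step of the filtration. -/
theorem filCH_zero : filCH C ι 0 = ⊤ := by
  rw [eq_top_iff]
  intro z _ m hm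
  exact absurd hm (Nat.not_lt_zero _)

/-- The last step of the filtration vanishes. -/
theorem filCH_last (z : CH0 (prodX C ι)) (i : ℕ) (hi : ∑ t, Fintype.card (ι t) < i)
    (hz : z ∈ filCH C ι i) : z = 0 := by
  obtain ⟨z, rfl⟩ := Submodule.Quotient.mk_surjective _ z
  change cl _ z = 0
  change cl _ z ∈ _ at hz
  rw [mem_filCH_cl] at hz
  rw [cl_eq_zero]
  have hF : (coordMor (C := C) fun t (j : ι t) => Sum.inl j).hom = 𝟙 _ := by
    apply hom_extX
    intro t j
    rw [coordMor_proj]
    simp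
  have h1 := push_mem_of_few hz (fun t (j : ι t) => Sum.inl j) (fun t => univ)
    (fun t j a _ => mem_univ _) (by simpa using hi)
  rw [hF] at h1
  have h2 : push (𝟙 (prodX C ι)) z = z := by
    unfold push
    simp only [Category.comp_id]
    exact Finsupp.mapDomain_id
  rwa [h2] at h1

/-- **The generalized Bloch conjecture for scalar morphisms.** -/
theorem corr_mem_filCH_succ [∀ t, IsCurve (C t)] {g : T → ℕ} (hg : ∀ t, genus (C t) = g t)
    (c : ScalarMor C ι κ →₀ ℚ) (i : ℕ) (hc : ZeroOnForms c g i) (z : CH0 (prodX C ι))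
    (hz : z ∈ filCH C ι i) : corr c z ∈ filCH C κ (i + 1) := by
  intro m hm h
  rcases Nat.lt_succ_iff_lt_or_eq.1 hm with hlt | heq
  · exact corr_mem_filCH c i z hz m hlt h
  · obtain ⟨z, rfl⟩ := Submodule.Quotient.mk_surjective _ z
    change pushCH _ (corr c (cl _ z)) = 0
    change cl _ z ∈ _ at hz
    rw [mem_filCH_cl] at hz
    have h1 := main_claim hg hc hz h (by simpa using heq)
    rw [corr_cl, Finsupp.sum, map_sum, ← h1]
    apply Finset.sum_congr rfl
    intro f _
    beta_reduce
    rw [map_smul, pushCH_cl, push_push, ScalarMor.comp_hom]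

end Q58.Chow
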