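import Mathlib
import Pool.Agent.Q58.Scal.Bloch
import Pool.Agent.Q58.Scal.BBDefs

/-!
# Existence and uniqueness of the Bloch-Beilinson filtration on zero-cycles of products of curves
-/

set_option linter.unusedSectionVars false

namespace Q58.Chow

open AlgebraicGeometry CategoryTheory Limits Finset Equiv

universe u

variable {k : Type u} [Field k] {T : Type} [Fintype T] [DecidableEq T]
  {C : T → Sch k} {ι κ μ : T → Type} [∀ t, Fintype (ι t)] [∀ t, DecidableEq (ι t)]
  [∀ t, Fintype (κ t)] [∀ t, DecidableEq (κ t)] [∀ t, Fintype (μ t)] [∀ t, DecidableEq (μ t)]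

lemma corr_eq (c : ScalarMor C ι κ →₀ ℚ) :
    corr c = Finsupp.linearCombination ℚ (fun f : ScalarMor C ι κ => pushCH f.hom) c := rfl

lemma forms_eq (c : ScalarMor C ι κ →₀ ℚ) {g : T → ℕ} {i : ℕ}
    (u : Fin i → Σ t, κ t × Fin (g t)) (s : Fin i → Σ t, ι t × Fin (g t)) :
    (c.sum fun f x => x * Matrix.det (Matrix.of fun a b => f.entry (u a) (s b))) =
      Finsupp.linearCombination ℚ (fun f : ScalarMor C ι κ =>
        Matrix.det (Matrix.of fun a b => f.entry (u a) (s b))) c := rfl

/-- Keep the coordinates in `B` and replace the others by constants. -/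
noncomputable def keep (o : ∀ t, ι t → Pt (C t)) (B : Finset (Σ t, ι t)) : ScalarMor C ι ι :=
  coordMor fun t j => if (⟨t, j⟩ : Σ t, ι t) ∈ B then Sum.inl j else Sum.inr (o t j)

lemma keep_entry (o : ∀ t, ι t → Pt (C t)) (B : Finset (Σ t, ι t)) {g : T → ℕ}
    (u s : Σ t, ι t × Fin (g t)) :
    (keep o B).entry u s = if (⟨u.1, u.2.1⟩ : Σ t, ι t) ∈ B then (if s = u then 1 else 0) else 0 := by
  classical
  obtain ⟨t, j, b⟩ := u
  by_cases hs : s.1 = t
  · obtain ⟨t', l, b'⟩ := s
    change t' = t at hs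
    subst hs
    rw [entry_same]
    have h1 : ((⟨t', (l, b')⟩ : Σ t, ι t × Fin (g t)) = ⟨t', (j, b)⟩) ↔ (l = j ∧ b' = b) := by
      constructor
      · intro h
        have h2 : (l, b') = (j, b) := by simpa using h
        exact Prod.ext_iff.1 h2
      · rintro ⟨h2, h3⟩
        rw [h2, h3]
    by_cases hB : (⟨t', j⟩ : Σ t, ι t) ∈ B
    · simp only [keep, coordMor, if_pos hB, Sum.elim_inl, h1]
      by_cases h2 : l = j
      · subst h2
        by_cases h3 : b' = b
        · simp [h3]
        · simp [h3]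
      · have h3 : ¬ j = l := fun h => h2 h.symm
        simp [h2, h3]
    · simp only [keep, coordMor, if_neg hB, Sum.elim_inr, ite_self]
  · rw [entry_ne _ _ _ (fun h => hs h.symm)]
    rw [if_neg (fun h => hs (by rw [h]) : ¬ s = ⟨t, (j, b)⟩), ite_self]

/-- The determinant for `keep`. -/
lemma keep_det (o : ∀ t, ι t → Pt (C t)) (B : Finset (Σ t, ι t)) {g : T → ℕ} {i : ℕ}
    (u s : Fin i → Σ t, ι t × Fin (g t)) :
    Matrix.det (Matrix.of fun a b => (keep o B).entry (u a) (s b)) =
      if ∀ a, (⟨(u a).1, (u a).2.1⟩ : Σ t, ι t) ∈ B then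
        Matrix.det (Matrix.of fun a b => if s b = u a then (1 : ℚ) else 0) else 0 := by
  classical
  by_cases h : ∀ a, (⟨(u a).1, (u a).2.1⟩ : Σ t, ι t) ∈ B
  · rw [if_pos h]
    congr 1
    funext a b
    simp only [Matrix.of_apply]
    rw [keep_entry, if_pos (h a)]
  · rw [if_neg h]
    push Not at h
    obtain ⟨a, ha⟩ := h
    apply Matrix.det_eq_zero_of_row_eq_zero a
    intro b
    simp only [Matrix.of_apply]
    rw [keep_entry, if_neg ha]

/-- The correspondence `1 - ∑_{|B| = i} keep B`. -/
noncomputable def gam (o : ∀ t, ι t → Pt (C t)) (i : ℕ) : ScalarMor C ι ι →₀ ℚ :=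
  Finsupp.single (keep o univ) 1 - ∑ B ∈ powersetCard i univ, Finsupp.single (keep o B) 1

lemma gam_forms (o : ∀ t, ι t → Pt (C t)) (g : T → ℕ) (i : ℕ) :
    ZeroOnForms (gam (C := C) o i) g i := by
  classical
  intro u s hu _
  rw [forms_eq]
  unfold gam
  rw [map_sub, map_sum]
  simp only [Finsupp.linearCombination_single, one_smul, keep_det, mem_univ, implies_true,
    if_true]
  let S : Finset (Σ t, ι t) := univ.image fun a => (⟨(u a).1, (u a).2.1⟩ : Σ t, ι t)
  have hS : S.card = i := by
    rw [Finset.card_image_of_injective _ hu, card_univ, Fintype.card_fin]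
  have h1 : ∀ B ∈ powersetCard i (univ : Finset (Σ t, ι t)),
      (∀ a, (⟨(u a).1, (u a).2.1⟩ : Σ t, ι t) ∈ B) ↔ B = S := by
    intro B hB
    rw [mem_powersetCard] at hB
    constructor
    · intro h
      symm
      apply Finset.eq_of_subset_of_card_le
      · intro p hp
        obtain ⟨a, _, rfl⟩ := Finset.mem_image.1 hp
        exact h a
      · rw [hS, hB.2]
    · rintro rfl a
      exact Finset.mem_image_of_mem _ (mem_univ _)
  have h2 : ∀ B ∈ powersetCard i (univ : Finset (Σ t, ι t)),
      (if ∀ a, (⟨(u a).1, (u a).2.1⟩ : Σ t, ι t) ∈ B then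
        Matrix.det (Matrix.of fun a b => if s b = u a then (1 : ℚ) else 0) else 0) =
      if B = S then Matrix.det (Matrix.of fun a b => if s b = u a then (1 : ℚ) else 0)
        else 0 := by
    intro B hB
    by_cases h : B = S
    · rw [if_pos h, if_pos ((h1 B hB).2 h)]
    · rw [if_neg h, if_neg fun h' => h ((h1 B hB).1 h')]
  rw [Finset.sum_congr rfl h2, Finset.sum_ite_eq' _ S,
    if_pos (mem_powersetCard.2 ⟨Finset.subset_univ _, hS⟩), sub_self]

lemma keep_univ_hom (o : ∀ t, ι t → Pt (C t)) : (keep o univ).hom = 𝟙 (prodX C ι) := by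
  apply hom_extX
  intro t j
  unfold keep
  rw [coordMor_proj]
  simp

lemma keep_kill (o : ∀ t, ι t → Pt (C t)) {B : Finset (Σ t, ι t)} {i : ℕ} (hB : B.card < i)
    {z : CH0 (prodX C ι)} (hz : z ∈ filCH C ι i) : pushCH (keep o B).hom z = 0 := by
  classical
  obtain ⟨z, rfl⟩ := Submodule.Quotient.mk_surjective _ z
  change pushCH _ (cl _ z) = 0
  change cl _ z ∈ _ at hz
  rw [mem_filCH_cl] at hz
  rw [pushCH_cl, cl_eq_zero]
  refine push_mem_of_few hz _ (fun t => univ.filter fun j => (⟨t, j⟩ : Σ t, ι t) ∈ B) ?_ ?_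
  · intro t j a ha
    by_cases hj : (⟨t, j⟩ : Σ t, ι t) ∈ B
    · rw [if_pos hj] at ha
      rw [← Sum.inl_injective ha]
      simpa using hj
    · rw [if_neg hj] at ha
      exact absurd ha (by simp)
  · refine lt_of_eq_of_lt ?_ hB
    have h1 : B = univ.sigma fun t => univ.filter fun j => (⟨t, j⟩ : Σ t, ι t) ∈ B := by
      ext ⟨t, j⟩
      simp
    conv_rhs => rw [h1]
    rw [Finset.card_sigma]

lemma pushCH_id (z : CH0 (prodX C ι)) : pushCH (𝟙 (prodX C ι)) z = z := by
  obtain ⟨z, rfl⟩ := Submodule.Quotient.mk_surjective _ z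
  change pushCH _ (cl _ z) = cl _ z
  rw [pushCH_cl]
  congr 1
  unfold push
  simp only [Category.comp_id]
  exact Finsupp.mapDomain_id

lemma gam_corr (o : ∀ t, ι t → Pt (C t)) {i j : ℕ} (hij : i < j) {z : CH0 (prodX C ι)}
    (hz : z ∈ filCH C ι j) : corr (gam o i) z = z := by
  classical
  rw [corr_eq]
  unfold gam
  rw [map_sub, map_sum, LinearMap.sub_apply, LinearMap.sum_apply]
  simp only [Finsupp.linearCombination_single, one_smul]
  rw [keep_univ_hom, pushCH_id, Finset.sum_eq_zero, sub_zero]
  intro B hB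
  rw [mem_powersetCard] at hB
  exact keep_kill o (by rw [hB.2]; exact hij) hz

/-- **Existence and uniqueness of the Bloch-Beilinson filtration.** -/
theorem bb_existsUnique [∀ t, IsCurve (C t)] {g : T → ℕ} (hg : ∀ t, genus (C t) = g t) :
    IsBlochBeilinson C g (fun n i => filCH C (fun t => Fin (n t)) i) ∧
      ∀ G, IsBlochBeilinson C g G → ∀ n i, G n i = filCH C (fun t => Fin (n t)) i := by
  classical
  refine ⟨⟨fun n => filCH_zero, fun n i j hij => filCH_anti hij, fun n => ?_,
    fun n m c i z hz => corr_mem_filCH c i z hz,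
    fun n m c i hc z hz => corr_mem_filCH_succ hg c i hc z hz⟩, ?_⟩
  · rw [eq_bot_iff]
    intro z hz
    exact filCH_last z _ (by simp) hz
  · intro G hG n i
    apply le_antisymm
    · intro z hz m hm f
      have h1 := hG.map n m (Finsupp.single f 1) i z hz
      rw [corr_eq, Finsupp.linearCombination_single, one_smul] at h1
      have h2 := hG.anti m (Nat.succ_le_of_lt hm) h1
      change pushCH f.hom z ∈ G m (∑ t, m t + 1) at h2
      rw [hG.last m] at h2
      exact h2
    · intro z hz
      by_cases hne : Nonempty (Pt (powX C n))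
      swap
      · have hz0 : z = 0 := by
          obtain ⟨z, rfl⟩ := Submodule.Quotient.mk_surjective _ z
          have : z = 0 := by ext x; exact (hne ⟨x⟩).elim
          rw [this]
          rfl
        rw [hz0]
        exact Submodule.zero_mem _
      obtain ⟨x₀⟩ := hne
      have key : ∀ j, j ≤ i → z ∈ G n j := by
        intro j
        induction j with
        | zero => intro _; rw [hG.zero]; exact Submodule.mem_top
        | succ j ih =>
          intro hj
          have h1 := hG.forms n n
            (gam (C := C) (ι := fun t => Fin (n t)) (fun t l => x₀ ≫ projX C _ t l) j) j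
            (gam_forms _ g j) z (ih (by omega))
          rwa [gam_corr _ (Nat.lt_of_succ_le hj) hz] at h1
      exact key i le_rfl

end Q58.Chow
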