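import Mathlib
import Pool.Agent.Q58.Scal.BB

/-!
# Zero-cycles on quotients of products of curves
-/

set_option linter.unusedSectionVars false

namespace Q58.Chow

open AlgebraicGeometry CategoryTheory Limits Finset Equiv

universe u

variable {k : Type u} [Field k] {T : Type} [Fintype T] [DecidableEq T]
  {C : T → Sch k} {ι κ μ : T → Type} [∀ t, Fintype (ι t)] [∀ t, DecidableEq (ι t)]
  [∀ t, Fintype (κ t)] [∀ t, DecidableEq (κ t)] [∀ t, Fintype (μ t)] [∀ t, DecidableEq (μ t)]

/-- The push-forward of the action of a correspondence built from morphisms over `Y`. -/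
lemma push_corr {Y : Sch k} {π : prodX C ι ⟶ Y} {c : ScalarMor C ι ι →₀ ℚ}
    (hc : ∀ f ∈ c.support, f.hom ≫ π = π) (z : CH0 (prodX C ι)) :
    pushCH π (corr c z) = (c.sum fun _ a => a) • pushCH π z := by
  unfold corr
  rw [Finsupp.sum, LinearMap.sum_apply, map_sum, Finsupp.sum, Finset.sum_smul]
  apply Finset.sum_congr rfl
  intro f hf
  rw [LinearMap.smul_apply, map_smul, pushCH_comp, hc f hf]

/-- The deep classes die in the Chow group of the quotient. -/
theorem push_fil_eq_zero [∀ t, IsCurve (C t)] {g : T → ℕ} (hg : ∀ t, genus (C t) = g t)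
    {Y : Sch k} {π : prodX C ι ⟶ Y} {c : ScalarMor C ι ι →₀ ℚ}
    (hc : ∀ f ∈ c.support, f.hom ≫ π = π) (h1 : (c.sum fun _ a => a) ≠ 0) {r : ℕ}
    (h : ∀ i, r < i → ZeroOnForms c g i) {z : CH0 (prodX C ι)} (hz : z ∈ filCH C ι (r + 1)) :
    pushCH π z = 0 := by
  have key : ∀ (n : ℕ) (i : ℕ), r < i → ∑ t, Fintype.card (ι t) < i + n →
      ∀ z ∈ filCH C ι i, pushCH π z = 0 := by
    intro n
    induction n with
    | zero =>
      intro i _ hi z hz
      rw [filCH_last z i (by simpa using hi) hz, map_zero]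
    | succ n ih =>
      intro i hri hi z hz
      have h2 := ih (i + 1) (by omega) (by omega) (corr c z)
        (corr_mem_filCH_succ hg c i (h i hri) z hz)
      rw [push_corr hc] at h2
      exact (smul_eq_zero.1 h2).resolve_left h1
  exact key (∑ t, Fintype.card (ι t)) (r + 1) (Nat.lt_succ_self r) (by omega) z hz

/-- The successive parts of a cycle. -/
noncomputable def part (o : ∀ t, ι t → Pt (C t)) (y : Pt (prodX C ι) →₀ ℚ) :
    ℕ → (Pt (prodX C ι) →₀ ℚ)
  | 0 => y
  | i + 1 => part o y i - ∑ B ∈ powersetCard i univ, push (keep o B).hom (part o y i)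

lemma corr_gam (o : ∀ t, ι t → Pt (C t)) (i : ℕ) (y : Pt (prodX C ι) →₀ ℚ) :
    corr (gam o i) (cl _ y) = cl _ (y - ∑ B ∈ powersetCard i univ, push (keep o B).hom y) := by
  classical
  rw [corr_eq]
  unfold gam
  rw [map_sub, map_sum, LinearMap.sub_apply, LinearMap.sum_apply]
  simp only [Finsupp.linearCombination_single, one_smul]
  rw [keep_univ_hom, pushCH_id, map_sub, map_sum]
  rfl

lemma part_mem [∀ t, IsCurve (C t)] {g : T → ℕ} (hg : ∀ t, genus (C t) = g t)
    (o : ∀ t, ι t → Pt (C t)) (y : Pt (prodX C ι) →₀ ℚ) (i : ℕ) :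
    cl _ (part o y i) ∈ filCH C ι i := by
  classical
  induction i with
  | zero => rw [filCH_zero]; exact Submodule.mem_top
  | succ i ih =>
    have h1 := corr_mem_filCH_succ hg (gam o i) i (gam_forms o g i) _ ih
    rw [corr_gam] at h1
    exact h1

lemma push_deg {X Y : Sch k} (f : X ⟶ Y) (z : Pt X →₀ ℚ) :
    ((push f z).sum fun _ a => a) = z.sum fun _ a => a := by
  unfold push
  rw [Finsupp.sum_mapDomain_index]
  · intro b; rfl
  · intro b m n; rfl

/-- The degree as a linear map. -/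
noncomputable def degL (X : Sch k) : (Pt X →₀ ℚ) →ₗ[ℚ] ℚ :=
  Finsupp.linearCombination ℚ fun _ => (1 : ℚ)

lemma degL_apply {X : Sch k} (z : Pt X →₀ ℚ) : degL X z = z.sum fun _ a => a := by
  unfold degL
  rw [Finsupp.linearCombination_apply]
  simp

lemma degL_push {X Y : Sch k} (f : X ⟶ Y) (z : Pt X →₀ ℚ) : degL Y (push f z) = degL X z := by
  rw [degL_apply, degL_apply, push_deg]

lemma part_deg (o : ∀ t, ι t → Pt (C t)) (y : Pt (prodX C ι) →₀ ℚ) (i : ℕ) :
    degL _ (part o y (i + 1)) = 0 := by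
  induction i with
  | zero =>
    simp only [part, powersetCard_zero, sum_singleton]
    rw [map_sub, degL_push, sub_self]
  | succ i ih =>
    rw [part, map_sub, map_sum, ih]
    simp only [degL_push, ih, Finset.sum_const_zero, sub_zero]

/-- The combination of points on the coordinate subvarieties. -/
noncomputable def lowPart (o : ∀ t, ι t → Pt (C t)) (y : Pt (prodX C ι) →₀ ℚ) (r : ℕ) :
    Pt (prodX C ι) →₀ ℚ :=
  ∑ i ∈ range (r + 1), ∑ B ∈ powersetCard i univ, push (keep o B).hom (part o y i)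

lemma part_add_lowPart (o : ∀ t, ι t → Pt (C t)) (y : Pt (prodX C ι) →₀ ℚ) (r : ℕ) :
    y = lowPart o y r + part o y (r + 1) := by
  induction r with
  | zero =>
    simp [lowPart, part]
  | succ r ih =>
    have h1 : lowPart o y (r + 1) = lowPart o y r +
        ∑ B ∈ powersetCard (r + 1) univ, push (keep o B).hom (part o y (r + 1)) := by
      unfold lowPart
      rw [Finset.sum_range_succ]
    have h2 : part o y (r + 1 + 1) = part o y (r + 1) -
        ∑ B ∈ powersetCard (r + 1) univ, push (keep o B).hom (part o y (r + 1)) := rfl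
    rw [h1, h2, add_assoc, add_sub_cancel]
    exact ih

lemma lowPart_support (o : ∀ t, ι t → Pt (C t)) (y : Pt (prodX C ι) →₀ ℚ) (r : ℕ)
    (x : Pt (prodX C ι)) (hx : x ∈ (lowPart o y r).support) :
    ∃ B : Finset (Σ t, ι t), B.card ≤ r ∧
      ∀ t j, (⟨t, j⟩ : Σ t, ι t) ∉ B → x ≫ projX C ι t j = o t j := by
  classical
  have h1 := Finsupp.support_finsetSum hx
  obtain ⟨i, hi, hx1⟩ := Finset.mem_biUnion.1 h1
  have h2 := Finsupp.support_finsetSum hx1
  obtain ⟨B, hB, hx2⟩ := Finset.mem_biUnion.1 h2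
  have h3 := Finsupp.mapDomain_support hx2
  obtain ⟨x', _, rfl⟩ := Finset.mem_image.1 h3
  refine ⟨B, ?_, ?_⟩
  · rw [(mem_powersetCard.1 hB).2]
    have := mem_range.1 hi
    omega
  · intro t j hj
    rw [Category.assoc]
    unfold keep
    rw [coordMor_proj, if_neg hj, Sum.elim_inr, pt_comp_const]

/-- **Zero-cycles on quotients of products of curves.** -/
theorem quotient_support [∀ t, IsCurve (C t)] {g : T → ℕ} (hg : ∀ t, genus (C t) = g t)
    {Y : Sch k} {π : prodX C ι ⟶ Y} {c : ScalarMor C ι ι →₀ ℚ}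
    (hc : ∀ f ∈ c.support, f.hom ≫ π = π) (h1 : (c.sum fun _ a => a) ≠ 0) {r : ℕ}
    (h : ∀ i, r < i → ZeroOnForms c g i) (o : ∀ t, ι t → Pt (C t)) (v : Pt (prodX C ι)) :
    ∃ w : Pt (prodX C ι) →₀ ℚ, (w.sum fun _ a => a) = 1 ∧
      (∀ x ∈ w.support, ∃ B : Finset (Σ t, ι t), B.card ≤ r ∧
        ∀ t j, (⟨t, j⟩ : Σ t, ι t) ∉ B → x ≫ projX C ι t j = o t j) ∧
      Finsupp.single (v ≫ π) 1 - push π w ∈ ratTrivial Y := by
  refine ⟨lowPart o (Finsupp.single v 1) r, ?_, fun x hx => lowPart_support o _ r x hx, ?_⟩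
  · have h2 := congrArg (degL (prodX C ι)) (part_add_lowPart o (Finsupp.single v 1) r)
    rw [map_add, part_deg, add_zero, degL_apply, degL_apply] at h2
    rw [← h2]
    simp
  · have h2 := push_fil_eq_zero hg hc h1 h (part_mem hg o (Finsupp.single v 1) (r + 1))
    have h3 := part_add_lowPart o (Finsupp.single v 1) r
    rw [pushCH_cl, cl_eq_zero] at h2
    have h4 : Finsupp.single (v ≫ π) (1 : ℚ) - push π (lowPart o (Finsupp.single v 1) r) =
        push π (part o (Finsupp.single v 1) (r + 1)) := by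
      rw [← push_single π v]
      rw [← pushL_apply, ← pushL_apply, ← pushL_apply, ← map_sub]
      congr 1
      rw [sub_eq_iff_eq_add']
      exact h3
    rw [h4]
    exact h2

end Q58.Chow
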