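import Mathlib
import Pool.Agent.Q58.Scal.BB

/-!
# The first two steps of the filtration
-/

set_option linter.unusedSectionVars false

namespace Q58.Chow

open AlgebraicGeometry CategoryTheory Limits Finset Equiv

universe u

variable {k : Type u} [Field k] {T : Type} [Fintype T] [DecidableEq T]
  {C : T → Sch k} {ι κ μ : T → Type} [∀ t, Fintype (ι t)] [∀ t, DecidableEq (ι t)]
  [∀ t, Fintype (κ t)] [∀ t, DecidableEq (κ t)] [∀ t, Fintype (μ t)] [∀ t, DecidableEq (μ t)]

/-- The first step consists of the classes with trivial push-forward to a point. -/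
theorem mem_filCH_one (z : CH0 (prodX C ι)) :
    z ∈ filCH C ι 1 ↔ pushCH (toBase (prodX C ι)) z = 0 := by
  constructor
  · intro hz
    have h1 := hz (fun _ => 0) (by simp) (coordMor fun t (j : Fin 0) => j.elim0)
    have h2 : (coordMor (C := C) (ι := ι) (κ := fun _ => Fin 0) fun t (j : Fin 0) =>
        (j.elim0 : ι t ⊕ Pt (C t))).hom ≫ toBase _ = toBase (prodX C ι) := toBase_comp _
    rw [← h2, ← pushCH_comp, h1, map_zero]
  · intro hz m hm f
    have hm0 : ∀ t, m t = 0 := by
      intro t
      have := Finset.single_le_sum (f := m) (fun i _ => Nat.zero_le _) (mem_univ t)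
      omega
    let p : Pt (prodX C fun t => Fin (m t)) := liftX fun t j => (Fin.cast (hm0 t) j).elim0
    have h1 : f.hom = toBase (prodX C ι) ≫ p := by
      apply hom_extX
      intro t j
      exact (Fin.cast (hm0 t) j).elim0
    rw [h1, ← pushCH_comp, hz, map_zero]

/-- The image of a deep cycle under a coordinate morphism. -/
lemma cl_push_coord {i : ℕ} {z : Pt (prodX C ι) →₀ ℚ} (hz : InFil C ι i z)
    (hcard : ∑ t, Fintype.card (κ t) = i) (o : ∀ t, ι t → Pt (C t)) (K : ∀ t, κ t → ι t) :
    cl _ (push (coordMor (C := C) fun t j => Sum.inl (K t j)).hom z) = dcl z o K := by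
  classical
  have h1 := cl_push_scal hz (coordMor (C := C) fun t j => Sum.inl (K t j)) hcard o
  have h2 : ∀ K' : ∀ t, κ t → ι t, (∏ t, ∏ j,
      (coordMor (C := C) fun t j => (Sum.inl (K t j) : ι t ⊕ Pt (C t))).mat t j (K' t j)) =
      if K' = K then 1 else 0 := by
    intro K'
    by_cases h : K' = K
    · subst h
      rw [if_pos rfl]
      apply Finset.prod_eq_one
      intro t _
      apply Finset.prod_eq_one
      intro j _
      simp [coordMor]
    · rw [if_neg h]
      obtain ⟨t, ht⟩ := Function.ne_iff.1 h
      obtain ⟨j, hj⟩ := Function.ne_iff.1 ht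
      apply Finset.prod_eq_zero (mem_univ t)
      apply Finset.prod_eq_zero (mem_univ j)
      simp only [coordMor, Sum.elim_inl]
      rw [if_neg (Ne.symm hj)]
  simp only [h2, ite_smul, one_smul, zero_smul, Finset.sum_ite_eq', mem_univ, if_true] at h1
  exact h1

/-- The second step consists of the classes with trivial push-forward to a point and to the
curves, that is of the classes in the kernel of the Albanese map. -/
theorem mem_filCH_two (z : CH0 (prodX C ι)) :
    z ∈ filCH C ι 2 ↔ pushCH (toBase (prodX C ι)) z = 0 ∧
      ∀ t j, pushCH (projX C ι t j) z = 0 := by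
  classical
  constructor
  · intro hz
    refine ⟨(mem_filCH_one z).1 (filCH_anti (by norm_num) hz), ?_⟩
    intro t j
    let m : T → ℕ := fun s => if s = t then 1 else 0
    let f : ScalarMor C ι (fun s => Fin (m s)) := coordMor fun s a =>
      if h : s = t then Sum.inl (h ▸ j) else (Fin.cast (if_neg h) a).elim0
    have h1 := hz m (by simp [m]) f
    have hmt : m t = 1 := if_pos rfl
    have h2 : f.hom ≫ projX C (fun s => Fin (m s)) t (Fin.cast hmt.symm 0) =
        projX C ι t j := by
      rw [coordMor_proj]
      simp
    rw [← h2, ← pushCH_comp, h1, map_zero]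
  · rintro ⟨hz1, hz2⟩ m hm f
    have hF1 := (mem_filCH_one z).2 hz1
    rcases Nat.lt_succ_iff_lt_or_eq.1 hm with hlt | heq
    · exact hF1 m hlt f
    obtain ⟨z, rfl⟩ := Submodule.Quotient.mk_surjective _ z
    change cl _ z ∈ _ at hF1
    change ∀ t j, pushCH (projX C ι t j) (cl _ z) = 0 at hz2
    change pushCH f.hom (cl _ z) = 0
    rw [mem_filCH_cl] at hF1
    by_cases hne : Nonempty (Pt (prodX C ι))
    swap
    · have hz0 : z = 0 := by ext x; exact (hne ⟨x⟩).elim
      rw [hz0, map_zero, map_zero]
    obtain ⟨x₀⟩ := hne
    have hcard : ∑ t, Fintype.card (Fin (m t)) = 1 := by simpa using heq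
    rw [pushCH_cl, cl_push_scal hF1 f hcard fun t j => x₀ ≫ projX C ι t j]
    apply Finset.sum_eq_zero
    intro K _
    rw [← cl_push_coord hF1 hcard, ← pushCH_cl]
    -- there is exactly one coordinate
    have ht₀ : ∃ t₀, m t₀ ≠ 0 := by
      by_contra h
      push Not at h
      simp [h] at heq
    obtain ⟨t₀, ht₀⟩ := ht₀
    have h3 : m t₀ ≤ 1 := by
      rw [← heq]
      exact Finset.single_le_sum (f := m) (fun i _ => Nat.zero_le _) (mem_univ t₀)
    have h4 : m t₀ = 1 := by omega
    have h5 : ∀ t, t ≠ t₀ → m t = 0 := by
      intro t ht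
      have h6 := Finset.add_sum_erase univ m (mem_univ t₀)
      have h7 := Finset.single_le_sum (s := univ.erase t₀) (f := m)
        (fun i _ => Nat.zero_le _) (Finset.mem_erase.2 ⟨ht, mem_univ t⟩)
      omega
    have h8 : ∀ t (j : Fin (m t)), t₀ = t := by
      intro t j
      by_contra h
      exact (Fin.cast (h5 t (Ne.symm h)) j).elim0
    let j₀ : Fin (m t₀) := Fin.cast h4.symm 0
    let q : C t₀ ⟶ prodX C (fun t => Fin (m t)) := liftX fun t j =>
      eqToHom (congrArg C (h8 t j))
    have h9 : (coordMor (C := C) fun t (j : Fin (m t)) => Sum.inl (K t j)).hom =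
        projX C ι t₀ (K t₀ j₀) ≫ q := by
      apply hom_extX
      intro t j
      rw [coordMor_proj, Sum.elim_inl, Category.assoc, liftX_proj]
      have ht := h8 t j
      subst ht
      have hj : j = j₀ := by
        apply Fin.ext
        have h10 := j.isLt
        have h11 := j₀.isLt
        omega
      rw [hj, eqToHom_refl, Category.comp_id]
    rw [h9, ← pushCH_comp, hz2, map_zero, smul_zero]

/-- The filtrations of the Chow groups of zero-cycles of all products of the given curves by the
classes that are killed by all scalar morphisms to products of less than `i` of the curves. -/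
noncomputable def stdFil (C : T → Sch k) : Filtrations C := fun n i => filCH C (fun t => Fin (n t)) i

/-- The class has trivial push-forward to `Spec k`, that is, degree zero. -/
def DegreeZero {X : Sch k} (z : CH0 X) : Prop := pushCH (toBase X) z = 0

/-- The class has degree zero and trivial push-forwards to all the curves, that is, it lies in the
kernel of the Albanese map of `∏_t C_t^{n_t}`, whose Albanese variety is `∏_t J(C_t)^{n_t}`. -/
def AlbaneseTrivial {n : T → ℕ} (z : CH0 (powX C n)) : Prop :=
  DegreeZero z ∧ ∀ t j, pushCH (projX C (fun t => Fin (n t)) t j) z = 0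

end Q58.Chow
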