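import Mathlib
import Pool.Agent.Q58.Scal.Quot
import Pool.Agent.Q58.Scal.Steps

/-!
# Correspondences between quotients of products of curves
-/

set_option linter.unusedSectionVars false

namespace Q58.Chow

open AlgebraicGeometry CategoryTheory Limits Finset Equiv

universe u

variable {k : Type u} [Field k] {T : Type} [Fintype T] [DecidableEq T]
  {C : T → Sch k}

/-- The composition of two correspondences: first `e`, then `c`. -/
noncomputable def compCorr {n m l : T → ℕ} (e : PowMor C n m →₀ ℚ) (c : PowMor C m l →₀ ℚ) :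
    PowMor C n l →₀ ℚ :=
  e.sum fun f a => c.sum fun h b => Finsupp.single (f.comp h) (a * b)

lemma corr_compCorr {n m l : T → ℕ} (e : PowMor C n m →₀ ℚ) (c : PowMor C m l →₀ ℚ)
    (z : CH0 (powX C n)) : corr (compCorr e c) z = corr c (corr e z) := by
  rw [corr_eq]
  unfold compCorr corr
  simp only [Finsupp.sum, map_sum, LinearMap.sum_apply, Finsupp.linearCombination_single,
    LinearMap.smul_apply, map_smul]
  apply Finset.sum_congr rfl
  intro f _
  rw [Finset.smul_sum]
  apply Finset.sum_congr rfl
  intro h _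
  rw [ScalarMor.comp_hom, ← pushCH_comp, smul_smul]

/-- `e` is a combination, with nonzero sum of coefficients, of endomorphisms over `S`; for instance
the sum of the elements of a finite group `G` of automorphisms and `S` the quotient by `G`. -/
def Averages {n : T → ℕ} {S : Sch k} (e : PowMor C n n →₀ ℚ) (π : powX C n ⟶ S) : Prop :=
  (∀ f ∈ e.support, f.hom ≫ π = π) ∧ (e.sum fun _ a => a) ≠ 0

/-- **Correspondences between quotients of products of curves.** -/
theorem quot_corr [∀ t, IsCurve (C t)] {g : T → ℕ} (hg : ∀ t, genus (C t) = g t)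
    {n n' : T → ℕ} {S' : Sch k} {π' : powX C n' ⟶ S'} (e : PowMor C n n →₀ ℚ)
    {e' : PowMor C n' n' →₀ ℚ} (he' : Averages e' π') (c : PowMor C n n' →₀ ℚ) (i : ℕ)
    (h : ZeroOnForms (compCorr (compCorr e c) e') g i) (z : CH0 (powX C n))
    (hz : z ∈ stdFil C n i) :
    ∃ w ∈ stdFil C n' (i + 1), pushCH π' (corr c (corr e z)) = pushCH π' w := by
  have h1 := corr_mem_filCH_succ hg _ i h z hz
  refine ⟨(e'.sum fun _ a => a)⁻¹ • corr (compCorr (compCorr e c) e') z,
    Submodule.smul_mem _ _ h1, ?_⟩
  rw [map_smul, corr_compCorr, corr_compCorr, push_corr he'.1, smul_smul,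
    inv_mul_cancel₀ he'.2, one_smul]

end Q58.Chow
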