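import Mathlib
import Pool.Agent.Q58.Scal.AnyDefs
import Pool.Agent.Q58.Scal.Comp

/-!
# The generalized Bloch conjecture for quotients of products of curves: the statement
-/

namespace Q58.Chow

open AlgebraicGeometry CategoryTheory Limits Finset Equiv

universe u

variable {k : Type u} [Field k] {T : Type} [Fintype T] [DecidableEq T]

/-- The steps `F^i` on `S` are the images of the groups of the classes on the product of curves
which are killed by all scalar morphisms to products of less than `i` of the curves. -/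
def StepsAreImages (C : T → Sch k) {n : T → ℕ} {S : Sch k} (π : powX C n ⟶ S)
    (F : FilAll k) : Prop :=
  ∀ i : ℕ, PushMaps π (stdFil C n i) (F S i) ∧ PushOnto π (stdFil C n i) (F S i)

/-- The action on zero-cycles of the correspondence `(π × π')_* c` from `S` to `S'`, preceded by the
push-forward to `S`, where `e` is the correspondence `π^* π_*` (the sum of the elements of `G` for
a quotient by `G`). -/
noncomputable def quotAct {n n' : T → ℕ} {C : T → Sch k} {S' : Sch k} (π' : powX C n' ⟶ S')
    (e : PowMor C n n →₀ ℚ) (c : PowMor C n n' →₀ ℚ) : CH0 (powX C n) →ₗ[ℚ] CH0 S' :=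
  pushCH π' ∘ₗ corr c ∘ₗ corr e

/-- The linear map `Z` is the action of the correspondence `(π × π')_* c`. -/
def ActsThrough {n n' : T → ℕ} {C : T → Sch k} {S S' : Sch k} (π : powX C n ⟶ S)
    (π' : powX C n' ⟶ S') (e : PowMor C n n →₀ ℚ) (c : PowMor C n n' →₀ ℚ)
    (Z : CH0 S →ₗ[ℚ] CH0 S') : Prop :=
  Z ∘ₗ pushCH π = quotAct π' e c

/-- The linear map `Z` maps the subspace `A` into the subspace `B`. -/
def LinMaps {S S' : Sch k} (Z : CH0 S →ₗ[ℚ] CH0 S') (A : Submodule ℚ (CH0 S))
    (B : Submodule ℚ (CH0 S')) : Prop := ∀ w ∈ A, Z w ∈ B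

/-- The generalized Bloch conjecture for the correspondences `(π × π')_* c` from `S` to `S'`, `c` a
linear combination of graphs of scalar morphisms: if `(π × π')_* c` acts as zero on holomorphic
`i`-forms (if `e' ∘ c ∘ e` does) then it maps `F^i CH_0(S)` to `F^{i+1} CH_0(S')`. -/
def GeneralizedBloch (C : T → Sch k) (g : T → ℕ) {n n' : T → ℕ} {S S' : Sch k}
    (π : powX C n ⟶ S) (π' : powX C n' ⟶ S') (F : FilAll k) : Prop :=
  ∀ (e : PowMor C n n →₀ ℚ) (e' : PowMor C n' n' →₀ ℚ) (c : PowMor C n n' →₀ ℚ)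
    (Z : CH0 S →ₗ[ℚ] CH0 S'), Averages e' π' → ActsThrough π π' e c Z →
    ∀ i : ℕ, ZeroOnForms (compCorr (compCorr e c) e') g i → LinMaps Z (F S i) (F S' (i + 1))

end Q58.Chow
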