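import Mathlib
import Pool.Agent.Q58.Scal.Comp

/-!
# Chow-Künneth decompositions by scalar correspondences and zero-cycles
-/

set_option linter.unusedSectionVars false

namespace Q58.Chow

open AlgebraicGeometry CategoryTheory Limits Finset Equiv

universe u

variable {k : Type u} [Field k] {T : Type} [Fintype T] [DecidableEq T]
  {C : T → Sch k}

/-- The correspondence `c` acts on zero-cycles as an idempotent. -/
def Idem {n : T → ℕ} (c : PowMor C n n →₀ ℚ) : Prop :=
  ∀ z, corr c (corr c z) = corr c z

/-- The action on zero-cycles of the sum of the correspondences `p j`, `j ∈ S`. -/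
noncomputable def sumCorr {n : T → ℕ} (p : ℕ → (PowMor C n n →₀ ℚ)) (S : Finset ℕ) :
    CH0 (powX C n) →ₗ[ℚ] CH0 (powX C n) :=
  ∑ j ∈ S, corr (p j)

/-- A Chow-Künneth decomposition `π^0, ..., π^{2d}` of the product `X = C^n` of `d` curves by
linear combinations of graphs of scalar endomorphisms, as far as zero-cycles and holomorphic forms
are concerned: the `π^j` act on `CH_0(X)` as idempotents with sum one; and `π^j` acts on
`H^{i,0}(X)` as zero if `i + j ≠ 2 d` (and so as the identity if `i + j = 2 d`, as the sum is the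
identity).  This is the condition that `(π^j)_*` is the identity on `H^j` and zero on the other
cohomology groups, restricted to the part dual to the holomorphic forms. -/
structure IsDecomposition {n : T → ℕ} (g : T → ℕ) (d : ℕ) (p : ℕ → (PowMor C n n →₀ ℚ)) :
    Prop where
  /-- the dimension -/
  dim : ∑ t, n t = d
  /-- idempotence on zero-cycles -/
  idem : ∀ j ≤ 2 * d, Idem (p j)
  /-- the sum is the identity on zero-cycles -/
  sum : sumCorr p (range (2 * d + 1)) = LinearMap.id
  /-- the action on forms -/
  zero : ∀ i ≤ d, ∀ j ≤ 2 * d, i + j ≠ 2 * d → ZeroOnForms (p j) g i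

/-- The numbers `0, ..., 2 d - ν` (none if `ν > 2 d`). -/
def lowIndices (d ν : ℕ) : Finset ℕ := (range (2 * d + 1)).filter fun j => j + ν ≤ 2 * d

/-- The step `F^ν CH_0(X)` of the filtration induced by a decomposition, the image of
`π^{2d-ν} + ... + π^0`. -/
noncomputable def murreFil {n : T → ℕ} (d : ℕ) (p : ℕ → (PowMor C n n →₀ ℚ)) (ν : ℕ) :
    Submodule ℚ (CH0 (powX C n)) :=
  LinearMap.range (sumCorr p (lowIndices d ν))

/-- There is a decomposition of `C^n`. -/
def HasDecomposition (C : T → Sch k) (g : T → ℕ) (n : T → ℕ) (d : ℕ) : Prop :=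
  ∃ p : ℕ → (PowMor C n n →₀ ℚ), IsDecomposition g d p

/-- All decompositions of `C^n` induce the filtration `F` of `CH_0(C^n)`. -/
def AllInduce (g : T → ℕ) {n : T → ℕ} (d : ℕ) (F : ℕ → Submodule ℚ (CH0 (powX C n))) : Prop :=
  ∀ p : ℕ → (PowMor C n n →₀ ℚ), IsDecomposition g d p → ∀ ν, murreFil d p ν = F ν

/-- The filtration `F` of `CH_0(C^n)` starts with everything, the classes of degree zero and the
kernel of the Albanese map, and ends with `F^{d+1} = 0`. -/
structure HasMurreSteps {n : T → ℕ} (d : ℕ) (F : ℕ → Submodule ℚ (CH0 (powX C n))) : Prop where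
  /-- `F^0` is everything -/
  zero : F 0 = ⊤
  /-- `F^1` consists of the classes of degree zero -/
  one : ∀ z, z ∈ F 1 ↔ DegreeZero z
  /-- `F^2` is the kernel of the Albanese map -/
  two : ∀ z, z ∈ F 2 ↔ AlbaneseTrivial z
  /-- `F^{d+1}` is zero -/
  last : F (d + 1) = ⊥

lemma fil_large {n : T → ℕ} {d : ℕ} (hd : ∑ t, n t = d) {i : ℕ} (hi : d < i)
    {z : CH0 (powX C n)} (hz : z ∈ stdFil C n i) : z = 0 :=
  filCH_last z i (by simpa [hd] using hi) hz

/-- An idempotent that acts as zero on the forms of all degrees `≥ ν` kills `F^ν`. -/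
lemma idem_kill [∀ t, IsCurve (C t)] {g : T → ℕ} (hg : ∀ t, genus (C t) = g t) {n : T → ℕ}
    {d : ℕ} (hd : ∑ t, n t = d) {c : PowMor C n n →₀ ℚ}
    (hc : ∀ z, corr c (corr c z) = corr c z) {ν : ℕ}
    (h : ∀ i, ν ≤ i → i ≤ d → ZeroOnForms c g i) {z : CH0 (powX C n)} (hz : z ∈ stdFil C n ν) :
    corr c z = 0 := by
  have key : ∀ m : ℕ, ∀ i, ν ≤ i → d + 1 ≤ i + m → ∀ z ∈ stdFil C n i, corr c z = 0 := by
    intro m
    induction m with
    | zero =>
      intro i _ hi z hz
      rw [fil_large hd (by omega) hz, map_zero]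
    | succ m ih =>
      intro i hνi hi z hz
      by_cases hid : i ≤ d
      · have h1 := corr_mem_filCH_succ hg c i (h i hνi hid) z hz
        have h2 := ih (i + 1) (by omega) (by omega) _ h1
        rwa [hc] at h2
      · rw [fil_large hd (by omega) hz, map_zero]
  exact key (d + 1) ν le_rfl (by omega) z hz

/-- An idempotent that acts as zero on the forms of all degrees `< ν` has image in `F^ν`. -/
lemma idem_range [∀ t, IsCurve (C t)] {g : T → ℕ} (hg : ∀ t, genus (C t) = g t) {n : T → ℕ}
    {c : PowMor C n n →₀ ℚ} (hc : ∀ z, corr c (corr c z) = corr c z) {ν : ℕ}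
    (h : ∀ i, i < ν → ZeroOnForms c g i) (z : CH0 (powX C n)) : corr c z ∈ stdFil C n ν := by
  have key : ∀ i, i ≤ ν → corr c z ∈ stdFil C n i := by
    intro i
    induction i with
    | zero => intro _; change _ ∈ filCH _ _ 0; rw [filCH_zero]; exact Submodule.mem_top
    | succ i ih =>
      intro hi
      have h1 := corr_mem_filCH_succ hg c i (h i hi) _ (ih (by omega))
      rwa [hc] at h1
  exact key ν le_rfl

/-- **Independence of the filtration on zero-cycles from the decomposition.** -/
theorem murreFil_eq [∀ t, IsCurve (C t)] {g : T → ℕ} (hg : ∀ t, genus (C t) = g t) {n : T → ℕ}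
    {d : ℕ} {p : ℕ → (PowMor C n n →₀ ℚ)} (hp : IsDecomposition g d p) (ν : ℕ) :
    murreFil d p ν = stdFil C n ν := by
  apply le_antisymm
  · rintro _ ⟨z, rfl⟩
    unfold sumCorr
    rw [LinearMap.sum_apply]
    apply Submodule.sum_mem
    intro j hj
    unfold lowIndices at hj
    rw [mem_filter, mem_range] at hj
    apply idem_range hg (hp.idem j (by omega))
    intro i hi
    by_cases hid : i ≤ d
    · exact hp.zero i hid j (by omega) (by omega)
    · intro u s hu _
      exfalso
      have h1 := Fintype.card_le_of_injective _ hu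
      rw [Fintype.card_fin, Fintype.card_sigma] at h1
      change i ≤ ∑ t, Fintype.card (Fin (n t)) at h1
      have h2 : ∑ t, Fintype.card (Fin (n t)) = d := by simpa using hp.dim
      omega
  · intro z hz
    refine ⟨z, ?_⟩
    have hsum : ∑ j ∈ range (2 * d + 1), corr (p j) z = z := by
      have h1 := LinearMap.congr_fun hp.sum z
      unfold sumCorr at h1
      rwa [LinearMap.sum_apply] at h1
    unfold sumCorr lowIndices
    rw [LinearMap.sum_apply]
    conv_rhs => rw [← hsum]
    apply Finset.sum_subset (Finset.filter_subset _ _)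
    intro j hj hj'
    rw [mem_range] at hj
    rw [mem_filter, mem_range, not_and] at hj'
    have h1 := hj' hj
    apply idem_kill hg hp.dim (hp.idem j (by omega)) _ hz
    intro i hνi hid
    exact hp.zero i hid j (by omega) (by omega)

end Q58.Chow
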