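import Mathlib
import Pool.Agent.Q58.Scal.Murre

/-!
# The standard decomposition
-/

set_option linter.unusedSectionVars false

namespace Q58.Chow

open AlgebraicGeometry CategoryTheory Limits Finset Equiv

universe u

section

variable {α : Type*} [DecidableEq α] {M : Type*} [AddCommGroup M] [Module ℚ M]

/-- The alternating sum over subsets. -/
noncomputable def moe (φ : Finset α → M) (B : Finset α) : M :=
  ∑ A ∈ B.powerset, (-1 : ℚ) ^ (B \ A).card • φ A

lemma moe_insert (φ : Finset α → M) {B : Finset α} {p : α} (hp : p ∉ B) :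
    moe φ (insert p B) = moe (fun A => φ (insert p A)) B - moe φ B := by
  unfold moe
  rw [Finset.sum_powerset_insert hp]
  have h1 : ∀ A ∈ B.powerset, (-1 : ℚ) ^ (insert p B \ A).card • φ A =
      -((-1 : ℚ) ^ (B \ A).card • φ A) := by
    intro A hA
    have hpA : p ∉ A := fun h => hp (Finset.mem_powerset.1 hA h)
    rw [Finset.insert_sdiff_of_notMem _ hpA, Finset.card_insert_of_notMem
      (fun h => hp (Finset.mem_sdiff.1 h).1), pow_succ, mul_neg_one, neg_smul]
  have h2 : ∀ A ∈ B.powerset, (-1 : ℚ) ^ (insert p B \ insert p A).card • φ (insert p A) =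
      (-1 : ℚ) ^ (B \ A).card • φ (insert p A) := by
    intro A _
    have h3 : insert p B \ insert p A = B \ A := by
      ext x
      simp only [Finset.mem_sdiff, Finset.mem_insert]
      constructor
      · rintro ⟨h4 | h4, h5⟩
        · exact absurd (Or.inl h4) h5
        · exact ⟨h4, fun h6 => h5 (Or.inr h6)⟩
      · rintro ⟨h4, h5⟩
        refine ⟨Or.inr h4, ?_⟩
        rintro (h6 | h6)
        · subst h6; exact hp h4
        · exact h5 h6
    rw [h3]
  rw [Finset.sum_congr rfl h1, Finset.sum_congr rfl h2, Finset.sum_neg_distrib]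
  abel

lemma moe_eq_zero (φ : Finset α → M) {B : Finset α} {p : α} (hp : p ∈ B)
    (h : ∀ A ⊆ B.erase p, φ (insert p A) = φ A) : moe φ B = 0 := by
  conv_lhs => rw [← Finset.insert_erase hp]
  rw [moe_insert φ (Finset.notMem_erase p B), sub_eq_zero]
  unfold moe
  apply Finset.sum_congr rfl
  intro A hA
  beta_reduce
  rw [h A (Finset.mem_powerset.1 hA)]

lemma sum_moe (S : Finset α) : ∀ φ : Finset α → M, ∑ B ∈ S.powerset, moe φ B = φ S := by
  induction S using Finset.induction_on with
  | empty => intro φ; simp [moe]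
  | insert p S hp ih =>
    intro φ
    rw [Finset.sum_powerset_insert hp, ← Finset.sum_add_distrib]
    have h1 : ∀ B ∈ S.powerset, moe φ B + moe φ (insert p B) =
        moe (fun A => φ (insert p A)) B := by
      intro B hB
      rw [moe_insert φ fun h => hp (Finset.mem_powerset.1 hB h)]
      abel
    rw [Finset.sum_congr rfl h1, ih]

end

variable {k : Type u} [Field k] {T : Type} [Fintype T] [DecidableEq T]
  {C : T → Sch k} {ι : T → Type} [∀ t, Fintype (ι t)] [∀ t, DecidableEq (ι t)]

lemma keep_keep (o : ∀ t, ι t → Pt (C t)) (A B : Finset (Σ t, ι t)) :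
    (keep o B).hom ≫ (keep o A).hom = (keep o (A ∩ B)).hom := by
  apply hom_extX
  intro t j
  unfold keep
  rw [Category.assoc, coordMor_proj, coordMor_proj]
  by_cases hA : (⟨t, j⟩ : Σ t, ι t) ∈ A
  · by_cases hB : (⟨t, j⟩ : Σ t, ι t) ∈ B
    · rw [if_pos hA, if_pos (Finset.mem_inter.2 ⟨hA, hB⟩), Sum.elim_inl,
        coordMor_proj, if_pos hB]
      rfl
    · rw [if_pos hA, if_neg (fun h => hB (Finset.mem_inter.1 h).2), Sum.elim_inl,
        coordMor_proj, if_neg hB]
  · rw [if_neg hA, if_neg (fun h => hA (Finset.mem_inter.1 h).1), Sum.elim_inr,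
      ← Category.assoc, toBase_comp]

/-- The action of `keep`. -/
noncomputable def kp (o : ∀ t, ι t → Pt (C t)) (z : CH0 (prodX C ι)) (A : Finset (Σ t, ι t)) :
    CH0 (prodX C ι) := pushCH (keep o A).hom z

lemma kp_kp (o : ∀ t, ι t → Pt (C t)) (z : CH0 (prodX C ι)) (A B : Finset (Σ t, ι t)) :
    kp o (kp o z B) A = kp o z (A ∩ B) := by
  unfold kp
  rw [pushCH_comp, keep_keep]

/-- The correspondence `∑_{A ⊆ B} (-1)^{|B \ A|} keep A`. -/
noncomputable def partCorr (o : ∀ t, ι t → Pt (C t)) (B : Finset (Σ t, ι t)) :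
    ScalarMor C ι ι →₀ ℚ :=
  ∑ A ∈ B.powerset, Finsupp.single (keep o A) ((-1 : ℚ) ^ (B \ A).card)

lemma corr_partCorr (o : ∀ t, ι t → Pt (C t)) (B : Finset (Σ t, ι t)) (z : CH0 (prodX C ι)) :
    corr (partCorr o B) z = moe (kp o z) B := by
  unfold partCorr moe kp
  rw [corr_eq, map_sum, LinearMap.sum_apply]
  apply Finset.sum_congr rfl
  intro A _
  rw [Finsupp.linearCombination_single, LinearMap.smul_apply]

lemma kp_sum (o : ∀ t, ι t → Pt (C t)) {J : Type*} (S : Finset J) (f : J → CH0 (prodX C ι))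
    (A : Finset (Σ t, ι t)) : kp o (∑ j ∈ S, f j) A = ∑ j ∈ S, kp o (f j) A := by
  unfold kp
  exact map_sum _ _ _

lemma kp_smul (o : ∀ t, ι t → Pt (C t)) (a : ℚ) (z : CH0 (prodX C ι))
    (A : Finset (Σ t, ι t)) : kp o (a • z) A = a • kp o z A := by
  unfold kp
  exact map_smul _ _ _

/-- `keep A` acts on the part `B` as the identity if `B ⊆ A` and as zero otherwise. -/
lemma kp_moe (o : ∀ t, ι t → Pt (C t)) (z : CH0 (prodX C ι)) (A B : Finset (Σ t, ι t)) :
    kp o (moe (kp o z) B) A = if B ⊆ A then moe (kp o z) B else 0 := by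
  have h1 : kp o (moe (kp o z) B) A = moe (fun A' => kp o z (A ∩ A')) B := by
    unfold moe
    rw [kp_sum]
    apply Finset.sum_congr rfl
    intro A' _
    rw [kp_smul, kp_kp]
  rw [h1]
  by_cases h : B ⊆ A
  · rw [if_pos h]
    unfold moe
    apply Finset.sum_congr rfl
    intro A' hA'
    beta_reduce
    rw [Finset.inter_eq_right.2 ((Finset.mem_powerset.1 hA').trans h)]
  · rw [if_neg h]
    obtain ⟨p, hpB, hpA⟩ := Finset.not_subset.1 h
    apply moe_eq_zero _ hpB
    intro A' _
    rw [Finset.inter_insert_of_notMem hpA]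

/-- The parts of one size are orthogonal idempotents. -/
lemma moe_moe (o : ∀ t, ι t → Pt (C t)) (z : CH0 (prodX C ι)) {B B' : Finset (Σ t, ι t)}
    (h : B.card = B'.card) :
    moe (kp o (moe (kp o z) B)) B' = if B' = B then moe (kp o z) B else 0 := by
  conv_lhs => unfold moe
  have h1 : ∀ A ∈ B'.powerset, (-1 : ℚ) ^ (B' \ A).card • kp o
      (∑ A ∈ B.powerset, (-1 : ℚ) ^ (B \ A).card • kp o z A) A =
      if A = B then (if B' = B then moe (kp o z) B else 0) else 0 := by
    intro A hA
    have hAB' := Finset.mem_powerset.1 hA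
    have h2 := kp_moe o z A B
    unfold moe at h2 ⊢
    rw [h2]
    by_cases hBA : B ⊆ A
    · have h3 : B = B' := Finset.eq_of_subset_of_card_le (hBA.trans hAB') h.ge
      have h4 : A = B := by
        apply Finset.Subset.antisymm _ hBA
        rw [h3]; exact hAB'
      rw [if_pos hBA, if_pos h4, if_pos h3.symm, h4, h3, Finset.sdiff_self, Finset.card_empty,
        pow_zero, one_smul]
    · rw [if_neg hBA, smul_zero, if_neg]
      intro h4
      exact hBA (by rw [h4])
  rw [Finset.sum_congr rfl h1]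
  by_cases h5 : B' = B
  · rw [if_pos h5, Finset.sum_ite_eq', if_pos (by rw [h5]; exact Finset.mem_powerset_self B)]
  · rw [if_neg h5]
    simp

/-- The correspondence `∑_{|B| = i} ∑_{A ⊆ B} (-1)^{|B \ A|} keep A`. -/
noncomputable def stdProj (o : ∀ t, ι t → Pt (C t)) (i : ℕ) : ScalarMor C ι ι →₀ ℚ :=
  ∑ B ∈ powersetCard i univ, partCorr o B

lemma corr_stdProj (o : ∀ t, ι t → Pt (C t)) (i : ℕ) (z : CH0 (prodX C ι)) :
    corr (stdProj o i) z = ∑ B ∈ powersetCard i univ, moe (kp o z) B := by
  unfold stdProj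
  rw [corr_eq, map_sum, LinearMap.sum_apply]
  apply Finset.sum_congr rfl
  intro B _
  rw [← corr_partCorr, corr_eq]

lemma moe_sum (o : ∀ t, ι t → Pt (C t)) {J : Type*} (S : Finset J) (f : J → CH0 (prodX C ι))
    (B : Finset (Σ t, ι t)) : moe (kp o (∑ j ∈ S, f j)) B = ∑ j ∈ S, moe (kp o (f j)) B := by
  unfold moe
  rw [Finset.sum_comm]
  apply Finset.sum_congr rfl
  intro A _
  rw [kp_sum, Finset.smul_sum]

lemma stdProj_idem (o : ∀ t, ι t → Pt (C t)) (i : ℕ) (z : CH0 (prodX C ι)) :
    corr (stdProj o i) (corr (stdProj o i) z) = corr (stdProj o i) z := by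
  rw [corr_stdProj, corr_stdProj]
  apply Finset.sum_congr rfl
  intro B' hB'
  rw [moe_sum, Finset.sum_eq_single B']
  · rw [moe_moe o z rfl, if_pos rfl]
  · intro B hB hne
    rw [moe_moe o z (by rw [(mem_powersetCard.1 hB).2, (mem_powersetCard.1 hB').2]),
      if_neg (Ne.symm hne)]
  · intro h; exact absurd hB' h

lemma stdProj_sum (o : ∀ t, ι t → Pt (C t)) (d : ℕ) (hd : ∑ t, Fintype.card (ι t) = d)
    (z : CH0 (prodX C ι)) : ∑ i ∈ range (d + 1), corr (stdProj o i) z = z := by
  simp only [corr_stdProj]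
  have h1 := sum_moe (univ : Finset (Σ t, ι t)) (kp o z)
  rw [Finset.sum_powerset, card_univ, Fintype.card_sigma, hd] at h1
  rw [h1]
  unfold kp
  rw [keep_univ_hom, pushCH_id]

lemma stdProj_forms (o : ∀ t, ι t → Pt (C t)) (g : T → ℕ) {i j : ℕ} (hij : i ≠ j) :
    ZeroOnForms (stdProj (C := C) o j) g i := by
  classical
  intro u s hu _
  rw [forms_eq]
  unfold stdProj partCorr
  simp only [map_sum, Finsupp.linearCombination_single, keep_det, smul_eq_mul]
  let S : Finset (Σ t, ι t) := univ.image fun a => (⟨(u a).1, (u a).2.1⟩ : Σ t, ι t)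
  have hS : S.card = i := by
    rw [Finset.card_image_of_injective _ hu, card_univ, Fintype.card_fin]
  have hSA : ∀ A : Finset (Σ t, ι t),
      (∀ a, (⟨(u a).1, (u a).2.1⟩ : Σ t, ι t) ∈ A) ↔ S ⊆ A := by
    intro A
    constructor
    · intro h p hp
      obtain ⟨a, _, rfl⟩ := Finset.mem_image.1 hp
      exact h a
    · intro h a
      exact h (Finset.mem_image_of_mem _ (mem_univ _))
  simp only [hSA]
  set D : ℚ := Matrix.det (Matrix.of fun a b => if s b = u a then (1 : ℚ) else 0) with hD
  apply Finset.sum_eq_zero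
  intro B hB
  have h1 : ∑ A ∈ B.powerset, (-1 : ℚ) ^ (B \ A).card * (if S ⊆ A then D else 0) =
      moe (fun A => if S ⊆ A then D else 0) B := by
    unfold moe
    simp only [smul_eq_mul]
  rw [h1]
  by_cases hSB : S ⊆ B
  · have h2 : ∃ p ∈ B, p ∉ S := by
      by_contra h
      push Not at h
      have h3 : B = S := Finset.Subset.antisymm h hSB
      apply hij
      rw [← hS, ← h3, (mem_powersetCard.1 hB).2]
    obtain ⟨p, hpB, hpS⟩ := h2
    apply moe_eq_zero _ hpB
    intro A _
    simp only [Finset.subset_insert_iff_of_notMem hpS]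
  · unfold moe
    apply Finset.sum_eq_zero
    intro A hA
    beta_reduce
    rw [if_neg, smul_zero]
    intro h
    exact hSB (h.trans (Finset.mem_powerset.1 hA))

/-- The standard decomposition. -/
noncomputable def stdDec {n : T → ℕ} (o : ∀ t, Fin (n t) → Pt (C t)) (d j : ℕ) :
    PowMor C n n →₀ ℚ :=
  if d ≤ j ∧ j ≤ 2 * d then stdProj o (2 * d - j) else 0

/-- **Existence of a decomposition.** -/
theorem exists_decomposition {n : T → ℕ} (g : T → ℕ) (o : ∀ t, Fin (n t) → Pt (C t)) {d : ℕ}
    (hd : ∑ t, n t = d) : IsDecomposition g d (stdDec (C := C) o d) := by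
  have hzero : ∀ z : CH0 (powX C n), corr (0 : PowMor C n n →₀ ℚ) z = 0 := by
    intro z
    rw [corr_eq, map_zero, LinearMap.zero_apply]
  refine ⟨hd, ?_, ?_, ?_⟩
  · intro j _ z
    unfold stdDec
    by_cases h : d ≤ j ∧ j ≤ 2 * d
    · rw [if_pos h, stdProj_idem]
    · rw [if_neg h, hzero, hzero]
  · refine LinearMap.ext fun z => ?_
    unfold sumCorr
    rw [LinearMap.sum_apply, LinearMap.id_apply]
    have h1 := stdProj_sum o d (by simpa using hd) z
    conv_rhs => rw [← h1]
    have h2 : ∑ j ∈ range (2 * d + 1), corr (stdDec (C := C) (n := n) o d j) z =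
        ∑ j ∈ (range (2 * d + 1)).filter (fun j => d ≤ j), corr (stdProj o (2 * d - j)) z := by
      rw [Finset.sum_filter]
      apply Finset.sum_congr rfl
      intro j hj
      rw [mem_range] at hj
      unfold stdDec
      by_cases h : d ≤ j
      · rw [if_pos ⟨h, by omega⟩, if_pos h]
      · rw [if_neg (fun h' => h h'.1), if_neg h, hzero]
    rw [h2]
    refine Finset.sum_bij' (fun j _ => 2 * d - j) (fun i _ => 2 * d - i) ?_ ?_ ?_ ?_ ?_
    · intro j hj
      rw [mem_filter, mem_range] at hj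
      rw [mem_range]
      omega
    · intro i hi
      rw [mem_range] at hi
      rw [mem_filter, mem_range]
      omega
    · intro j hj
      rw [mem_filter, mem_range] at hj
      omega
    · intro i hi
      rw [mem_range] at hi
      omega
    · intro j _
      rfl
  · intro i hi j hj hij
    unfold stdDec
    by_cases h : d ≤ j ∧ j ≤ 2 * d
    · rw [if_pos h]
      apply stdProj_forms
      omega
    · rw [if_neg h]
      intro u s _ _
      rfl

end Q58.Chow
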