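import Mathlib
import Pool.Agent.Q58.Scal.Comp

/-!
# The correspondences that act as zero on holomorphic forms are an ideal
-/

set_option linter.unusedSectionVars false

namespace Q58.Chow

open AlgebraicGeometry CategoryTheory Limits Finset Equiv

universe u

/-- The determinant of a product of matrices, expanded over all maps to the middle index set. -/
lemma det_mid {i : ℕ} {M : Type*} [Fintype M] [DecidableEq M] (A : Fin i → M → ℚ)
    (B : M → Fin i → ℚ) :
    Matrix.det (Matrix.of fun a b => ∑ m, A a m * B m b) =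
      ((i.factorial : ℚ))⁻¹ * ∑ φ : Fin i → M, Matrix.det (Matrix.of fun a b => A a (φ b)) *
        Matrix.det (Matrix.of fun a b => B (φ a) b) := by
  have h1 : Matrix.det (Matrix.of fun a b => ∑ m, A a m * B m b) =
      ∑ φ : Fin i → M, (∏ a, A a (φ a)) * Matrix.det (Matrix.of fun a b => B (φ a) b) := by
    have h2 : (Matrix.of fun a b => ∑ m, A a m * B m b : Matrix (Fin i) (Fin i) ℚ) =
        fun a => ∑ m, A a m • B m := by
      funext a b
      simp [Matrix.of_apply, Finset.sum_apply]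
    have h3 : Matrix.det (fun a => ∑ m, A a m • B m : Matrix (Fin i) (Fin i) ℚ) =
        Matrix.detRowAlternating.toMultilinearMap (fun a => ∑ m, A a m • B m) := rfl
    rw [h2, h3, MultilinearMap.map_sum]
    apply Finset.sum_congr rfl
    intro φ _
    rw [MultilinearMap.map_smul_univ]
    rfl
  have h4 : ∀ σ : Perm (Fin i), Matrix.det (Matrix.of fun a b => ∑ m, A a m * B m b) =
      ∑ φ : Fin i → M, (((Perm.sign σ : ℤˣ) : ℤ) : ℚ) * (∏ a, A a (φ (σ a))) *
        Matrix.det (Matrix.of fun a b => B (φ a) b) := by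
    intro σ
    rw [h1]
    refine Fintype.sum_equiv (Equiv.arrowCongr σ (Equiv.refl M)) _ _ ?_
    intro φ
    have h5 : ∀ a, (Equiv.arrowCongr σ (Equiv.refl M)) φ (σ a) = φ a := by
      intro a; simp [Equiv.arrowCongr]
    simp only [h5]
    have h6 : Matrix.det (Matrix.of fun a b => B (φ a) b) =
        (((Perm.sign σ : ℤˣ) : ℤ) : ℚ) *
          Matrix.det (Matrix.of fun a b => B ((Equiv.arrowCongr σ (Equiv.refl M)) φ a) b) := by
      rw [← Matrix.det_permute]
      congr 1
      funext a b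
      simp only [Matrix.submatrix_apply, Matrix.of_apply, id_eq, h5]
    rw [h6]
    ring
  have h7 : ((i.factorial : ℕ) : ℚ) * Matrix.det (Matrix.of fun a b => ∑ m, A a m * B m b) =
      ∑ φ : Fin i → M, Matrix.det (Matrix.of fun a b => A a (φ b)) *
        Matrix.det (Matrix.of fun a b => B (φ a) b) := by
    have h8 : ∑ _σ : Perm (Fin i), Matrix.det (Matrix.of fun a b => ∑ m, A a m * B m b) =
        ((i.factorial : ℕ) : ℚ) * Matrix.det (Matrix.of fun a b => ∑ m, A a m * B m b) := by
      rw [Finset.sum_const, card_univ, Fintype.card_perm, Fintype.card_fin, nsmul_eq_mul]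
    rw [← h8, Finset.sum_congr rfl fun σ _ => h4 σ, Finset.sum_comm]
    apply Finset.sum_congr rfl
    intro φ _
    rw [← Finset.sum_mul]
    congr 1
    rw [← Matrix.det_transpose, Matrix.det_apply']
    rfl
  have h9 : ((i.factorial : ℕ) : ℚ) ≠ 0 := by exact_mod_cast i.factorial_ne_zero
  rw [← h7, ← mul_assoc, inv_mul_cancel₀ h9, one_mul]

variable {k : Type u} [Field k] {T : Type} [Fintype T] [DecidableEq T]
  {C : T → Sch k} {ι κ μ : T → Type} [∀ t, Fintype (ι t)] [∀ t, DecidableEq (ι t)]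
  [∀ t, Fintype (κ t)] [∀ t, DecidableEq (κ t)] [∀ t, Fintype (μ t)] [∀ t, DecidableEq (μ t)]

lemma entry_comp (f : ScalarMor C ι κ) (h : ScalarMor C κ μ) {g : T → ℕ}
    (u : Σ t, μ t × Fin (g t)) (s : Σ t, ι t × Fin (g t)) :
    (f.comp h).entry u s = ∑ m : Σ t, κ t × Fin (g t), h.entry u m * f.entry m s := by
  classical
  obtain ⟨t, j, b⟩ := u
  obtain ⟨t', l, b'⟩ := s
  by_cases htt : t = t'
  · subst htt
    rw [entry_same, Fintype.sum_sigma, Finset.sum_eq_single t]
    · rw [Fintype.sum_prod_type]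
      simp only [entry_same]
      by_cases hb : b' = b
      · subst hb
        rw [if_pos rfl]
        change ∑ l', h.mat t j l' * f.mat t l' l = _
        apply Finset.sum_congr rfl
        intro m _
        rw [Finset.sum_eq_single b']
        · simp
        · intro b'' _ hb''
          rw [if_neg hb'', zero_mul]
        · intro h'; exact absurd (mem_univ _) h'
      · rw [if_neg hb]
        symm
        apply Finset.sum_eq_zero
        intro m _
        apply Finset.sum_eq_zero
        intro b'' _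
        by_cases h1 : b' = b''
        · have h3 : ¬ b'' = b := fun h2 => hb (h1.trans h2)
          rw [if_neg h3, zero_mul]
        · have h3 : (if b' = b'' then f.mat t m l else 0) = 0 := if_neg h1
          rw [h3, mul_zero]
    · intro t'' _ ht''
      apply Finset.sum_eq_zero
      intro m _
      rw [entry_ne h _ _ (Ne.symm ht''), zero_mul]
    · intro h'; exact absurd (mem_univ _) h'
  · rw [entry_ne _ _ _ htt]
    symm
    apply Finset.sum_eq_zero
    intro m _
    by_cases h1 : t = m.1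
    · rw [entry_ne f m _ (fun h2 => htt (h1.trans h2)), mul_zero]
    · rw [entry_ne h _ m h1, zero_mul]

/-- The minors of `f` vanish when a coordinate of the target is repeated. -/
lemma det_entry_eq_zero [∀ t, IsCurve (C t)] (f : ScalarMor C ι κ) {g : T → ℕ}
    (hg : ∀ t, genus (C t) = g t) {i : ℕ} (φ : Fin i → Σ t, κ t × Fin (g t))
    (s : Fin i → Σ t, ι t × Fin (g t))
    (hφ : ¬ Function.Injective (fun a => (⟨(φ a).1, (φ a).2.1⟩ : Σ t, κ t)))
    (hs : Function.Injective (fun a => (⟨(s a).1, (s a).2.1⟩ : Σ t, ι t))) :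
    Matrix.det (Matrix.of fun a b => f.entry (φ a) (s b)) = 0 := by
  classical
  unfold Function.Injective at hφ
  push Not at hφ
  obtain ⟨a₁, a₂, heq, hne⟩ := hφ
  by_cases hφφ : φ a₁ = φ a₂
  · apply Matrix.det_zero_of_row_eq (i := a₁) (j := a₂) hne
    funext b
    simp only [Matrix.of_apply, hφφ]
  -- same coordinate, different forms
  obtain ⟨t, j, b₁, h1, b₂, h2, hb⟩ : ∃ (t : T) (j : κ t) (b₁ : Fin (g t)),
      φ a₁ = ⟨t, (j, b₁)⟩ ∧ ∃ b₂ : Fin (g t), φ a₂ = ⟨t, (j, b₂)⟩ ∧ b₁ ≠ b₂ := by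
    rcases h1 : φ a₁ with ⟨t, j, b₁⟩
    rcases h2 : φ a₂ with ⟨t', j', b₂⟩
    have h3 : (⟨t, j⟩ : Σ t, κ t) = ⟨t', j'⟩ := by
      change (⟨(φ a₁).1, (φ a₁).2.1⟩ : Σ t, κ t) = ⟨(φ a₂).1, (φ a₂).2.1⟩ at heq
      rw [h1, h2] at heq
      exact heq
    obtain ⟨rfl, h4⟩ := Sigma.mk.inj_iff.1 h3
    have h4 := eq_of_heq h4
    subst h4
    refine ⟨t, j, b₁, rfl, b₂, rfl, ?_⟩
    intro h5
    apply hφφ
    rw [h1, h2, h5]
  have hg2 : 2 ≤ g t := by
    have h3 := b₁.isLt
    have h4 := b₂.isLt
    by_contra h5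
    apply hb
    apply Fin.ext
    omega
  have hone := f.one t (by rw [hg]; exact_mod_cast hg2) j
  -- a column where the first row is nonzero
  by_cases hr : ∀ b, f.entry (φ a₁) (s b) = 0
  · exact Matrix.det_eq_zero_of_row_eq_zero a₁ hr
  · push Not at hr
    obtain ⟨β, hβ⟩ := hr
    apply Matrix.det_eq_zero_of_row_eq_zero a₂
    intro β'
    by_contra hβ'
    change f.entry (φ a₂) (s β') ≠ 0 at hβ'
    rw [h1] at hβ
    rw [h2] at hβ'
    rcases hsβ : s β with ⟨t₁, l₁, c₁⟩
    rcases hsβ' : s β' with ⟨t₂, l₂, c₂⟩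
    rw [hsβ] at hβ
    rw [hsβ'] at hβ'
    have ht₁ : t = t₁ := by
      by_contra h
      exact hβ (entry_ne f _ _ h)
    have ht₂ : t = t₂ := by
      by_contra h
      exact hβ' (entry_ne f _ _ h)
    subst ht₁
    subst ht₂
    rw [entry_same] at hβ hβ'
    have hc₁ : c₁ = b₁ := by
      by_contra h
      exact hβ (if_neg h)
    have hc₂ : c₂ = b₂ := by
      by_contra h
      exact hβ' (if_neg h)
    rw [if_pos hc₁] at hβ
    rw [if_pos hc₂] at hβ'
    have hl := hone l₁ l₂ hβ hβ'
    have h3 : β = β' := by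
      apply hs
      change (⟨(s β).1, (s β).2.1⟩ : Σ t, ι t) = ⟨(s β').1, (s β').2.1⟩
      rw [hsβ, hsβ', hl]
    subst h3
    have h4 : (⟨t, (l₁, c₁)⟩ : Σ t, ι t × Fin (g t)) = ⟨t, (l₂, c₂)⟩ := by
      rw [← hsβ, ← hsβ']
    have h5 : (l₁, c₁) = (l₂, c₂) := by simpa using h4
    apply hb
    rw [← hc₁, ← hc₂]
    exact (Prod.ext_iff.1 h5).2

/-- The coefficients of a composition on forms. -/
lemma forms_comp [∀ t, IsCurve (C t)] {g : T → ℕ} (hg : ∀ t, genus (C t) = g t)
    {n m l : T → ℕ} (e : PowMor C n m →₀ ℚ) (c : PowMor C m l →₀ ℚ) {i : ℕ}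
    (u : Fin i → Σ t, Fin (l t) × Fin (g t)) (s : Fin i → Σ t, Fin (n t) × Fin (g t))
    (hs : Function.Injective (fun a => (⟨(s a).1, (s a).2.1⟩ : Σ t, Fin (n t)))) :
    ((compCorr e c).sum fun f x => x * Matrix.det (Matrix.of fun a b => f.entry (u a) (s b))) =
      ((i.factorial : ℚ))⁻¹ * ∑ φ : Fin i → Σ t, Fin (m t) × Fin (g t),
        if Function.Injective (fun a => (⟨(φ a).1, (φ a).2.1⟩ : Σ t, Fin (m t))) then
          (c.sum fun h x => x * Matrix.det (Matrix.of fun a b => h.entry (u a) (φ b))) *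
            (e.sum fun f x => x * Matrix.det (Matrix.of fun a b => f.entry (φ a) (s b)))
        else 0 := by
  classical
  rw [forms_eq]
  unfold compCorr
  simp only [Finsupp.sum, map_sum, Finsupp.linearCombination_single, smul_eq_mul]
  have h1 : ∀ (f : PowMor C n m) (h : PowMor C m l),
      Matrix.det (Matrix.of fun a b => (f.comp h).entry (u a) (s b)) =
      ((i.factorial : ℚ))⁻¹ * ∑ φ : Fin i → Σ t, Fin (m t) × Fin (g t),
        Matrix.det (Matrix.of fun a b => h.entry (u a) (φ b)) *
        Matrix.det (Matrix.of fun a b => f.entry (φ a) (s b)) := by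
    intro f h
    rw [← det_mid (fun a m => h.entry (u a) m) (fun m b => f.entry m (s b))]
    congr 1
    funext a b
    simp only [Matrix.of_apply]
    exact entry_comp f h (u a) (s b)
  simp only [h1]
  have h2 : ∀ φ : Fin i → Σ t, Fin (m t) × Fin (g t),
      (if Function.Injective (fun a => (⟨(φ a).1, (φ a).2.1⟩ : Σ t, Fin (m t))) then
          (∑ h ∈ c.support, c h * Matrix.det (Matrix.of fun a b => h.entry (u a) (φ b))) *
            (∑ f ∈ e.support, e f * Matrix.det (Matrix.of fun a b => f.entry (φ a) (s b)))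
        else 0) =
      (∑ h ∈ c.support, c h * Matrix.det (Matrix.of fun a b => h.entry (u a) (φ b))) *
            (∑ f ∈ e.support, e f * Matrix.det (Matrix.of fun a b => f.entry (φ a) (s b))) := by
    intro φ
    by_cases h : Function.Injective (fun a => (⟨(φ a).1, (φ a).2.1⟩ : Σ t, Fin (m t)))
    · rw [if_pos h]
    · rw [if_neg h]
      have h3 : ∀ f ∈ e.support, e f * Matrix.det (Matrix.of fun a b => f.entry (φ a) (s b)) = 0 := by
        intro f _
        rw [det_entry_eq_zero f hg φ s h hs, mul_zero]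
      rw [Finset.sum_eq_zero h3, mul_zero]
  simp only [h2]
  have h3 : ∀ φ : Fin i → Σ t, Fin (m t) × Fin (g t),
      (∑ h ∈ c.support, c h * Matrix.det (Matrix.of fun a b => h.entry (u a) (φ b))) *
            (∑ f ∈ e.support, e f * Matrix.det (Matrix.of fun a b => f.entry (φ a) (s b))) =
      ∑ f ∈ e.support, ∑ h ∈ c.support, e f * c h *
        (Matrix.det (Matrix.of fun a b => h.entry (u a) (φ b)) *
        Matrix.det (Matrix.of fun a b => f.entry (φ a) (s b))) := by
    intro φ
    rw [Finset.sum_mul_sum, Finset.sum_comm]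
    apply Finset.sum_congr rfl
    intro f _
    apply Finset.sum_congr rfl
    intro h _
    ring
  have h4 : ∑ φ : Fin i → Σ t, Fin (m t) × Fin (g t), ∑ f ∈ e.support, ∑ h ∈ c.support, e f * c h *
        (Matrix.det (Matrix.of fun a b => h.entry (u a) (φ b)) *
        Matrix.det (Matrix.of fun a b => f.entry (φ a) (s b))) =
      ∑ f ∈ e.support, ∑ h ∈ c.support, ∑ φ : Fin i → Σ t, Fin (m t) × Fin (g t), e f * c h *
        (Matrix.det (Matrix.of fun a b => h.entry (u a) (φ b)) *
        Matrix.det (Matrix.of fun a b => f.entry (φ a) (s b))) := by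
    rw [Finset.sum_comm]
    apply Finset.sum_congr rfl
    intro f _
    rw [Finset.sum_comm]
  rw [Finset.sum_congr rfl fun φ _ => h3 φ, h4, Finset.mul_sum]
  apply Finset.sum_congr rfl
  intro f _
  rw [Finset.mul_sum]
  apply Finset.sum_congr rfl
  intro h _
  rw [← Finset.mul_sum]
  ring

/-- A composition with a correspondence that acts as zero on forms acts as zero on forms. -/
theorem zeroOnForms_comp_left [∀ t, IsCurve (C t)] {g : T → ℕ} (hg : ∀ t, genus (C t) = g t)
    {n m l : T → ℕ} (e : PowMor C n m →₀ ℚ) (c : PowMor C m l →₀ ℚ) {i : ℕ}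
    (h : ZeroOnForms e g i) : ZeroOnForms (compCorr e c) g i := by
  classical
  intro u s hu hs
  rw [forms_comp hg e c u s hs, Finset.sum_eq_zero, mul_zero]
  intro φ _
  by_cases hφ : Function.Injective (fun a => (⟨(φ a).1, (φ a).2.1⟩ : Σ t, Fin (m t)))
  · rw [if_pos hφ, h φ s hφ hs, mul_zero]
  · rw [if_neg hφ]

/-- A composition with a correspondence that acts as zero on forms acts as zero on forms. -/
theorem zeroOnForms_comp_right [∀ t, IsCurve (C t)] {g : T → ℕ} (hg : ∀ t, genus (C t) = g t)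
    {n m l : T → ℕ} (e : PowMor C n m →₀ ℚ) (c : PowMor C m l →₀ ℚ) {i : ℕ}
    (h : ZeroOnForms c g i) : ZeroOnForms (compCorr e c) g i := by
  classical
  intro u s hu hs
  rw [forms_comp hg e c u s hs, Finset.sum_eq_zero, mul_zero]
  intro φ _
  by_cases hφ : Function.Injective (fun a => (⟨(φ a).1, (φ a).2.1⟩ : Σ t, Fin (m t)))
  · rw [if_pos hφ, h u φ hu hφ, zero_mul]
  · rw [if_neg hφ]

end Q58.Chow
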