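import Mathlib
import Pool.Agent.Q58.Scal.Murre
import Pool.Agent.Q58.Scal.AnyStm

/-!
# Chow-Künneth decompositions of quotients of products of curves and zero-cycles: definitions
-/

namespace Q58.Chow

open AlgebraicGeometry CategoryTheory Limits Finset Equiv

universe u

variable {k : Type u} [Field k] {T : Type} [Fintype T] [DecidableEq T]

/-- Every `k`-point of `S` is the image of a `k`-point of `X`. -/
def OntoPoints {X S : Sch k} (π : X ⟶ S) : Prop := ∀ y : Pt S, ∃ x : Pt X, x ≫ π = y

/-- The sum of the linear maps `Z j`, `j ∈ J`. -/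
noncomputable def sumLin {S : Sch k} (Z : ℕ → (CH0 S →ₗ[ℚ] CH0 S)) (J : Finset ℕ) :
    CH0 S →ₗ[ℚ] CH0 S :=
  ∑ j ∈ J, Z j

/-- Let `π : X → S` be a morphism from the product `X = C^n` of `d` curves and `e` the
correspondence `π^* π_*` (the sum of the elements of `G` for a quotient by `G`).  A Chow-Künneth
decomposition `Z^0, ..., Z^{2d}` of `S` by correspondences `Z^j = (π × π)_* c_j`, where `c_j` is a
linear combination of graphs of scalar endomorphisms of `X`, as far as zero-cycles and holomorphic
forms are concerned: `Z^j` acts on zero-cycles through `Z^j (π_* z) = π_* (c_j)_* e_* z`; these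
actions are idempotents with sum one; and `Z^j` acts on `H^{i,0}(S)` as zero if `i + j ≠ 2 d` (and
so as the identity if `i + j = 2 d`), that is, the composition of `e`, `c_j` and `e` acts as zero
on `H^{i,0}(X)`. -/
structure IsQuotDecomposition {C : T → Sch k} {n : T → ℕ} {S : Sch k} (g : T → ℕ) (d : ℕ)
    (π : powX C n ⟶ S) (e : PowMor C n n →₀ ℚ) (c : ℕ → (PowMor C n n →₀ ℚ))
    (Z : ℕ → (CH0 S →ₗ[ℚ] CH0 S)) : Prop where
  /-- the action on zero-cycles -/
  acts : ∀ j ≤ 2 * d, ActsThrough π π e (c j) (Z j)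
  /-- idempotence on zero-cycles -/
  idem : ∀ j ≤ 2 * d, Z j ∘ₗ Z j = Z j
  /-- the sum is the identity on zero-cycles -/
  sum : sumLin Z (range (2 * d + 1)) = LinearMap.id
  /-- the action on forms -/
  zero : ∀ i ≤ d, ∀ j ≤ 2 * d, i + j ≠ 2 * d → ZeroOnForms (compCorr (compCorr e (c j)) e) g i

/-- The step `F^ν CH_0(S)` of the filtration induced by a decomposition, the image of
`Z^{2d-ν} + ... + Z^0`. -/
noncomputable def quotFil {S : Sch k} (d : ℕ) (Z : ℕ → (CH0 S →ₗ[ℚ] CH0 S)) (ν : ℕ) :
    Submodule ℚ (CH0 S) :=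
  LinearMap.range (sumLin Z (lowIndices d ν))

/-- The class `w` in `CH_0(S)` is the image of a class in `CH_0(X)` which is killed by all scalar
morphisms to products of less than `ν` of the curves. -/
def InImage {C : T → Sch k} {n : T → ℕ} {S : Sch k} (π : powX C n ⟶ S) (ν : ℕ) (w : CH0 S) :
    Prop :=
  ∃ z, KilledBelow ν z ∧ pushCH π z = w

/-- All decompositions of `S` induce the same filtration of `CH_0(S)`: its step `F^ν` is the image
of the group of the classes in `CH_0(X)` which are killed by all scalar morphisms to products of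
less than `ν` of the curves. -/
def AllInduceOn {C : T → Sch k} {n : T → ℕ} {S : Sch k} (g : T → ℕ) (d : ℕ)
    (π : powX C n ⟶ S) (e : PowMor C n n →₀ ℚ) : Prop :=
  ∀ (c : ℕ → (PowMor C n n →₀ ℚ)) (Z : ℕ → (CH0 S →ₗ[ℚ] CH0 S)),
    IsQuotDecomposition g d π e c Z → ∀ ν w, w ∈ quotFil d Z ν ↔ InImage π ν w

/-- There is a decomposition of `S`. -/
def HasQuotDecomposition {C : T → Sch k} {n : T → ℕ} {S : Sch k} (g : T → ℕ) (d : ℕ)
    (π : powX C n ⟶ S) (e : PowMor C n n →₀ ℚ) : Prop :=
  ∃ (c : ℕ → (PowMor C n n →₀ ℚ)) (Z : ℕ → (CH0 S →ₗ[ℚ] CH0 S)), IsQuotDecomposition g d π e c Z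

/-- The filtration `F` of `CH_0(S)` starts with everything and the classes of degree zero, and ends
with `F^{d+1} = 0`. -/
structure HasMurreEnds {S : Sch k} (d : ℕ) (F : ℕ → CH0 S → Prop) : Prop where
  /-- `F^0` is everything -/
  zero : ∀ z, F 0 z
  /-- `F^1` consists of the classes of degree zero -/
  one : ∀ z, F 1 z ↔ DegreeZero z
  /-- `F^{d+1}` is zero -/
  last : ∀ z, F (d + 1) z → z = 0

/-- The kernel of `π_*` is contained in the kernel of `e_*`; this holds for the quotient
`π : X → S` by a finite group `G` and the sum `e` of the elements of `G`, as `e_* = π^* π_*`. -/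
def FactorsThrough {C : T → Sch k} {n : T → ℕ} {S : Sch k} (e : PowMor C n n →₀ ℚ)
    (π : powX C n ⟶ S) : Prop :=
  LinearMap.ker (pushCH π) ≤ LinearMap.ker (corr e)

/-- The second step `F` of the filtration of `CH_0(S)` is the kernel of the Albanese map of `S`:
the class `π_* z` belongs to `F` if and only if the class `e_* z = π^* (π_* z)` has degree zero and
trivial push-forwards to all the curves. -/
def IsAlbaneseKernel {C : T → Sch k} {n : T → ℕ} {S : Sch k} (e : PowMor C n n →₀ ℚ)
    (π : powX C n ⟶ S) (F : CH0 S → Prop) : Prop :=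
  ∀ z, F (pushCH π z) ↔ AlbaneseTrivial (corr e z)

end Q58.Chow
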