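import Mathlib
import Pool.Agent.Q58.Scal.QMurDefs
import Pool.Agent.Q58.Scal.CK
import Pool.Agent.Q58.Scal.Ideal

/-!
# Murre's conjecture (B) for zero-cycles on quotients of products of curves
-/

set_option linter.unusedSectionVars false

namespace Q58.Chow

open AlgebraicGeometry CategoryTheory Limits Finset Equiv

universe u

variable {k : Type u} [Field k] {T : Type} [Fintype T] [DecidableEq T]
  {C : T → Sch k} {n : T → ℕ} {S : Sch k} {π : powX C n ⟶ S} {e : PowMor C n n →₀ ℚ}

/-- The image in `CH_0(S)` of the group of the classes in `CH_0(X)` which are killed by all scalar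
morphisms to products of less than `ν` of the curves. -/
noncomputable def imageFil (π : powX C n ⟶ S) (ν : ℕ) : Submodule ℚ (CH0 S) :=
  (stdFil C n ν).map (pushCH π)

lemma mem_imageFil (ν : ℕ) (w : CH0 S) : w ∈ imageFil π ν ↔ InImage π ν w := Iff.rfl

lemma push_surjective {X S : Sch k} {π : X ⟶ S} (h : OntoPoints π) :
    Function.Surjective (pushCH π) := by
  intro w
  obtain ⟨w, rfl⟩ := Submodule.Quotient.mk_surjective _ w
  change ∃ a, pushCH π a = cl S w
  induction w using Finsupp.induction_linear with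
  | zero => exact ⟨0, by rw [map_zero, map_zero]⟩
  | add a b ha hb =>
    obtain ⟨x, hx⟩ := ha
    obtain ⟨y, hy⟩ := hb
    exact ⟨x + y, by rw [map_add, map_add, hx, hy]⟩
  | single y a =>
    obtain ⟨x, hx⟩ := h y
    refine ⟨cl X (Finsupp.single x a), ?_⟩
    rw [pushCH_cl]
    congr 1
    unfold push
    rw [Finsupp.mapDomain_single, hx]

lemma imageFil_zero (h : OntoPoints π) : imageFil π 0 = ⊤ := by
  unfold imageFil
  change (filCH C _ 0).map _ = ⊤
  rw [filCH_zero, Submodule.map_top, LinearMap.range_eq_top]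
  exact push_surjective h

lemma imageFil_large {d : ℕ} (hd : ∑ t, n t = d) {i : ℕ} (hi : d < i) : imageFil π i = ⊥ := by
  rw [eq_bot_iff]
  rintro _ ⟨z, hz, rfl⟩
  rw [fil_large hd hi hz, map_zero]
  exact Submodule.zero_mem _

lemma imageFil_anti {i j : ℕ} (h : i ≤ j) : imageFil π j ≤ imageFil π i :=
  Submodule.map_mono (filCH_anti h)

lemma acts_apply {c : PowMor C n n →₀ ℚ} {Z : CH0 S →ₗ[ℚ] CH0 S} (h : ActsThrough π π e c Z)
    (z : CH0 (powX C n)) : Z (pushCH π z) = pushCH π (corr c (corr e z)) :=
  LinearMap.congr_fun h z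

/-- The generalized Bloch conjecture for one correspondence. -/
lemma acts_succ [∀ t, IsCurve (C t)] {g : T → ℕ} (hg : ∀ t, genus (C t) = g t)
    (he : Averages e π) {c : PowMor C n n →₀ ℚ} {Z : CH0 S →ₗ[ℚ] CH0 S}
    (hZ : ActsThrough π π e c Z) {i : ℕ} (h : ZeroOnForms (compCorr (compCorr e c) e) g i)
    {w : CH0 S} (hw : w ∈ imageFil π i) : Z w ∈ imageFil π (i + 1) := by
  obtain ⟨z, hz, rfl⟩ := hw
  rw [acts_apply hZ]
  obtain ⟨y, hy, h1⟩ := quot_corr hg e he c i h z hz
  rw [h1]
  exact Submodule.mem_map_of_mem hy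

/-- **Independence and description of the filtration.** -/
theorem quotFil_eq [∀ t, IsCurve (C t)] {g : T → ℕ} (hg : ∀ t, genus (C t) = g t)
    {d : ℕ} (hd : ∑ t, n t = d) (hπ : OntoPoints π) (he : Averages e π)
    {c : ℕ → (PowMor C n n →₀ ℚ)} {Z : ℕ → (CH0 S →ₗ[ℚ] CH0 S)}
    (hZ : IsQuotDecomposition g d π e c Z) (ν : ℕ) : quotFil d Z ν = imageFil π ν := by
  have step : ∀ j ≤ 2 * d, ∀ i, i + j ≠ 2 * d → ∀ w ∈ imageFil π i, Z j w ∈ imageFil π (i + 1) := by
    intro j hj i hij w hw
    by_cases hid : i ≤ d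
    · exact acts_succ hg he (hZ.acts j hj) (hZ.zero i hid j hj hij) hw
    · rw [imageFil_large hd (by omega), Submodule.mem_bot] at hw
      rw [hw, map_zero]
      exact Submodule.zero_mem _
  have idem : ∀ j ≤ 2 * d, ∀ w, Z j (Z j w) = Z j w := fun j hj w =>
    LinearMap.congr_fun (hZ.idem j hj) w
  have kill : ∀ j ≤ 2 * d, (∀ i, ν ≤ i → i + j ≠ 2 * d) → ∀ w ∈ imageFil π ν, Z j w = 0 := by
    intro j hj hne
    have key : ∀ m : ℕ, ∀ i, ν ≤ i → d + 1 ≤ i + m → ∀ w ∈ imageFil π i, Z j w = 0 := by
      intro m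
      induction m with
      | zero =>
        intro i _ hi w hw
        rw [imageFil_large hd (by omega), Submodule.mem_bot] at hw
        rw [hw, map_zero]
      | succ m ih =>
        intro i hνi hi w hw
        have h1 := step j hj i (hne i hνi) w hw
        have h2 := ih (i + 1) (by omega) (by omega) _ h1
        rwa [idem j hj] at h2
    exact key (d + 1) ν le_rfl (by omega)
  have img : ∀ j ≤ 2 * d, (∀ i, i < ν → i + j ≠ 2 * d) → ∀ w, Z j w ∈ imageFil π ν := by
    intro j hj hne w
    have key : ∀ i, i ≤ ν → Z j w ∈ imageFil π i := by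
      intro i
      induction i with
      | zero => intro _; rw [imageFil_zero hπ]; exact Submodule.mem_top
      | succ i ih =>
        intro hi
        have h1 := step j hj i (hne i (by omega)) _ (ih (by omega))
        rwa [idem j hj] at h1
    exact key ν le_rfl
  apply le_antisymm
  · rintro _ ⟨w, rfl⟩
    unfold sumLin
    rw [LinearMap.sum_apply]
    apply Submodule.sum_mem
    intro j hj
    unfold lowIndices at hj
    rw [mem_filter, mem_range] at hj
    exact img j (by omega) (fun i hi => by omega) w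
  · intro w hw
    refine ⟨w, ?_⟩
    have hsum : ∑ j ∈ range (2 * d + 1), Z j w = w := by
      have h1 := LinearMap.congr_fun hZ.sum w
      unfold sumLin at h1
      rwa [LinearMap.sum_apply] at h1
    unfold sumLin lowIndices
    rw [LinearMap.sum_apply]
    conv_rhs => rw [← hsum]
    apply Finset.sum_subset (Finset.filter_subset _ _)
    intro j hj hj'
    rw [mem_range] at hj
    rw [mem_filter, mem_range, not_and] at hj'
    have h1 := hj' hj
    exact kill j (by omega) (fun i hi => by omega) w hw

/-- The ends of the filtration. -/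
theorem imageFil_ends {d : ℕ} (hd : ∑ t, n t = d) (hπ : OntoPoints π) :
    HasMurreEnds d (InImage (C := C) (n := n) π) := by
  refine ⟨fun w => ?_, ?_, fun w hw => ?_⟩
  · rw [← mem_imageFil, imageFil_zero hπ]
    exact Submodule.mem_top
  · intro w
    rw [← mem_imageFil]
    constructor
    · rintro ⟨z, hz, rfl⟩
      unfold DegreeZero
      rw [pushCH_comp, toBase_comp]
      exact (mem_filCH_one z).1 hz
    · intro hw
      obtain ⟨z, rfl⟩ := push_surjective hπ w
      unfold DegreeZero at hw
      rw [pushCH_comp, toBase_comp] at hw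
      exact Submodule.mem_map_of_mem ((mem_filCH_one z).2 hw)
  · rw [← mem_imageFil, imageFil_large hd (Nat.lt_succ_self d), Submodule.mem_bot] at hw
    exact hw

/-- The second step is the kernel of the Albanese map. -/
theorem imageFil_two (he : Averages e π) (hk : FactorsThrough e π) :
    IsAlbaneseKernel e π (InImage (C := C) (n := n) π 2) := by
  intro z
  rw [← mem_imageFil]
  have h2 : ∀ y : CH0 (powX C n), AlbaneseTrivial y ↔ y ∈ stdFil C n 2 :=
    fun y => (mem_filCH_two y).symm
  rw [h2]
  constructor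
  · rintro ⟨y, hy, h1⟩
    have h3 : corr e (y - z) = 0 := hk (by rw [LinearMap.mem_ker, map_sub, h1, sub_self])
    rw [map_sub, sub_eq_zero] at h3
    rw [← h3]
    exact corr_mem_filCH e 2 y hy
  · intro h
    have h1 : pushCH π z = (e.sum fun _ a => a)⁻¹ • pushCH π (corr e z) := by
      rw [push_corr he.1, smul_smul, inv_mul_cancel₀ he.2, one_smul]
    rw [h1]
    exact Submodule.smul_mem _ _ (Submodule.mem_map_of_mem h)

end Q58.Chow
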