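import Mathlib
import Pool.Agent.Q58.Scal.QMur

/-!
# Existence of Chow-Künneth decompositions of quotients of products of curves, on zero-cycles
-/

set_option linter.unusedSectionVars false

namespace Q58.Chow

open AlgebraicGeometry CategoryTheory Limits Finset Equiv

universe u

section

open Polynomial

/-- The linear factor `X - i`. -/
noncomputable def lf (i : ℕ) : ℚ[X] := X - C (i : ℚ)

/-- The Lagrange polynomials for the nodes `0, ..., d`. -/
noncomputable def lagP (d j : ℕ) : ℚ[X] := Lagrange.basis (range (d + 1)) (fun i => (i : ℚ)) j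

lemma lagP_eq (d j : ℕ) : lagP d j = C (∏ i ∈ (range (d + 1)).erase j, ((j : ℚ) - i)⁻¹) *
    (((range (d + 1)).erase j).toList.map lf).prod := by
  rw [Finset.prod_map_toList, map_prod, ← Finset.prod_mul_distrib]
  rfl

lemma injOn_cast (d : ℕ) : Set.InjOn (fun i : ℕ => (i : ℚ)) (range (d + 1)) :=
  fun _ _ _ _ h => Nat.cast_injective h

variable {V : Type*} [AddCommGroup V] [Module ℚ V]

lemma lag_sum (A : V →ₗ[ℚ] V) (d : ℕ) : ∑ j ∈ range (d + 1), aeval A (lagP d j) = 1 := by
  rw [← map_sum]
  unfold lagP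
  rw [Lagrange.sum_basis (injOn_cast d) ⟨0, by simp⟩, map_one]

lemma lag_idem (A : V →ₗ[ℚ] V) (d : ℕ)
    (h : aeval A (∏ i ∈ range (d + 1), lf i) = 0) {j : ℕ} (hj : j ≤ d) :
    aeval A (lagP d j) * aeval A (lagP d j) = aeval A (lagP d j) := by
  have hmem : j ∈ range (d + 1) := by rw [mem_range]; omega
  have h1 : (X - C (j : ℚ)) ∣ (lagP d j - 1) := by
    rw [dvd_iff_isRoot, IsRoot, eval_sub, eval_one]
    unfold lagP
    have := Lagrange.eval_basis_self (injOn_cast d) hmem
    rw [this, sub_self]
  have h2 : (∏ i ∈ (range (d + 1)).erase j, lf i) ∣ lagP d j := by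
    rw [lagP_eq, Finset.prod_map_toList]
    exact Dvd.intro_left _ rfl
  have h3 : (∏ i ∈ range (d + 1), lf i) ∣ lagP d j * lagP d j - lagP d j := by
    rw [← Finset.mul_prod_erase _ _ hmem]
    have h4 : lagP d j * lagP d j - lagP d j = (lagP d j - 1) * lagP d j := by ring
    rw [h4]
    exact mul_dvd_mul h1 h2
  obtain ⟨R, hR⟩ := h3
  have h5 := congrArg (aeval A) hR
  rw [map_sub, map_mul, map_mul, h, zero_mul, sub_eq_zero] at h5
  exact h5

end

variable {k : Type u} [Field k] {T : Type} [Fintype T] [DecidableEq T]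
  {C : T → Sch k} {n : T → ℕ} {S : Sch k} {π : powX C n ⟶ S} {e : PowMor C n n →₀ ℚ}

/-- The correspondence `∑_j (j - i) stdProj_j`. -/
noncomputable def levelCorr (o : ∀ t, Fin (n t) → Pt (C t)) (d i : ℕ) : PowMor C n n →₀ ℚ :=
  ∑ j ∈ range (d + 1), ((j : ℚ) - i) • stdProj o j

lemma corr_levelCorr (o : ∀ t, Fin (n t) → Pt (C t)) (d i : ℕ) (z : CH0 (powX C n)) :
    corr (levelCorr o d i) z = ∑ j ∈ range (d + 1), ((j : ℚ) - i) • corr (stdProj o j) z := by
  unfold levelCorr
  rw [corr_eq, map_sum, LinearMap.sum_apply]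
  apply Finset.sum_congr rfl
  intro j _
  rw [map_smul, LinearMap.smul_apply, ← corr_eq]

lemma level_forms (o : ∀ t, Fin (n t) → Pt (C t)) (g : T → ℕ) (d i : ℕ) :
    ZeroOnForms (levelCorr o d i) g i := by
  classical
  intro u s hu hs
  rw [forms_eq]
  unfold levelCorr
  rw [map_sum]
  apply Finset.sum_eq_zero
  intro j _
  rw [map_smul]
  by_cases hij : i = j
  · have h0 : ((j : ℚ) - i) = 0 := by rw [← hij, sub_self]
    rw [h0, zero_smul]
  · have h1 := stdProj_forms o g hij u s hu hs
    rw [forms_eq] at h1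
    rw [h1, smul_zero]

lemma level_diff (o : ∀ t, Fin (n t) → Pt (C t)) {d : ℕ} (hd : ∑ t, n t = d) (i : ℕ)
    (z : CH0 (powX C n)) :
    corr (levelCorr o d i) z = corr (levelCorr o d 0) z - (i : ℚ) • z := by
  rw [corr_levelCorr, corr_levelCorr]
  have h1 := stdProj_sum o d (by simpa using hd) z
  have h2 : (i : ℚ) • z = ∑ j ∈ range (d + 1), (i : ℚ) • corr (stdProj o j) z := by
    rw [← Finset.smul_sum, h1]
  rw [h2, ← Finset.sum_sub_distrib]
  apply Finset.sum_congr rfl
  intro j _
  rw [← sub_smul]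
  congr 1
  push_cast
  ring

/-- A composition of the correspondences `levelCorr i`, for `i` in a list, and `e`. -/
noncomputable def pathCorr (o : ∀ t, Fin (n t) → Pt (C t)) (d : ℕ) (e : PowMor C n n →₀ ℚ) :
    List ℕ → (PowMor C n n →₀ ℚ)
  | [] => Finsupp.single (keep o univ) 1
  | i :: l => compCorr (compCorr (pathCorr o d e l) e) (levelCorr o d i)

lemma path_forms [∀ t, IsCurve (C t)] {g : T → ℕ} (hg : ∀ t, genus (C t) = g t)
    (o : ∀ t, Fin (n t) → Pt (C t)) (d : ℕ) (e : PowMor C n n →₀ ℚ) {l : List ℕ} {i : ℕ}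
    (hi : i ∈ l) : ZeroOnForms (pathCorr o d e l) g i := by
  induction l with
  | nil => simp at hi
  | cons i' l ih =>
    unfold pathCorr
    rcases List.mem_cons.1 hi with h | h
    · subst h
      exact zeroOnForms_comp_right hg _ _ (level_forms o g d i)
    · exact zeroOnForms_comp_left hg _ _ (zeroOnForms_comp_left hg _ _ (ih h))

/-- The sum of the coefficients. -/
noncomputable def coefSum (e : PowMor C n n →₀ ℚ) : ℚ := e.sum fun _ a => a

open Polynomial in
lemma path_acts (o : ∀ t, Fin (n t) → Pt (C t)) {d : ℕ} (hd : ∑ t, n t = d)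
    (he : Averages e π) (A : CH0 S →ₗ[ℚ] CH0 S)
    (hA : ∀ z, A (pushCH π z) =
      (coefSum e)⁻¹ • pushCH π (corr (levelCorr o d 0) (corr e z))) (l : List ℕ)
    (z : CH0 (powX C n)) :
    pushCH π (corr (pathCorr o d e l) (corr e z)) = (coefSum e) ^ (l.length + 1) •
      (aeval A ((l.map lf).prod)) (pushCH π z) := by
  have hs : coefSum e ≠ 0 := he.2
  have hpe : ∀ y, pushCH π (corr e y) = coefSum e • pushCH π y := fun y => push_corr he.1 y
  induction l with
  | nil =>
    unfold pathCorr
    rw [corr_eq, Finsupp.linearCombination_single, one_smul, keep_univ_hom, pushCH_id]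
    simp [hpe]
  | cons i l ih =>
    unfold pathCorr
    rw [corr_compCorr, corr_compCorr, level_diff o hd, map_sub, map_smul, hpe]
    have h1 : pushCH π (corr (levelCorr o d 0) (corr e (corr (pathCorr o d e l) (corr e z)))) =
        coefSum e • A (pushCH π (corr (pathCorr o d e l) (corr e z))) := by
      rw [hA, smul_smul, mul_inv_cancel₀ hs, one_smul]
    rw [h1, ih, map_smul, List.map_cons, List.prod_cons, map_mul, Module.End.mul_apply,
      List.length_cons]
    have h2 : ∀ y, (aeval A (lf i)) y = A y - (i : ℚ) • y := by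
      intro y
      unfold lf
      rw [map_sub, aeval_X, aeval_C, LinearMap.sub_apply, Module.algebraMap_end_apply]
    rw [h2, smul_sub, pow_succ _ (l.length + 1), smul_smul, smul_smul, smul_smul, smul_smul]
    congr 2
    · ring
    · ring

open Polynomial in
lemma level_vanish [∀ t, IsCurve (C t)] {g : T → ℕ} (hg : ∀ t, genus (C t) = g t)
    (o : ∀ t, Fin (n t) → Pt (C t)) {d : ℕ} (hd : ∑ t, n t = d) (hπ : OntoPoints π)
    (he : Averages e π) (A : CH0 S →ₗ[ℚ] CH0 S)
    (hA : ∀ z, A (pushCH π z) =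
      (coefSum e)⁻¹ • pushCH π (corr (levelCorr o d 0) (corr e z))) (N : ℕ) (w : CH0 S) :
    aeval A (∏ i ∈ range N, lf i) w ∈ imageFil π N := by
  have hs : coefSum e ≠ 0 := he.2
  have hpe : ∀ y, pushCH π (corr e y) = coefSum e • pushCH π y := fun y => push_corr he.1 y
  induction N with
  | zero =>
    rw [imageFil_zero hπ]
    exact Submodule.mem_top
  | succ N ih =>
    rw [Finset.prod_range_succ, mul_comm, map_mul, Module.End.mul_apply]
    obtain ⟨z, hz, h1⟩ := ih
    unfold lf at h1 ⊢
    rw [← h1, map_sub, aeval_X, aeval_C, LinearMap.sub_apply, Module.algebraMap_end_apply, hA]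
    have h2 : (coefSum e)⁻¹ • pushCH π (corr (levelCorr o d 0) (corr e z)) -
        (N : ℚ) • pushCH π z =
        (coefSum e)⁻¹ • pushCH π (corr (levelCorr o d N) (corr e z)) := by
      rw [level_diff o hd N, map_sub, map_smul, hpe, smul_sub, smul_smul _ _ (pushCH π z),
        smul_smul _ _ (pushCH π z)]
      congr 2
      field_simp
    rw [h2]
    apply Submodule.smul_mem
    apply Submodule.mem_map_of_mem
    exact corr_mem_filCH_succ hg _ N (level_forms o g d N) _ (corr_mem_filCH e N z hz)

open Polynomial in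
/-- **Existence.** -/
theorem exists_quotDecomposition [∀ t, IsCurve (C t)] {g : T → ℕ} (hg : ∀ t, genus (C t) = g t)
    (o : ∀ t, Fin (n t) → Pt (C t)) {d : ℕ} (hd : ∑ t, n t = d) (hπ : OntoPoints π)
    (he : Averages e π) (hk : FactorsThrough e π) : HasQuotDecomposition g d π e := by
  classical
  have hs : coefSum e ≠ 0 := he.2
  -- the operator
  obtain ⟨r, hr⟩ := (pushCH π).exists_rightInverse_of_surjective
    (LinearMap.range_eq_top.2 (push_surjective hπ))
  let L : CH0 (powX C n) →ₗ[ℚ] CH0 S :=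
    (coefSum e)⁻¹ • (pushCH π ∘ₗ corr (levelCorr o d 0) ∘ₗ corr e)
  let A : CH0 S →ₗ[ℚ] CH0 S := L ∘ₗ r
  have hA : ∀ z, A (pushCH π z) =
      (coefSum e)⁻¹ • pushCH π (corr (levelCorr o d 0) (corr e z)) := by
    intro z
    have h1 : pushCH π (r (pushCH π z)) = pushCH π z := LinearMap.congr_fun hr (pushCH π z)
    have h2 : corr e (r (pushCH π z)) = corr e z := by
      have h3 : corr e (r (pushCH π z) - z) = 0 :=
        hk (by rw [LinearMap.mem_ker, map_sub, h1, sub_self])
      rwa [map_sub, sub_eq_zero] at h3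
    change (coefSum e)⁻¹ • pushCH π (corr (levelCorr o d 0) (corr e (r (pushCH π z)))) = _
    rw [h2]
  have hvan : aeval A (∏ i ∈ range (d + 1), lf i) = 0 := by
    refine LinearMap.ext fun w => ?_
    have h1 := level_vanish hg o hd hπ he A hA (d + 1) w
    rw [imageFil_large hd (Nat.lt_succ_self d), Submodule.mem_bot] at h1
    exact h1
  -- the projectors
  let lj : ℕ → List ℕ := fun j => ((range (d + 1)).erase j).toList
  have hlen : ∀ j ≤ d, (lj j).length = d := by
    intro j hj
    rw [Finset.length_toList, Finset.card_erase_of_mem (by rw [mem_range]; omega), card_range]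
    omega
  let lam : ℕ → ℚ := fun j => ((coefSum e) ^ (d + 1))⁻¹ *
    ∏ i ∈ (range (d + 1)).erase j, ((j : ℚ) - i)⁻¹
  let c' : ℕ → (PowMor C n n →₀ ℚ) := fun j => lam j • pathCorr o d e (lj j)
  let Z' : ℕ → (CH0 S →ₗ[ℚ] CH0 S) := fun j => aeval A (lagP d j)
  have hacts : ∀ j ≤ d, ActsThrough π π e (c' j) (Z' j) := by
    intro j hj
    refine LinearMap.ext fun z => ?_
    change aeval A (lagP d j) (pushCH π z) = pushCH π (corr (c' j) (corr e z))
    have h1 : corr (c' j) (corr e z) = lam j • corr (pathCorr o d e (lj j)) (corr e z) := by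
      change corr (lam j • pathCorr o d e (lj j)) (corr e z) = _
      rw [corr_eq, map_smul, LinearMap.smul_apply, ← corr_eq]
    rw [h1, map_smul, path_acts o hd he A hA, hlen j hj, smul_smul, lagP_eq, map_mul, aeval_C,
      Module.End.mul_apply, Module.algebraMap_end_apply]
    congr 1
    change _ = ((coefSum e) ^ (d + 1))⁻¹ * (∏ i ∈ (range (d + 1)).erase j, ((j : ℚ) - i)⁻¹) *
      (coefSum e) ^ (d + 1)
    have h2 : (coefSum e) ^ (d + 1) ≠ 0 := pow_ne_zero _ hs
    field_simp
  have hforms : ∀ j ≤ d, ∀ i ≤ d, i ≠ j →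
      ZeroOnForms (compCorr (compCorr e (c' j)) e) g i := by
    intro j hj i hi hij
    apply zeroOnForms_comp_left hg
    apply zeroOnForms_comp_right hg
    have h1 : ZeroOnForms (pathCorr o d e (lj j)) g i := by
      apply path_forms hg
      rw [Finset.mem_toList, Finset.mem_erase, mem_range]
      exact ⟨hij, by omega⟩
    intro u s hu hs'
    have h2 := h1 u s hu hs'
    rw [forms_eq] at h2 ⊢
    change Finsupp.linearCombination ℚ _ (lam j • pathCorr o d e (lj j)) = 0
    rw [map_smul, h2, smul_zero]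
  refine ⟨fun j => if d ≤ j then c' (2 * d - j) else 0,
    fun j => if d ≤ j then Z' (2 * d - j) else 0, ?_, ?_, ?_, ?_⟩
  · intro j hj
    beta_reduce
    by_cases h : d ≤ j
    · rw [if_pos h, if_pos h]
      exact hacts _ (by omega)
    · rw [if_neg h, if_neg h]
      refine LinearMap.ext fun z => ?_
      change (0 : CH0 S →ₗ[ℚ] CH0 S) (pushCH π z) =
        pushCH π (corr (0 : PowMor C n n →₀ ℚ) (corr e z))
      rw [corr_eq, map_zero, LinearMap.zero_apply, LinearMap.zero_apply, map_zero]
  · intro j hj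
    beta_reduce
    by_cases h : d ≤ j
    · rw [if_pos h]
      exact lag_idem A d hvan (by omega)
    · rw [if_neg h, LinearMap.zero_comp]
  · unfold sumLin
    have h1 : ∑ j ∈ range (2 * d + 1), (if d ≤ j then Z' (2 * d - j) else 0) =
        ∑ i ∈ range (d + 1), Z' i := by
      rw [← Finset.sum_filter]
      refine Finset.sum_bij' (fun j _ => 2 * d - j) (fun i _ => 2 * d - i) ?_ ?_ ?_ ?_ ?_
      · intro j hj
        rw [mem_filter, mem_range] at hj
        rw [mem_range]
        omega
      · intro i hi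
        rw [mem_range] at hi
        rw [mem_filter, mem_range]
        omega
      · intro j hj
        rw [mem_filter, mem_range] at hj
        omega
      · intro i hi
        rw [mem_range] at hi
        omega
      · intro j _
        rfl
    rw [h1]
    exact lag_sum A d
  · intro i hi j hj hij
    beta_reduce
    by_cases h : d ≤ j
    · rw [if_pos h]
      exact hforms _ (by omega) i hi (by omega)
    · rw [if_neg h]
      apply zeroOnForms_comp_left hg
      apply zeroOnForms_comp_right hg
      intro u s _ _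
      rfl

end Q58.Chow
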